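import Pool.Agent.H5R2.NBA.Defs
import Pool.Agent.H5R2.NB.BP

/-! Task AB: abstract form of the conclusion. -/

set_option autoImplicit false

open MeasureTheory Filter Topology
open scoped BigOperators ENNReal NNReal InnerProductSpace ComplexConjugate

namespace Pool.Agent.H5R2.NBA

open Pool.Agent.H5R2.NB

namespace AB

variable {ι : Type}

theorem inner_pres (W : UG (L2 ι)) (t : ℝ) (x y : L2 ι) :
    ⟪W.U t x, W.U t y⟫_ℂ = ⟪x, y⟫_ℂ := by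
  let L : L2 ι →ₗᵢ[ℂ] L2 ι := ⟨(W.U t).toLinearMap, W.norm' t⟩
  exact L.inner_map_map x y

theorem inner_adj (W : UG (L2 ι)) (t : ℝ) (x y : L2 ι) :
    ⟪W.U t x, y⟫_ℂ = ⟪x, W.U (-t) y⟫_ℂ := by
  have h : y = W.U t (W.U (-t) y) := by
    rw [← W.add', add_neg_cancel, W.zero']
  conv_lhs => rw [h]
  exact inner_pres W t _ _

theorem g_symm (W : UG (L2 ι)) (v : L2 ι →L[ℂ] L2 ι) (hv : ∀ x y, ⟪v x, y⟫_ℂ = ⟪x, v y⟫_ℂ)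
    (x y : L2 ι) (s : ℝ) : ⟪BP.g W v x s, y⟫_ℂ = ⟪x, BP.g W v y s⟫_ℂ := by
  unfold BP.g
  rw [inner_adj, neg_neg, hv, inner_adj]

theorem avP_symm (W : UG (L2 ι)) (v : L2 ι →L[ℂ] L2 ι) (hv : ∀ x y, ⟪v x, y⟫_ℂ = ⟪x, v y⟫_ℂ)
    (N : ℕ) (x y : L2 ι) : ⟪avP W v N x, y⟫_ℂ = ⟪x, avP W v N y⟫_ℂ := by
  have h1 : ∀ a b : L2 ι, ⟪a, ∫ s in (0 : ℝ)..(N : ℝ), BP.g W v b s⟫_ℂ =
      ∫ s in (0 : ℝ)..(N : ℝ), ⟪a, BP.g W v b s⟫_ℂ := by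
    intro a b
    have := (innerSL ℂ a).intervalIntegral_comp_comm
      ((BP.g_cont W v b).intervalIntegrable (μ := volume) 0 (N : ℝ))
    simpa using this.symm
  have h2 : ⟪∫ s in (0 : ℝ)..(N : ℝ), BP.g W v x s, y⟫_ℂ =
      ⟪x, ∫ s in (0 : ℝ)..(N : ℝ), BP.g W v y s⟫_ℂ := by
    rw [← inner_conj_symm, h1, h1, intervalIntegral.integral_of_le (Nat.cast_nonneg N),
      intervalIntegral.integral_of_le (Nat.cast_nonneg N), ← integral_conj]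
    refine integral_congr_ae (Eventually.of_forall fun s => ?_)
    show conj ⟪y, BP.g W v x s⟫_ℂ = ⟪x, BP.g W v y s⟫_ℂ
    rw [inner_conj_symm, g_symm W v hv]
  show ⟪((N : ℂ)⁻¹) • ∫ s in (0 : ℝ)..(N : ℝ), BP.g W v x s, y⟫_ℂ =
    ⟪x, ((N : ℂ)⁻¹) • ∫ s in (0 : ℝ)..(N : ℝ), BP.g W v y s⟫_ℂ
  rw [inner_smul_left, inner_smul_right, h2, map_inv₀, Complex.conj_natCast]

theorem B_symm (W : UG (L2 ι)) (v : L2 ι →L[ℂ] L2 ι) (hv : ∀ x y, ⟪v x, y⟫_ℂ = ⟪x, v y⟫_ℂ)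
    (Nk : ℕ → ℕ) (B : L2 ι →L[ℂ] L2 ι) (hB : Good W v Nk B) (x y : L2 ι) :
    ⟪B x, y⟫_ℂ = ⟪x, B y⟫_ℂ := by
  have h1 : Tendsto (fun k => ⟪avP W v (Nk k) x, y⟫_ℂ) atTop (𝓝 ⟪B x, y⟫_ℂ) :=
    (hB x).1.inner tendsto_const_nhds
  have h2 : Tendsto (fun k => ⟪x, avP W v (Nk k) y⟫_ℂ) atTop (𝓝 ⟪x, B y⟫_ℂ) :=
    tendsto_const_nhds.inner (hB y).1
  have h3 : (fun k => ⟪avP W v (Nk k) x, y⟫_ℂ) = fun k => ⟪x, avP W v (Nk k) y⟫_ℂ := by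
    funext k
    exact avP_symm W v hv _ x y
  rw [h3] at h1
  exact tendsto_nhds_unique h1 h2

end AB

open AB in
theorem t_AB (h1 : St_W6) (h2 : St_PR) (h3 : St_QN) : St_AB := by
  intro ι U e hF κ κ' hκ v hv Nk hNk B B' hB hB' K hK1 hK2 hK3 hK4 hK5 hK6 ψ hψ
  obtain ⟨P, hP1, hP2, hP3, hP4, hP5, hP6⟩ := h2 ι (U κ')
  obtain ⟨hbd, hcomm⟩ := t_BP ι (U κ') v Nk hNk B' hB'
  have hsym := B_symm (U κ') v hv Nk B' hB'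
  have hPB := hP5 B' hsym hcomm
  have hPK := hP6 K hK1 hK2 hK3 hK4
  -- `x = P e`
  obtain ⟨x, hx⟩ : ∃ x, x = P e := ⟨_, rfl⟩
  have hKx : K x = x := by
    rw [hx, ← hPK, hK6]
  -- antisymmetry
  have hanti : ∀ t, ⟪(U κ').U t x, B' x⟫_ℂ = 0 := by
    intro t
    have e1 : ⟪(U κ').U t x, B' x⟫_ℂ = ⟪K (B' x), K ((U κ').U t x)⟫_ℂ := (hK1 _ _).symm
    have e2 : ⟪K (B' x), K ((U κ').U t x)⟫_ℂ = -⟪(U κ').U t x, B' x⟫_ℂ := by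
      rw [hK5, hK4, hKx, inner_neg_left, hsym, hcomm, ← inner_adj]
    have e3 := e1.trans e2
    have e4 : (2 : ℂ) * ⟪(U κ').U t x, B' x⟫_ℂ = 0 := by
      linear_combination e3
    exact (mul_eq_zero.mp e4).resolve_left two_ne_zero
  -- `φ = B' x`
  obtain ⟨φ, hφ⟩ : ∃ φ, φ = B' x := ⟨_, rfl⟩
  have hφP : φ = P (B' e) := by
    rw [hφ, hx, hPB]
  have hφH : φ ∈ HAC (U κ') := by
    rw [hφP]
    exact hP1 _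
  have hPφ : P φ = φ := hP2 φ hφH
  have horth : ∀ t, ⟪φ, (U κ').U t e⟫_ℂ = 0 := by
    intro t
    have e1 : ⟪φ, (U κ').U t e⟫_ℂ = ⟪φ, (U κ').U t x⟫_ℂ := by
      conv_lhs => rw [← hPφ]
      rw [hP3, hP4, ← hx]
    rw [e1, ← inner_conj_symm, hφ, hanti t, map_zero]
  -- `⟨B' φ, e⟩ = 0`
  have hz : ⟪B' φ, e⟫_ℂ = 0 := by
    have hle : ∀ ε : ℝ, 0 < ε → ‖⟪B' φ, e⟫_ℂ‖ ≤ ε * (‖v‖ * ‖e‖) := by
      intro ε hε
      obtain ⟨C, φ', hC, ho, hn⟩ := h3 ι (U κ') e φ hφH horth ε hε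
      have e1 := h1 ι U e hF κ κ' hκ v hv Nk hNk B B' hB hB' C φ' hC ho 0
      rw [(U κ').zero'] at e1
      have e2 : ⟪B' φ, e⟫_ℂ = ⟪B' (φ - φ'), e⟫_ℂ := by
        rw [map_sub, inner_sub_left, e1, sub_zero]
      rw [e2]
      calc ‖⟪B' (φ - φ'), e⟫_ℂ‖ ≤ ‖B' (φ - φ')‖ * ‖e‖ := norm_inner_le_norm _ _
        _ ≤ (‖v‖ * ‖φ - φ'‖) * ‖e‖ := mul_le_mul_of_nonneg_right (hbd _) (norm_nonneg _)
        _ ≤ (‖v‖ * ε) * ‖e‖ := by gcongr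
        _ = ε * (‖v‖ * ‖e‖) := by ring
    have hle0 : ‖⟪B' φ, e⟫_ℂ‖ ≤ 0 := by
      refine le_of_forall_pos_le_add fun δ hδ => ?_
      have hpos : 0 < ‖v‖ * ‖e‖ + 1 := by positivity
      have h4 := hle (δ / (‖v‖ * ‖e‖ + 1)) (by positivity)
      rw [zero_add]
      refine h4.trans ?_
      rw [div_mul_eq_mul_div, div_le_iff₀ hpos]
      nlinarith [norm_nonneg v, norm_nonneg e, mul_nonneg (norm_nonneg v) (norm_nonneg e)]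
    exact norm_le_zero_iff.mp hle0
  have hφ0 : φ = 0 := by
    have e1 : ⟪B' φ, e⟫_ℂ = ⟪φ, φ⟫_ℂ := by
      have e2 : B' φ = P (B' φ) := by
        rw [hPB, hPφ]
      rw [e2, hP3, ← hx, hsym, ← hφ]
    rw [hz] at e1
    exact inner_self_eq_zero.mp e1.symm
  -- conclusion
  have e1 : ⟪e, B' ψ⟫_ℂ = ⟪B' x, ψ⟫_ℂ := by
    have e2 : B' ψ = P (B' ψ) := by
      rw [hPB, hP2 ψ hψ]
    rw [e2, ← hP3, ← hx, ← hsym]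
  rw [e1, ← hφ, hφ0, inner_zero_left]

end Pool.Agent.H5R2.NBA
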