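import Pool.Agent.H5R2.NBA.FINA

/-! # FIN: mean square convergence to zero for real times -/

set_option autoImplicit false

open MeasureTheory Filter Topology
open scoped BigOperators ENNReal NNReal InnerProductSpace ComplexConjugate

namespace Pool.Agent.H5R2.NBA

open Pool.Agent.H5R2.NB

namespace FIN

variable {d : ℕ}

/-- pointwise comparison of the average over `[0,T]` and over `[0,⌊T⌋]` -/
theorem norm_real (W : UG (L2 (Site d))) (v : L2 (Site d) →L[ℂ] L2 (Site d))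
    (x : L2 (Site d)) (T : ℝ) (hT : 1 ≤ T) :
    ‖((T : ℂ)⁻¹) • ∫ s in (0 : ℝ)..T, W.U (-s) (v (W.U s x))‖ ≤
      ‖avP W v ⌊T⌋₊ x‖ + T⁻¹ * (‖v‖ * ‖x‖) := by
  set N := ⌊T⌋₊ with hN
  have hNpos : 0 < N := Nat.floor_pos.2 hT
  have hNt : (N : ℝ) ≤ T := Nat.floor_le (by linarith)
  have hNt2 : T < N + 1 := Nat.lt_floor_add_one T
  have hT0 : 0 < T := by linarith
  have hc := LIMB.cont_P W v x
  have hi : ∀ a b : ℝ, IntervalIntegrable
      (fun s : ℝ => W.U (-s) (v (W.U s x))) volume a b :=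
    fun a b => hc.intervalIntegrable a b
  have e : ∫ s in (0 : ℝ)..T, W.U (-s) (v (W.U s x)) =
      (N : ℂ) • avP W v N x + ∫ s in (N : ℝ)..T, W.U (-s) (v (W.U s x)) := by
    have h1 : (N : ℂ) • avP W v N x = ∫ s in (0 : ℝ)..(N : ℝ), W.U (-s) (v (W.U s x)) := by
      unfold avP
      rw [smul_smul, mul_inv_cancel₀ (by exact_mod_cast hNpos.ne'), one_smul]
      rfl
    rw [h1, intervalIntegral.integral_add_adjacent_intervals (hi _ _) (hi _ _)]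
  have h2 : ‖∫ s in (N : ℝ)..T, W.U (-s) (v (W.U s x))‖ ≤ ‖v‖ * ‖x‖ := by
    have := intervalIntegral.norm_integral_le_of_norm_le_const (a := (N : ℝ)) (b := T)
      (f := fun s => W.U (-s) (v (W.U s x))) (C := ‖v‖ * ‖x‖)
      (fun s _ => LIMB.norm_P W v x _ _)
    refine this.trans ?_
    have h3 : |T - N| ≤ 1 := by
      rw [abs_of_nonneg (by linarith)]
      linarith
    calc ‖v‖ * ‖x‖ * |T - N| ≤ ‖v‖ * ‖x‖ * 1 := by gcongr
      _ = ‖v‖ * ‖x‖ := mul_one _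
  rw [norm_smul, norm_inv, Complex.norm_real, Real.norm_eq_abs, abs_of_pos hT0, e]
  calc T⁻¹ * ‖(N : ℂ) • avP W v N x + ∫ s in (N : ℝ)..T, W.U (-s) (v (W.U s x))‖
      ≤ T⁻¹ * (T * ‖avP W v N x‖ + ‖v‖ * ‖x‖) := by
        refine mul_le_mul_of_nonneg_left ?_ (by positivity)
        refine (norm_add_le _ _).trans (add_le_add ?_ h2)
        rw [norm_smul, Complex.norm_natCast]
        exact mul_le_mul_of_nonneg_right hNt (norm_nonneg _)
    _ = ‖avP W v N x‖ + T⁻¹ * (‖v‖ * ‖x‖) := by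
        field_simp

end FIN

open FIN FINA in
theorem t_FIN (h1 : St_FINA) : St_FIN := by
  intro d c ev hev ν _ hν j v hv ψ M hψ hM hac
  have : IsProbabilityMeasure (PP d ν) := by unfold PP; infer_instance
  have h := h1 d c ev hev ν hν j v hv ψ M hψ hM hac
  have hM0 : 0 ≤ M := (norm_nonneg _).trans (hM 0)
  have hfl : Tendsto (fun t : ℝ => ⌊t⌋₊) atTop atTop := tendsto_nat_floor_atTop
  have h2 := h.comp hfl
  have h3 : Tendsto (fun T : ℝ => 2 * (∫⁻ V, ‖avP (ev V) v ⌊T⌋₊ (ψ V)‖ₑ ^ 2 ∂(PP d ν)) +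
      ENNReal.ofReal (2 * (T⁻¹ * (‖v‖ * M)) ^ 2)) atTop (𝓝 0) := by
    have a1 : Tendsto (fun T : ℝ => 2 * (∫⁻ V, ‖avP (ev V) v ⌊T⌋₊ (ψ V)‖ₑ ^ 2 ∂(PP d ν)))
        atTop (𝓝 0) := by
      have := ENNReal.Tendsto.const_mul (a := 2) h2 (Or.inr (by norm_num))
      simpa using this
    have a2 : Tendsto (fun T : ℝ => ENNReal.ofReal (2 * (T⁻¹ * (‖v‖ * M)) ^ 2)) atTop
        (𝓝 0) := by
      have b1 : Tendsto (fun T : ℝ => 2 * (T⁻¹ * (‖v‖ * M)) ^ 2) atTop (𝓝 0) := by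
        have b2 := ((tendsto_inv_atTop_zero (𝕜 := ℝ)).mul_const (‖v‖ * M)).pow 2
        have b3 := b2.const_mul 2
        simpa using b3
      have := ENNReal.tendsto_ofReal b1
      simpa using this
    simpa using a1.add a2
  refine tendsto_of_tendsto_of_tendsto_of_le_of_le' tendsto_const_nhds h3
    (Eventually.of_forall fun t => bot_le) ?_
  filter_upwards [eventually_ge_atTop (1 : ℝ)] with T hT
  have hm2 : AEMeasurable (fun V => ‖avP (ev V) v ⌊T⌋₊ (ψ V)‖ₑ ^ 2) (PP d ν) :=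
    (aesm_avP ev hev v _ _ ψ hψ).enorm.pow_const 2
  have hpt : ∀ V, ‖((T : ℂ)⁻¹) • ∫ s in (0 : ℝ)..T,
        (ev V).U (-s) (v ((ev V).U s (ψ V)))‖ₑ ^ 2 ≤
      2 * ‖avP (ev V) v ⌊T⌋₊ (ψ V)‖ₑ ^ 2 + ENNReal.ofReal (2 * (T⁻¹ * (‖v‖ * M)) ^ 2) := by
    intro V
    have g1 := norm_real (ev V) v (ψ V) T hT
    have g2 : T⁻¹ * (‖v‖ * ‖ψ V‖) ≤ T⁻¹ * (‖v‖ * M) :=
      mul_le_mul_of_nonneg_left (mul_le_mul_of_nonneg_left (hM V) (norm_nonneg _))
        (by positivity)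
    set A := ‖((T : ℂ)⁻¹) • ∫ s in (0 : ℝ)..T, (ev V).U (-s) (v ((ev V).U s (ψ V)))‖ with hA
    set Bn := ‖avP (ev V) v ⌊T⌋₊ (ψ V)‖ with hBn
    set D := T⁻¹ * (‖v‖ * M) with hD
    have g3 : A ^ 2 ≤ 2 * Bn ^ 2 + 2 * D ^ 2 := by
      have hA0 : 0 ≤ A := norm_nonneg _
      have g4 : A ≤ Bn + D := by linarith
      have g5 : A ^ 2 ≤ (Bn + D) ^ 2 := pow_le_pow_left₀ hA0 g4 2
      nlinarith [sq_nonneg (Bn - D)]
    have e2 : (2 : ℝ≥0∞) * ENNReal.ofReal (Bn ^ 2) = ENNReal.ofReal (2 * Bn ^ 2) := by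
      rw [ENNReal.ofReal_mul (by norm_num)]
      norm_num
    rw [← ofReal_norm, ← ofReal_norm, ← hA, ← hBn, ← ENNReal.ofReal_pow (norm_nonneg _),
      ← ENNReal.ofReal_pow (norm_nonneg _), e2,
      ← ENNReal.ofReal_add (by positivity) (by positivity)]
    exact ENNReal.ofReal_le_ofReal g3
  calc (∫⁻ V, ‖((T : ℂ)⁻¹) • ∫ s in (0 : ℝ)..T,
        (ev V).U (-s) (v ((ev V).U s (ψ V)))‖ₑ ^ 2 ∂(PP d ν))
      ≤ ∫⁻ V, (2 * ‖avP (ev V) v ⌊T⌋₊ (ψ V)‖ₑ ^ 2 +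
        ENNReal.ofReal (2 * (T⁻¹ * (‖v‖ * M)) ^ 2)) ∂(PP d ν) :=
        lintegral_mono fun V => hpt V
    _ = _ := by
        rw [lintegral_add_right _ measurable_const, lintegral_const_mul'' _ hm2]
        simp

end Pool.Agent.H5R2.NBA
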