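import Pool.Agent.H5R2.NBA.Defs
import Pool.Agent.H5R2.NB.ALL

/-! # FINA: mean square convergence to zero along the integers -/

set_option autoImplicit false

open MeasureTheory Filter Topology
open scoped BigOperators ENNReal NNReal InnerProductSpace ComplexConjugate

namespace Pool.Agent.H5R2.NBA

open Pool.Agent.H5R2.NB

namespace FINA

variable {d : ℕ}

theorem cont_int {c : ℝ} (ev : (Site d → ℝ) → UG (L2 (Site d)))
    (hev : ∀ V, IsGrp c V (ev V)) (v : L2 (Site d) →L[ℂ] L2 (Site d)) (T : ℝ) :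
    Continuous fun p : (Site d → ℝ) × L2 (Site d) =>
      ∫ s in (0 : ℝ)..T, (ev p.1).U (-s) (v ((ev p.1).U s p.2)) := by
  have h := ALL.a_CV d c ev hev
  have h1 : Continuous (fun p : ((Site d → ℝ) × L2 (Site d)) × ℝ =>
      (ev p.1.1).U p.2 p.1.2) :=
    h.comp (by fun_prop : Continuous fun p : ((Site d → ℝ) × L2 (Site d)) × ℝ =>
      ((p.1.1, p.2, p.1.2) : (Site d → ℝ) × ℝ × L2 (Site d)))
  have h2 : Continuous (fun p : ((Site d → ℝ) × L2 (Site d)) × ℝ =>
      (ev p.1.1).U (-p.2) (v ((ev p.1.1).U p.2 p.1.2))) :=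
    h.comp ((continuous_fst.comp continuous_fst).prodMk (continuous_snd.neg.prodMk
      (v.continuous.comp h1)))
  exact intervalIntegral.continuous_parametric_intervalIntegral_of_continuous'
    (f := fun (p : (Site d → ℝ) × L2 (Site d)) (s : ℝ) =>
      (ev p.1).U (-s) (v ((ev p.1).U s p.2))) h2 0 T

theorem aesm {c : ℝ} (ev : (Site d → ℝ) → UG (L2 (Site d)))
    (hev : ∀ V, IsGrp c V (ev V)) (v : L2 (Site d) →L[ℂ] L2 (Site d)) (T : ℝ)
    (P : Measure (Site d → ℝ)) (ψ : (Site d → ℝ) → L2 (Site d))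
    (hψ : AEStronglyMeasurable ψ P) :
    AEStronglyMeasurable (fun V =>
      ∫ s in (0 : ℝ)..T, (ev V).U (-s) (v ((ev V).U s (ψ V)))) P :=
  (cont_int ev hev v T).comp_aestronglyMeasurable
    ((aestronglyMeasurable_id (α := Site d → ℝ) (μ := P)).prodMk hψ)

theorem aesm_avP {c : ℝ} (ev : (Site d → ℝ) → UG (L2 (Site d)))
    (hev : ∀ V, IsGrp c V (ev V)) (v : L2 (Site d) →L[ℂ] L2 (Site d)) (N : ℕ)
    (P : Measure (Site d → ℝ)) (ψ : (Site d → ℝ) → L2 (Site d))
    (hψ : AEStronglyMeasurable ψ P) :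
    AEStronglyMeasurable (fun V => avP (ev V) v N (ψ V)) P := by
  unfold avP
  exact (aesm ev hev v N P ψ hψ).const_smul ((N : ℂ)⁻¹)

end FINA

open FINA in
theorem t_FINA (h1 : St_ZAC) (h2 : St_LIM2) : St_FINA := by
  intro d c ev hev ν _ hν j v hv ψ M hψ hM hac
  have : IsProbabilityMeasure (PP d ν) := by unfold PP; infer_instance
  refine tendsto_of_subseq_tendsto ?_
  intro Mk hMk
  obtain ⟨a, ha, hG⟩ := h2 d c ev hev ν j v hv Mk hMk
  have hNk : Tendsto (Mk ∘ a) atTop atTop := hMk.comp ha.tendsto_atTop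
  have hz := h1 d c ev hev ν hν j v hv (Mk ∘ a) hNk hG
  refine ⟨a, ?_⟩
  have key : Tendsto (fun k => ∫⁻ V, ‖avP (ev V) v (Mk (a k)) (ψ V)‖ₑ ^ 2 ∂(PP d ν)) atTop
      (𝓝 (∫⁻ _V, 0 ∂(PP d ν))) := by
    refine tendsto_lintegral_of_dominated_convergence'
      (fun _ => ENNReal.ofReal ((‖v‖ * M) ^ 2)) (fun k => ?_) (fun k => ?_) ?_ ?_
    · exact (aesm_avP ev hev v _ _ ψ hψ).enorm.pow_const 2
    · refine Eventually.of_forall fun V => ?_
      have h3 : ‖avP (ev V) v (Mk (a k)) (ψ V)‖ ≤ ‖v‖ * M := by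
        refine (LIMB.norm_avg _ (‖v‖ * ‖ψ V‖) (fun s => LIMB.norm_P _ v _ _ _) _).trans ?_
        exact mul_le_mul_of_nonneg_left (hM V) (norm_nonneg _)
      show ‖avP (ev V) v (Mk (a k)) (ψ V)‖ₑ ^ 2 ≤ ENNReal.ofReal ((‖v‖ * M) ^ 2)
      rw [← ofReal_norm, ← ENNReal.ofReal_pow (norm_nonneg _)]
      exact ENNReal.ofReal_le_ofReal (pow_le_pow_left₀ (norm_nonneg _) h3 2)
    · rw [lintegral_const]
      simp
    · filter_upwards [hG, hz, hac] with V hV hV2 hV3
      obtain ⟨B, hB⟩ := hV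
      have h4 := (hB (ψ V)).1
      rw [hV2 B hB (ψ V) hV3] at h4
      have h5 := h4.enorm
      rw [enorm_zero] at h5
      have h6 := (ENNReal.continuous_pow 2).tendsto 0 |>.comp h5
      simpa [Function.comp_def] using h6
  simpa using key

end Pool.Agent.H5R2.NBA
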