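import Pool.Agent.H5R2.NBA.Defs
import Pool.Agent.H5R2.NB.UN
import Pool.Agent.H5R2.NB.OPS
import Pool.Agent.H5R2.NB.SYM
import Pool.Agent.H5R2.NB.ANTI

/-! Task KK: complex conjugation on the lattice. -/

set_option autoImplicit false

open MeasureTheory Filter Topology
open scoped BigOperators ENNReal NNReal InnerProductSpace ComplexConjugate

namespace Pool.Agent.H5R2.NBA

open Pool.Agent.H5R2.NB

namespace KK

variable {d : ℕ}

theorem star_U (c : ℝ) (V : Site d → ℝ) (W : UG (L2 (Site d))) (hW : IsGrp c V W) (t : ℝ)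
    (ψ : L2 (Site d)) : star (W.U t ψ) = W.U (-t) (star ψ) := by
  have hsol : IsSol c V (fun s => star (W.U (-s) (star ψ))) (fun _ => 0) := by
    constructor
    · intro T
      exact ⟨‖star ψ‖, fun s _ => by rw [norm_star, W.norm']⟩
    · intro s z
      have h1 := (hW (star ψ)).2 (-s) z
      have h2 : HasDerivAt (fun r : ℝ => (W.U (-r) (star ψ)) z)
          (-(-Complex.I * (hopf c (fun y' => (W.U (-s) (star ψ)) y') z +
            V z * (W.U (-s) (star ψ)) z) + (0 : L2 (Site d)) z)) s := by
        have := h1.scomp s (hasDerivAt_neg s)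
        rw [neg_one_smul] at this
        exact this
      have h3 := h2.star
      simp only [lp.star_apply]
      refine h3.congr_deriv ?_
      simp only [lp.coeFn_zero, Pi.zero_apply, add_zero, neg_mul, neg_neg, star_mul', star_add,
        hopf, star_sum, RCLike.star_def, Complex.conj_I, Complex.conj_ofReal, map_sum, map_mul,
        map_add]
  have h4 := t_UN t_OPS d c V W hW _ (fun _ => 0) continuous_const hsol t
  simp only [neg_zero, W.zero', map_zero, intervalIntegral.integral_zero, add_zero,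
    star_star] at h4
  rw [← h4, star_star]

theorem star_v {c : ℝ} {j : Fin d} {v : L2 (Site d) →L[ℂ] L2 (Site d)} (hv : IsVel c j v)
    (ψ : L2 (Site d)) : star (v ψ) = - v (star ψ) := by
  ext x
  rw [lp.star_apply, hv ψ x, lp.coeFn_neg, Pi.neg_apply, hv (star ψ) x, lp.star_apply,
    lp.star_apply]
  simp only [star_mul', star_sub, RCLike.star_def, Complex.conj_I, Complex.conj_ofReal]
  ring

theorem inner_star_star (x y : L2 (Site d)) : ⟪star x, star y⟫_ℂ = ⟪y, x⟫_ℂ := by
  rw [ANTI.inner_star, lp.inner_eq_tsum]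
  refine tsum_congr fun z => ?_
  rw [lp.coeFn_star, Pi.star_apply, RCLike.inner_apply]
  rfl

theorem star_integral (f : ℝ → L2 (Site d)) (hf : Continuous f) (a b : ℝ) :
    star (∫ s in a..b, f s) = ∫ s in a..b, star (f s) := by
  have hfs : Continuous fun s => star (f s) := hf.star
  ext z
  have e1 : (∫ s in a..b, f s) z = ∫ s in a..b, ⟪(dl z : L2 (Site d)), f s⟫_ℂ := by
    rw [← ANTI.dl_inner z (∫ s in a..b, f s)]
    exact ANTI.inner_integral (dl z) f hf a b
  have e2 : (∫ s in a..b, star (f s)) z =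
      ∫ s in a..b, ⟪(dl z : L2 (Site d)), star (f s)⟫_ℂ := by
    rw [← ANTI.dl_inner z (∫ s in a..b, star (f s))]
    exact ANTI.inner_integral (dl z) _ hfs a b
  rw [lp.star_apply, e1, e2]
  have h1 : Continuous fun s => ⟪(dl z : L2 (Site d)), f s⟫_ℂ := by fun_prop
  have h2 := Complex.conjCLE.toContinuousLinearMap.intervalIntegral_comp_comm
    (h1.intervalIntegrable (μ := volume) a b)
  have h3 : star (∫ s in a..b, ⟪(dl z : L2 (Site d)), f s⟫_ℂ) =
      ∫ s in a..b, star ⟪(dl z : L2 (Site d)), f s⟫_ℂ := h2.symm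
  rw [h3]
  refine intervalIntegral.integral_congr fun s _ => ?_
  show star ⟪(dl z : L2 (Site d)), f s⟫_ℂ = ⟪(dl z : L2 (Site d)), star (f s)⟫_ℂ
  rw [ANTI.dl_inner, ANTI.dl_inner, lp.star_apply]

theorem star_av {c : ℝ} {V : Site d → ℝ} {W : UG (L2 (Site d))} (hW : IsGrp c V W) {j : Fin d}
    {v : L2 (Site d) →L[ℂ] L2 (Site d)} (hv : IsVel c j v) (N : ℕ) (x : L2 (Site d)) :
    star (avP W v N x) = - avM W v N (star x) := by
  unfold avP avM
  have hc : Continuous fun s : ℝ => W.U (-s) (v (W.U s x)) :=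
    ANTI.joint W _ _ continuous_neg (v.continuous.comp (ANTI.joint W _ _ continuous_id
      continuous_const))
  have h1 : star (((N : ℂ)⁻¹) • ∫ s in (0 : ℝ)..(N : ℝ), W.U (-s) (v (W.U s x))) =
      ((N : ℂ)⁻¹) • star (∫ s in (0 : ℝ)..(N : ℝ), W.U (-s) (v (W.U s x))) := by
    rw [star_smul]
    congr 1
    simp
  refine h1.trans ?_
  rw [star_integral _ hc, ← smul_neg, ← intervalIntegral.integral_neg]
  congr 1
  refine intervalIntegral.integral_congr fun s _ => ?_
  show star (W.U (-s) (v (W.U s x))) = -W.U s (v (W.U (-s) (star x)))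
  rw [star_U c V W hW, neg_neg, star_v hv, star_U c V W hW, map_neg]

end KK

open KK in
theorem t_KK : St_KK := by
  intro d c V W hW j v hv Nk hNk B hG
  refine ⟨fun x => star x, inner_star_star, fun x y => star_add x y, fun x => star_star x,
    fun t x => star_U c V W hW t x, fun x => ?_, SYM.star_dl 0⟩
  have h1 : Tendsto (fun k => star (avP W v (Nk k) x)) atTop (𝓝 (star (B x))) :=
    (continuous_star.tendsto _).comp (hG x).1
  have h2 : Tendsto (fun k => - avM W v (Nk k) (star x)) atTop (𝓝 (- B (star x))) :=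
    (hG (star x)).2.neg
  refine tendsto_nhds_unique h1 (h2.congr fun k => ?_)
  rw [star_av hW hv]

end Pool.Agent.H5R2.NBA
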