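import Pool.Agent.H5R2.NBA.Defs
import Pool.Agent.H5R2.NB.ALL

/-! # LIM2: subsequences -/

set_option autoImplicit false

open MeasureTheory Filter Topology
open scoped BigOperators ENNReal NNReal InnerProductSpace ComplexConjugate

namespace Pool.Agent.H5R2.NBA

open Pool.Agent.H5R2.NB

open LIMB in
theorem t_LIM2 : St_LIM2 := by
  intro d c ev hev ν _ j v hv M hMt
  have h2 : St_COV := ALL.a_COV
  have h3 : St_RES := t_RES
  have h4 : St_CV := ALL.a_CV
  have h5 : St_OPS := t_OPS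
  obtain ⟨b, hb, hP0, hM0⟩ := (t_LIMA (t_STAT ALL.a_COV ALL.a_CV t_RES t_OPS) t_ME ALL.a_CV)
    d c ev hev ν j v hv
  have hP := hP0.comp hMt
  have hM := hM0.comp hMt
  have hfP : ∀ N, AEMeasurable (fun V => ‖avP (ev V) v N (dl 0) - b V‖ₑ ^ 2) (PP d ν) := fun N =>
    (((cont_avP ev h4 hev v N).aestronglyMeasurable).sub hb).enorm.pow_const 2
  have hfM : ∀ N, AEMeasurable (fun V => ‖avM (ev V) v N (dl 0) - b V‖ₑ ^ 2) (PP d ν) := fun N =>
    (((cont_avM ev h4 hev v N).aestronglyMeasurable).sub hb).enorm.pow_const 2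
  have hPM := hP.add hM
  rw [add_zero] at hPM
  obtain ⟨a, hmono, hNk⟩ := extraction_forall_of_eventually
    (P := fun n k => (∫⁻ V, ‖avP (ev V) v (M k) (dl 0) - b V‖ₑ ^ 2 ∂(PP d ν)) +
      (∫⁻ V, ‖avM (ev V) v (M k) (dl 0) - b V‖ₑ ^ 2 ∂(PP d ν)) < (2⁻¹ : ℝ≥0∞) ^ n)
    (fun n => (tendsto_order.1 hPM).2 _ (by
      refine ENNReal.pow_pos ?_ n
      simp))
  refine ⟨a, hmono, ?_⟩
  set Nk : ℕ → ℕ := M ∘ a with hNkdef
  -- almost sure convergence at the origin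
  have hfS : ∀ n, AEMeasurable (fun V => ‖avP (ev V) v (Nk n) (dl 0) - b V‖ₑ ^ 2 +
      ‖avM (ev V) v (Nk n) (dl 0) - b V‖ₑ ^ 2) (PP d ν) := fun n =>
    (hfP (Nk n)).add (hfM (Nk n))
  have hsum : ∫⁻ V, ∑' n, (‖avP (ev V) v (Nk n) (dl 0) - b V‖ₑ ^ 2 +
      ‖avM (ev V) v (Nk n) (dl 0) - b V‖ₑ ^ 2) ∂(PP d ν) ≠ ∞ := by
    rw [lintegral_tsum hfS]
    have hle : ∑' n, ∫⁻ V, (‖avP (ev V) v (Nk n) (dl 0) - b V‖ₑ ^ 2 +
        ‖avM (ev V) v (Nk n) (dl 0) - b V‖ₑ ^ 2) ∂(PP d ν) ≤ ∑' n : ℕ, (2⁻¹ : ℝ≥0∞) ^ n := by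
      refine ENNReal.tsum_le_tsum fun n => ?_
      rw [lintegral_add_left' (hfP (Nk n))]
      exact (hNk n).le
    refine ne_top_of_le_ne_top ?_ hle
    rw [ENNReal.tsum_geometric]
    simp
  have hae := ae_lt_top' (AEMeasurable.tsum hfS) hsum
  have hG : ∀ᵐ V ∂(PP d ν), Tendsto (fun n => avP (ev V) v (Nk n) (dl 0)) atTop (𝓝 (b V)) ∧
      Tendsto (fun n => avM (ev V) v (Nk n) (dl 0)) atTop (𝓝 (b V)) := by
    filter_upwards [hae] with V hV
    have h0 := ENNReal.tendsto_atTop_zero_of_tsum_ne_top hV.ne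
    constructor
    · refine tendsto_of_enorm_sq (tendsto_of_tendsto_of_tendsto_of_le_of_le tendsto_const_nhds h0
        (fun _ => zero_le) fun n => ?_)
      exact le_self_add
    · refine tendsto_of_enorm_sq (tendsto_of_tendsto_of_tendsto_of_le_of_le tendsto_const_nhds h0
        (fun _ => zero_le) fun n => ?_)
      exact le_add_self
  have hGz : ∀ᵐ V ∂(PP d ν), ∀ z : Site d,
      Tendsto (fun n => avP (ev fun y => V (y + z)) v (Nk n) (dl 0)) atTop
        (𝓝 (b fun y => V (y + z))) ∧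
      Tendsto (fun n => avM (ev fun y => V (y + z)) v (Nk n) (dl 0)) atTop
        (𝓝 (b fun y => V (y + z))) := by
    rw [ae_all_iff]
    intro z
    exact ((h3 d ν).2 z).quasiMeasurePreserving.ae hG
  filter_upwards [hGz] with V hV
  obtain ⟨B, hB⟩ := ext_lim (fun k => PL (ev V) v (Nk k)) (fun k => ML (ev V) v (Nk k)) ‖v‖
    (norm_nonneg _) (fun k => norm_PL (ev V) v (Nk k)) (fun k => norm_ML (ev V) v (Nk k))
    (Site d) dl (dl_dense d) (fun z => by
      obtain ⟨S, hS⟩ := (h5 d).1 (-z)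
      refine ⟨S (b fun y => V (y + z)), ?_, ?_⟩
      · have := (S.continuous.tendsto _).comp (hV z).1
        refine this.congr fun k => ?_
        rw [PL_apply, avP_shift ev h2 hev hv hS]
        rfl
      · have := (S.continuous.tendsto _).comp (hV z).2
        refine this.congr fun k => ?_
        rw [ML_apply, avM_shift ev h2 hev hv hS]
        rfl)
  exact ⟨B, hB⟩

end Pool.Agent.H5R2.NBA
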