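import Pool.Agent.H5R2.NBA.Defs
import Pool.Agent.H5R2.NB.NN

set_option autoImplicit false

open MeasureTheory Filter Topology
open scoped BigOperators ENNReal NNReal InnerProductSpace ComplexConjugate

namespace Pool.Agent.H5R2.NBA

open Pool.Agent.H5R2.NB

variable {ι : Type}

theorem pr_cont (W : UG (L2 ι)) (φ ψ : L2 ι) : Continuous fun t : ℝ => ⟪φ, W.U t ψ⟫_ℂ :=
  continuous_const.inner (W.cont' ψ)

theorem pr_mono {W : UG (L2 ι)} {C C' : ℝ} {ψ : L2 ι} (h : Minf W C ψ) (hC : C ≤ C') :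
    Minf W C' ψ := by
  intro φ
  refine (h φ).trans (ENNReal.ofReal_le_ofReal ?_)
  exact mul_le_mul_of_nonneg_right hC (sq_nonneg _)

theorem pr_zero (W : UG (L2 ι)) : Minf W 0 (0 : L2 ι) := by
  intro φ
  simp

theorem pr_sq_le (a b : ℂ) : ‖a + b‖ₑ ^ 2 ≤ 2 * ‖a‖ₑ ^ 2 + 2 * ‖b‖ₑ ^ 2 := by
  have h : ‖a + b‖ ^ 2 ≤ 2 * ‖a‖ ^ 2 + 2 * ‖b‖ ^ 2 := by
    have h1 := norm_add_le a b
    have h2 : ‖a + b‖ ^ 2 ≤ (‖a‖ + ‖b‖) ^ 2 := pow_le_pow_left₀ (norm_nonneg _) h1 2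
    nlinarith [sq_nonneg (‖a‖ - ‖b‖)]
  have e : ∀ z : ℂ, ‖z‖ₑ ^ 2 = ENNReal.ofReal (‖z‖ ^ 2) := by
    intro z
    rw [← ofReal_norm, ENNReal.ofReal_pow (norm_nonneg _)]
  rw [e, e, e]
  have e2 : ∀ x : ℝ, 2 * ENNReal.ofReal x = ENNReal.ofReal (2 * x) := by
    intro x
    rw [ENNReal.ofReal_mul (by norm_num)]
    simp
  rw [e2, e2, ← ENNReal.ofReal_add (by positivity) (by positivity)]
  exact ENNReal.ofReal_le_ofReal h

theorem pr_add {W : UG (L2 ι)} {C D : ℝ} {ψ χ : L2 ι} (hC : 0 ≤ C) (hD : 0 ≤ D)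
    (h1 : Minf W C ψ) (h2 : Minf W D χ) : Minf W (2 * C + 2 * D) (ψ + χ) := by
  intro φ
  have e2 : ∀ x : ℝ, 2 * ENNReal.ofReal x = ENNReal.ofReal (2 * x) := by
    intro x
    rw [ENNReal.ofReal_mul (by norm_num)]
    simp
  calc ∫⁻ t : ℝ, ‖⟪φ, W.U t (ψ + χ)⟫_ℂ‖ₑ ^ 2
      ≤ ∫⁻ t : ℝ, (2 * ‖⟪φ, W.U t ψ⟫_ℂ‖ₑ ^ 2 + 2 * ‖⟪φ, W.U t χ⟫_ℂ‖ₑ ^ 2) := by
        apply lintegral_mono
        intro t
        simp only
        rw [map_add, inner_add_right]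
        exact pr_sq_le _ _
    _ = 2 * (∫⁻ t : ℝ, ‖⟪φ, W.U t ψ⟫_ℂ‖ₑ ^ 2) + 2 * (∫⁻ t : ℝ, ‖⟪φ, W.U t χ⟫_ℂ‖ₑ ^ 2) := by
        rw [lintegral_add_left, lintegral_const_mul, lintegral_const_mul]
        · exact (pr_cont W φ χ).measurable.enorm.pow_const 2
        · exact (pr_cont W φ ψ).measurable.enorm.pow_const 2
        · exact ((pr_cont W φ ψ).measurable.enorm.pow_const 2).const_mul 2
    _ ≤ 2 * ENNReal.ofReal (C * ‖φ‖ ^ 2) + 2 * ENNReal.ofReal (D * ‖φ‖ ^ 2) := by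
        gcongr
        · exact h1 φ
        · exact h2 φ
    _ = ENNReal.ofReal ((2 * C + 2 * D) * ‖φ‖ ^ 2) := by
        rw [e2, e2, ← ENNReal.ofReal_add (by positivity) (by positivity)]
        congr 1
        ring

theorem pr_smul {W : UG (L2 ι)} {C : ℝ} {ψ : L2 ι} (c : ℂ) (h1 : Minf W C ψ) :
    Minf W (‖c‖ ^ 2 * C) (c • ψ) := by
  intro φ
  have e : ∀ z : ℂ, ‖z‖ₑ ^ 2 = ENNReal.ofReal (‖z‖ ^ 2) := by
    intro z
    rw [← ofReal_norm, ENNReal.ofReal_pow (norm_nonneg _)]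
  calc ∫⁻ t : ℝ, ‖⟪φ, W.U t (c • ψ)⟫_ℂ‖ₑ ^ 2
      = ∫⁻ t : ℝ, ENNReal.ofReal (‖c‖ ^ 2) * ‖⟪φ, W.U t ψ⟫_ℂ‖ₑ ^ 2 := by
        apply lintegral_congr
        intro t
        rw [map_smul, inner_smul_right, enorm_mul, mul_pow, e c]
    _ = ENNReal.ofReal (‖c‖ ^ 2) * ∫⁻ t : ℝ, ‖⟪φ, W.U t ψ⟫_ℂ‖ₑ ^ 2 := by
        rw [lintegral_const_mul]
        exact (pr_cont W φ ψ).measurable.enorm.pow_const 2
    _ ≤ ENNReal.ofReal (‖c‖ ^ 2) * ENNReal.ofReal (C * ‖φ‖ ^ 2) := by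
        gcongr
        exact h1 φ
    _ = ENNReal.ofReal (‖c‖ ^ 2 * C * ‖φ‖ ^ 2) := by
        rw [← ENNReal.ofReal_mul (by positivity)]
        congr 1
        ring

/-- the subspace of vectors of bounded spectral density -/
def prS (W : UG (L2 ι)) : Submodule ℂ (L2 ι) where
  carrier := {ψ | ∃ C : ℝ, Minf W C ψ}
  zero_mem' := ⟨0, pr_zero W⟩
  add_mem' := by
    rintro a b ⟨C, hC⟩ ⟨D, hD⟩
    exact ⟨_, pr_add (le_max_right C 0) (le_max_right D 0) (pr_mono hC (le_max_left C 0))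
      (pr_mono hD (le_max_left D 0))⟩
  smul_mem' := by
    rintro c a ⟨C, hC⟩
    exact ⟨_, pr_smul c hC⟩

theorem pr_mem_HAC (W : UG (L2 ι)) (x : L2 ι) :
    x ∈ HAC W ↔ x ∈ (prS W).topologicalClosure := by
  rw [← SetLike.mem_coe, Submodule.topologicalClosure_coe]
  rfl

theorem pr_transl {W : UG (L2 ι)} {C : ℝ} {ψ : L2 ι} (τ : ℝ) (h : Minf W C ψ) :
    Minf W C (W.U τ ψ) := by
  intro φ
  refine le_of_eq_of_le ?_ (h φ)
  have : ∀ t : ℝ, ‖⟪φ, W.U t (W.U τ ψ)⟫_ℂ‖ₑ ^ 2 =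
      (fun s : ℝ => ‖⟪φ, W.U s ψ⟫_ℂ‖ₑ ^ 2) (t + τ) := by
    intro t
    simp only
    rw [W.add']
  rw [lintegral_congr this]
  exact lintegral_add_right_eq_self (fun s : ℝ => ‖⟪φ, W.U s ψ⟫_ℂ‖ₑ ^ 2) τ

theorem pr_B {W : UG (L2 ι)} {C : ℝ} (hC0 : 0 ≤ C) {ψ : L2 ι} (B : L2 ι →L[ℂ] L2 ι)
    (hB : ∀ x y, ⟪B x, y⟫_ℂ = ⟪x, B y⟫_ℂ) (hBU : ∀ t x, B (W.U t x) = W.U t (B x))
    (h : Minf W C ψ) : Minf W (C * ‖B‖ ^ 2) (B ψ) := by
  intro φ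
  have e : ∀ t : ℝ, ‖⟪φ, W.U t (B ψ)⟫_ℂ‖ₑ ^ 2 = ‖⟪B φ, W.U t ψ⟫_ℂ‖ₑ ^ 2 := by
    intro t
    rw [← hBU, hB]
  rw [lintegral_congr e]
  refine (h (B φ)).trans (ENNReal.ofReal_le_ofReal ?_)
  have h1 : ‖B φ‖ ≤ ‖B‖ * ‖φ‖ := B.le_opNorm φ
  have h2 : ‖B φ‖ ^ 2 ≤ (‖B‖ * ‖φ‖) ^ 2 := pow_le_pow_left₀ (norm_nonneg _) h1 2
  calc C * ‖B φ‖ ^ 2 ≤ C * (‖B‖ * ‖φ‖) ^ 2 := mul_le_mul_of_nonneg_left h2 hC0
    _ = C * ‖B‖ ^ 2 * ‖φ‖ ^ 2 := by ring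

theorem pr_Knorm {K : L2 ι → L2 ι} (h1 : ∀ x y, ⟪K x, K y⟫_ℂ = ⟪y, x⟫_ℂ) (x : L2 ι) :
    ‖K x‖ = ‖x‖ := by
  have h : ‖K x‖ ^ 2 = ‖x‖ ^ 2 := by
    rw [← @inner_self_eq_norm_sq ℂ, ← @inner_self_eq_norm_sq ℂ, h1]
  exact (sq_eq_sq₀ (norm_nonneg _) (norm_nonneg _)).1 h

theorem pr_K {W : UG (L2 ι)} {C : ℝ} {ψ : L2 ι} {K : L2 ι → L2 ι}
    (h1 : ∀ x y, ⟪K x, K y⟫_ℂ = ⟪y, x⟫_ℂ) (h3 : ∀ x, K (K x) = x)
    (h4 : ∀ t x, K (W.U t x) = W.U (-t) (K x)) (h : Minf W C ψ) : Minf W C (K ψ) := by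
  intro φ
  have e : ∀ t : ℝ, ‖⟪φ, W.U t (K ψ)⟫_ℂ‖ₑ ^ 2 =
      (fun s : ℝ => ‖⟪K φ, W.U s ψ⟫_ℂ‖ₑ ^ 2) (-t) := by
    intro t
    have h5 : W.U t (K ψ) = K (W.U (-t) ψ) := by rw [h4, neg_neg]
    have h6 : ⟪φ, W.U t (K ψ)⟫_ℂ = ⟪W.U (-t) ψ, K φ⟫_ℂ := by
      rw [h5]
      conv_lhs => rw [← h3 φ]
      rw [h1]
    simp only
    rw [h6, ← inner_conj_symm, RCLike.enorm_conj]
  rw [lintegral_congr e, lintegral_neg_eq_self (fun s : ℝ => ‖⟪K φ, W.U s ψ⟫_ℂ‖ₑ ^ 2)]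
  have := h (K φ)
  rwa [pr_Knorm h1] at this

/-- an additive map which preserves a subspace and its complement commutes with the projection -/
theorem pr_comm (S : Submodule ℂ (L2 ι)) [S.HasOrthogonalProjection] (T : L2 ι → L2 ι)
    (hadd : ∀ x y, T (x + y) = T x + T y) (hS : ∀ x ∈ S, T x ∈ S) (hS' : ∀ x ∈ Sᗮ, T x ∈ Sᗮ)
    (x : L2 ι) : S.starProjection (T x) = T (S.starProjection x) := by
  apply Submodule.eq_starProjection_of_mem_orthogonal'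
    (z := T (x - S.starProjection x)) (hS _ (Submodule.starProjection_apply_mem S x))
    (hS' _ (Submodule.sub_starProjection_mem_orthogonal x))
  rw [← hadd]
  congr 1
  abel

theorem t_PR : St_PR := by
  intro ι W
  set S := (prS W).topologicalClosure with hSdef
  have : CompleteSpace S := (Submodule.isClosed_topologicalClosure _).completeSpace_coe
  have hclos : ∀ (T : L2 ι → L2 ι), Continuous T → (∀ x ∈ prS W, T x ∈ prS W) →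
      ∀ x ∈ S, T x ∈ S := by
    intro T hT h x hx
    rw [hSdef, ← SetLike.mem_coe, Submodule.topologicalClosure_coe] at hx ⊢
    exact map_mem_closure hT hx h
  refine ⟨S.starProjection, ?_, ?_, ?_, ?_, ?_, ?_⟩
  · intro x
    rw [pr_mem_HAC]
    exact Submodule.starProjection_apply_mem S x
  · intro x hx
    rw [pr_mem_HAC] at hx
    exact Submodule.starProjection_eq_self_iff.2 hx
  · intro x y
    exact Submodule.inner_starProjection_left_eq_right S x y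
  · intro t x
    have hU : ∀ τ : ℝ, ∀ x ∈ S, W.U τ x ∈ S := by
      intro τ
      apply hclos (fun x => W.U τ x) (W.U τ).continuous
      rintro y ⟨C, hC⟩
      exact ⟨C, pr_transl τ hC⟩
    apply pr_comm S (fun x => W.U t x) (fun x y => map_add _ x y) (hU t)
    intro z hz
    rw [Submodule.mem_orthogonal] at hz ⊢
    intro y hy
    have := hz (W.U (-t) y) (hU (-t) y hy)
    rwa [NN.inner_adj, neg_neg] at this
  · intro B hB hBU x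
    have hBS : ∀ x ∈ S, B x ∈ S := by
      apply hclos (fun x => B x) B.continuous
      rintro y ⟨C, hC⟩
      exact ⟨_, pr_B (le_max_right C 0) B hB hBU (pr_mono hC (le_max_left C 0))⟩
    apply pr_comm S (fun x => B x) (fun x y => map_add _ x y) hBS
    intro z hz
    rw [Submodule.mem_orthogonal] at hz ⊢
    intro y hy
    rw [← hB]
    exact hz _ (hBS y hy)
  · intro K h1 h2 h3 h4 x
    have hsub : ∀ x y, K (x - y) = K x - K y := by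
      intro x y
      have := h2 (x - y) y
      rw [sub_add_cancel] at this
      rw [this]; abel
    have hKc : Continuous K := by
      have : Isometry K := by
        apply Isometry.of_dist_eq
        intro x y
        rw [dist_eq_norm, dist_eq_norm, ← hsub, pr_Knorm h1]
      exact this.continuous
    have hKS : ∀ x ∈ S, K x ∈ S := by
      apply hclos K hKc
      rintro y ⟨C, hC⟩
      exact ⟨C, pr_K h1 h3 h4 hC⟩
    apply pr_comm S K h2 hKS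
    intro z hz
    rw [Submodule.mem_orthogonal] at hz ⊢
    intro y hy
    have h5 := hz (K y) (hKS y hy)
    have h6 : ⟪y, K z⟫_ℂ = ⟪z, K y⟫_ℂ := by
      conv_lhs => rw [← h3 y]
      rw [h1]
    rw [h6, ← inner_conj_symm, h5, map_zero]

end Pool.Agent.H5R2.NBA
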