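import Pool.Agent.H5R2.NBA.Defs
import Pool.Agent.H5R2.NB.NN

/-! # QN: density in the orthogonal complement of the cyclic space -/

set_option autoImplicit false

open MeasureTheory Filter Topology
open scoped BigOperators ENNReal NNReal InnerProductSpace ComplexConjugate

namespace Pool.Agent.H5R2.NBA

open Pool.Agent.H5R2.NB

namespace QN

variable {X : Type} [NormedAddCommGroup X] [InnerProductSpace ℂ X]

/-- the orthogonal complement of the cyclic space of `e` -/
noncomputable def cyc (W : UG X) (e : X) : Submodule ℂ X :=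
  (Submodule.span ℂ (Set.range fun t : ℝ => W.U t e))ᗮ

theorem mem_cyc (W : UG X) (e x : X) : x ∈ cyc W e ↔ ∀ t, ⟪x, W.U t e⟫_ℂ = 0 := by
  unfold cyc
  rw [Submodule.mem_orthogonal']
  constructor
  · intro h t
    exact h _ (Submodule.subset_span ⟨t, rfl⟩)
  · intro h u hu
    induction hu using Submodule.span_induction with
    | mem y hy =>
      obtain ⟨t, rfl⟩ := hy
      exact h t
    | zero => rw [inner_zero_right]
    | add y z _ _ hy hz => rw [inner_add_right, hy, hz, add_zero]
    | smul a y _ hy => rw [inner_smul_right, hy, mul_zero]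

theorem cyc_inv (W : UG X) (e x : X) (s : ℝ) (hx : x ∈ cyc W e) : W.U s x ∈ cyc W e := by
  rw [mem_cyc] at hx ⊢
  intro t
  rw [NN.inner_adj, ← W.add']
  exact hx _

instance instProj [CompleteSpace X] (W : UG X) (e : X) : (cyc W e).HasOrthogonalProjection := by
  have : CompleteSpace (cyc W e) :=
    (Submodule.isClosed_orthogonal (Submodule.span ℂ (Set.range fun t : ℝ => W.U t e))
      ).completeSpace_coe
  infer_instance

theorem proj_comm [CompleteSpace X] (W : UG X) (e x : X) (s : ℝ) :
    (cyc W e).starProjection (W.U s x) = W.U s ((cyc W e).starProjection x) := by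
  apply Submodule.eq_starProjection_of_mem_of_inner_eq_zero
  · exact cyc_inv W e _ s (Submodule.starProjection_apply_mem _ x)
  · intro w hw
    rw [← map_sub, NN.inner_adj]
    exact Submodule.starProjection_inner_eq_zero _ _ (cyc_inv W e _ _ hw)

end QN

theorem t_QN : St_QN := by
  intro ι W e φ hφ hφe ε hε
  obtain ⟨ψ, ⟨C, hC⟩, hd⟩ := Metric.mem_closure_iff.1 hφ ε hε
  rw [dist_eq_norm] at hd
  have hmem : φ ∈ QN.cyc W e := (QN.mem_cyc W e φ).2 hφe
  refine ⟨C, (QN.cyc W e).starProjection ψ, ?_, ?_, ?_⟩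
  · intro χ
    have h1 : ∀ t : ℝ, ⟪χ, W.U t ((QN.cyc W e).starProjection ψ)⟫_ℂ =
        ⟪(QN.cyc W e).starProjection χ, W.U t ψ⟫_ℂ := by
      intro t
      rw [← QN.proj_comm, Submodule.inner_starProjection_left_eq_right]
    simp only [h1]
    refine le_trans (hC _) ?_
    rcases le_or_gt 0 C with h0 | h0
    · apply ENNReal.ofReal_le_ofReal
      apply mul_le_mul_of_nonneg_left _ h0
      exact pow_le_pow_left₀ (norm_nonneg _) (Submodule.norm_starProjection_apply_le _ _) 2
    · rw [ENNReal.ofReal_of_nonpos (mul_nonpos_of_nonpos_of_nonneg h0.le (sq_nonneg _))]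
      exact zero_le
  · exact (QN.mem_cyc W e _).1 (Submodule.starProjection_apply_mem _ _)
  · have h2 : φ = (QN.cyc W e).starProjection φ :=
      (Submodule.starProjection_eq_self_iff.2 hmem).symm
    calc ‖φ - (QN.cyc W e).starProjection ψ‖
        = ‖(QN.cyc W e).starProjection (φ - ψ)‖ := by rw [map_sub, ← h2]
      _ ≤ ‖φ - ψ‖ := Submodule.norm_starProjection_apply_le _ _
      _ ≤ ε := hd.le

end Pool.Agent.H5R2.NBA
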