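import Pool.Agent.H5R2.NBA.Defs
import Pool.Agent.H5R2.NB.NN
import Pool.Agent.Helper76.HPlanch

/-! # Vectors with absolutely continuous spectral measure -/

set_option autoImplicit false

open MeasureTheory Filter Topology FourierTransform
open scoped BigOperators ENNReal NNReal InnerProductSpace ComplexConjugate SchwartzMap

namespace Pool.Agent.H5R2.NBA

open Pool.Agent.H5R2.NB

namespace SPEC

/-- extension of an isometry from a total family -/
theorem iso {E F : Type} [NormedAddCommGroup E] [InnerProductSpace ℂ E] [CompleteSpace E]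
    [NormedAddCommGroup F] [InnerProductSpace ℂ F] [CompleteSpace F] (x : ℝ → E) (y : ℝ → F)
    (hG : ∀ s t, ⟪x s, x t⟫_ℂ = ⟪y s, y t⟫_ℂ)
    (hd : (Submodule.span ℂ (Set.range x)).topologicalClosure = ⊤) :
    ∃ J : E →L[ℂ] F, (∀ t, J (x t) = y t) ∧ ∀ u, ‖J u‖ = ‖u‖ := by
  set L := Finsupp.linearCombination ℂ x with hL
  set M := Finsupp.linearCombination ℂ y with hM
  have hn : ∀ c, ‖M c‖ = ‖L c‖ := by
    intro c
    have h1 : ⟪M c, M c⟫_ℂ = ⟪L c, L c⟫_ℂ := by
      rw [hL, hM, Finsupp.linearCombination_apply, Finsupp.linearCombination_apply,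
        Finsupp.sum, Finsupp.sum]
      simp only [sum_inner, inner_sum, inner_smul_left, inner_smul_right, hG]
    have h2 : ‖M c‖ ^ 2 = ‖L c‖ ^ 2 := by
      rw [← @inner_self_eq_norm_sq ℂ, ← @inner_self_eq_norm_sq ℂ, h1]
    exact (sq_eq_sq₀ (norm_nonneg _) (norm_nonneg _)).1 h2
  have hdense : DenseRange L := by
    intro u
    have h1 : u ∈ (Submodule.span ℂ (Set.range x)).topologicalClosure := by
      rw [hd]; trivial
    rw [← Finsupp.range_linearCombination, ← SetLike.mem_coe,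
      Submodule.topologicalClosure_coe] at h1
    exact h1
  have hb : ∃ C : ℝ, ∀ c, ‖M c‖ ≤ C * ‖L c‖ := ⟨1, fun c => by rw [hn, one_mul]⟩
  have hJ : ∀ c, M.extendOfNorm L (L c) = M c := fun c => LinearMap.extendOfNorm_eq hdense hb c
  refine ⟨M.extendOfNorm L, fun t => ?_, fun u => ?_⟩
  · have h1 := hJ (Finsupp.single t 1)
    rw [hL, hM, Finsupp.linearCombination_single, Finsupp.linearCombination_single,
      one_smul, one_smul] at h1
    exact h1
  · refine hdense.induction_on (p := fun u => ‖M.extendOfNorm L u‖ = ‖u‖) u ?_ ?_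
    · exact isClosed_eq (M.extendOfNorm L).continuous.norm continuous_norm
    · intro c
      rw [hJ, hn]

/-- the exponentials -/
noncomputable def ee (t : ℝ) (E : ℝ) : ℂ := Complex.exp (-(Complex.I * t * E))

theorem ee_norm (t E : ℝ) : ‖ee t E‖ = 1 := by
  rw [ee, Complex.norm_exp]
  simp

theorem ee_cont (t : ℝ) : Continuous (ee t) := by
  unfold ee
  fun_prop

theorem ee_conj (t E : ℝ) : conj (ee t E) = ee (-t) E := by
  rw [ee, ee, ← Complex.exp_conj]
  congr 1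
  simp

theorem ee_mul (s t E : ℝ) : ee s E * ee t E = ee (s + t) E := by
  rw [ee, ee, ee, ← Complex.exp_add]
  congr 1
  push_cast
  ring

theorem ee_memLp (μ : Measure ℝ) [IsFiniteMeasure μ] (t : ℝ) : MemLp (ee t) 2 μ :=
  MemLp.of_bound (ee_cont t).aestronglyMeasurable 1
    (Eventually.of_forall fun E => (ee_norm t E).le)

/-- the exponentials as elements of `L²(μ)` -/
noncomputable def xx (μ : Measure ℝ) [IsFiniteMeasure μ] (t : ℝ) : Lp ℂ 2 μ :=
  (ee_memLp μ t).toLp (ee t)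

theorem xx_ae (μ : Measure ℝ) [IsFiniteMeasure μ] (t : ℝ) : xx μ t =ᵐ[μ] ee t :=
  (ee_memLp μ t).coeFn_toLp

theorem inner_xx (μ : Measure ℝ) [IsFiniteMeasure μ] (t : ℝ) (f : Lp ℂ 2 μ) :
    ⟪xx μ t, f⟫_ℂ = ∫ E, ee (-t) E * f E ∂μ := by
  rw [L2.inner_def]
  refine integral_congr_ae ?_
  filter_upwards [xx_ae μ t] with E hE
  rw [hE, RCLike.inner_apply, ee_conj, mul_comm]

theorem gram (μ : Measure ℝ) [IsFiniteMeasure μ] (s t : ℝ) :
    ⟪xx μ s, xx μ t⟫_ℂ = ∫ E, ee (t - s) E ∂μ := by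
  rw [inner_xx]
  refine integral_congr_ae ?_
  filter_upwards [xx_ae μ t] with E hE
  rw [hE, ee_mul]
  congr 1
  ring

/-- an element of `L²(μ)` orthogonal to the exponentials vanishes -/
theorem orth (μ : Measure ℝ) [IsFiniteMeasure μ] (f : Lp ℂ 2 μ)
    (hf : ∀ t, ⟪xx μ t, f⟫_ℂ = 0) : f = 0 := by
  have hfi : Integrable f μ := (Lp.memLp f).integrable (by norm_num)
  have hS : ∀ G : 𝓢(ℝ, ℂ), ⟪(G.toLp 2 μ : Lp ℂ 2 μ), f⟫_ℂ = 0 := by
    intro G
    obtain ⟨h, hh⟩ : ∃ h : 𝓢(ℝ, ℂ), 𝓕 h = G := ⟨𝓕⁻ G, by simp⟩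
    have hG : ∀ E : ℝ, G E = ∫ t : ℝ, ee (2 * Real.pi * t) E * h t := by
      intro E
      have h1 : G E = 𝓕 (h : ℝ → ℂ) E := by
        rw [← hh]
        rfl
      rw [h1, Real.fourier_real_eq_integral_exp_smul]
      refine integral_congr_ae (Eventually.of_forall fun t => ?_)
      simp only [smul_eq_mul]
      congr 1
      rw [ee]
      congr 1
      push_cast
      ring
    have hconj : ∀ E : ℝ, conj (G E) = ∫ t : ℝ, ee (-(2 * Real.pi * t)) E * conj (h t) := by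
      intro E
      rw [hG, ← integral_conj]
      refine integral_congr_ae (Eventually.of_forall fun t => ?_)
      simp only [map_mul, ee_conj]
    rw [L2.inner_def]
    have h2 : ∫ E, ⟪(G.toLp 2 μ : Lp ℂ 2 μ) E, f E⟫_ℂ ∂μ =
        ∫ E, (∫ t : ℝ, ee (-(2 * Real.pi * t)) E * conj (h t) * f E) ∂μ := by
      refine integral_congr_ae ?_
      filter_upwards [G.coeFn_toLp 2 μ] with E hE
      rw [hE, RCLike.inner_apply, hconj, mul_comm, ← integral_mul_const]
    rw [h2, integral_integral_swap]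
    · have h3 : ∀ t : ℝ, ∫ E, ee (-(2 * Real.pi * t)) E * conj (h t) * f E ∂μ = 0 := by
        intro t
        have h4 : ∫ E, ee (-(2 * Real.pi * t)) E * conj (h t) * f E ∂μ =
            conj (h t) * ⟪xx μ (2 * Real.pi * t), f⟫_ℂ := by
          rw [inner_xx, ← integral_const_mul]
          refine integral_congr_ae (Eventually.of_forall fun E => ?_)
          ring
        rw [h4, hf, mul_zero]
      simp [h3]
    · have h5 : Integrable (fun z : ℝ × ℝ => f z.1 * conj (h z.2)) (μ.prod volume) :=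
        hfi.mul_prod (g := fun t => conj (h t)) (by
          have := h.integrable (μ := volume)
          exact (RCLike.conjCLE (K := ℂ)).toContinuousLinearMap.integrable_comp this)
      refine h5.mono ?_ (Eventually.of_forall fun z => ?_)
      · refine AEStronglyMeasurable.mul (AEStronglyMeasurable.mul ?_ ?_) ?_
        · refine Continuous.aestronglyMeasurable ?_
          unfold ee
          fun_prop
        · refine Continuous.aestronglyMeasurable ?_
          exact RCLike.continuous_conj.comp (h.continuous.comp continuous_snd)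
        · exact (Lp.stronglyMeasurable f).aestronglyMeasurable.comp_fst
      · simp only [Function.uncurry]
        rw [norm_mul, norm_mul, ee_norm, one_mul, norm_mul, mul_comm]
  have hall : ∀ u : Lp ℂ 2 μ, ⟪u, f⟫_ℂ = 0 := by
    intro u
    refine (SchwartzMap.denseRange_toLpCLM (E := ℝ) (F := ℂ) (p := 2) (μ := μ)
      (by norm_num)).induction_on (p := fun u => ⟪u, f⟫_ℂ = 0) u ?_ ?_
    · exact isClosed_eq (continuous_id.inner continuous_const) continuous_const
    · intro G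
      exact hS G
  exact inner_self_eq_zero.1 (hall f)

theorem dense (μ : Measure ℝ) [IsFiniteMeasure μ] :
    (Submodule.span ℂ (Set.range (xx μ))).topologicalClosure = ⊤ := by
  rw [Submodule.topologicalClosure_eq_top_iff, Submodule.eq_bot_iff]
  intro f hf
  refine orth μ f fun t => ?_
  exact (Submodule.mem_orthogonal _ f).1 hf _ (Submodule.subset_span ⟨t, rfl⟩)

theorem lintegral_scale (F : ℝ → ℝ≥0∞) (hF : Measurable F) (a : ℝ) (ha : 0 < a) :
    ∫⁻ t : ℝ, F (t * a) = ENNReal.ofReal a⁻¹ * ∫⁻ t : ℝ, F t := by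
  have h1 : ∫⁻ t : ℝ, F t = ENNReal.ofReal a * ∫⁻ t : ℝ, F (t * a) := by
    conv_lhs => rw [← Real.smul_map_volume_mul_right ha.ne']
    rw [lintegral_smul_measure, lintegral_map hF (measurable_mul_const a), abs_of_pos ha,
      smul_eq_mul]
  rw [h1, ← mul_assoc, ← ENNReal.ofReal_mul (by positivity), inv_mul_cancel₀ ha.ne',
    ENNReal.ofReal_one, one_mul]

/-- the vector of `L²(μ)` representing `U_{-t} φ` -/
theorem adj_eq {ι : Type} (W : UG (L2 ι)) (ψ φ : L2 ι) (μ : Measure ℝ) [IsFiniteMeasure μ]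
    (J : Lp ℂ 2 μ →L[ℂ] L2 ι) (hJ : ∀ t, J (xx μ t) = W.U t ψ) (t : ℝ) :
    (J.adjoint (W.U (-t) φ) : Lp ℂ 2 μ) =ᵐ[μ] fun E => ee (-t) E * (J.adjoint φ) E := by
  have hm : MemLp (fun E => ee (-t) E * (J.adjoint φ : Lp ℂ 2 μ) E) 2 μ := by
    refine (Lp.memLp (J.adjoint φ)).of_le ?_ (Eventually.of_forall fun E => ?_)
    · exact (ee_cont (-t)).aestronglyMeasurable.mul (Lp.aestronglyMeasurable _)
    · rw [norm_mul, ee_norm, one_mul]
  have h1 : J.adjoint (W.U (-t) φ) = hm.toLp _ := by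
    rw [← sub_eq_zero]
    refine orth μ _ fun s => ?_
    rw [inner_sub_right, sub_eq_zero, ContinuousLinearMap.adjoint_inner_right, hJ, inner_xx]
    have h2 : ⟪W.U s ψ, W.U (-t) φ⟫_ℂ = ⟪J (xx μ (s + t)), φ⟫_ℂ := by
      rw [hJ, ← NN.inner_adj, ← W.add', add_comm t s]
    rw [h2, ← ContinuousLinearMap.adjoint_inner_right, inner_xx]
    refine integral_congr_ae ?_
    filter_upwards [hm.coeFn_toLp] with E hE
    rw [hE, ← mul_assoc, ee_mul]
    congr 2
    ring
  rw [h1]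
  exact hm.coeFn_toLp

theorem minf {ι : Type} (W : UG (L2 ι)) (ψ : L2 ι) (μ : Measure ℝ) [IsFiniteMeasure μ]
    (hac : μ ≪ volume) (J : Lp ℂ 2 μ →L[ℂ] L2 ι) (hJ : ∀ t, J (xx μ t) = W.U t ψ)
    (hJn : ∀ u, ‖J u‖ = ‖u‖) (A : Set ℝ) (hA : MeasurableSet A) (n : ℕ)
    (hAn : ∀ E ∈ A, μ.rnDeriv volume E ≤ n) :
    Minf W (2 * Real.pi * n) (J (indicatorConstLp 2 hA (measure_ne_top μ A) (1 : ℂ))) := by
  intro φ
  set fA : Lp ℂ 2 μ := indicatorConstLp 2 hA (measure_ne_top μ A) (1 : ℂ) with hfA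
  set g : Lp ℂ 2 μ := J.adjoint φ with hg
  set ρ := μ.rnDeriv volume with hρ
  have hρm : Measurable ρ := Measure.measurable_rnDeriv μ volume
  have hμ : volume.withDensity ρ = μ := Measure.withDensity_rnDeriv_eq μ volume hac
  have hρt : ∀ᵐ E ∂(volume : Measure ℝ), ρ E < ∞ := Measure.rnDeriv_lt_top μ volume
  have hgm : StronglyMeasurable (g : ℝ → ℂ) := Lp.stronglyMeasurable g
  have hden : ∀ F : ℝ → ℝ≥0∞, Measurable F → ∫⁻ E, F E ∂μ = ∫⁻ E, ρ E * F E := by
    intro F hF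
    conv_lhs => rw [← hμ]
    rw [lintegral_withDensity_eq_lintegral_mul _ hρm hF]
    rfl
  have hdenI : ∀ F : ℝ → ℂ, ∫ E, F E ∂μ = ∫ E, (ρ E).toReal • F E := by
    intro F
    conv_lhs => rw [← hμ]
    rw [integral_withDensity_eq_integral_toReal_smul hρm hρt]
  -- norm of `g`
  have hgn : ‖g‖ ≤ ‖φ‖ := by
    have h1 : ‖J‖ ≤ 1 := J.opNorm_le_bound zero_le_one fun u => by rw [hJn, one_mul]
    have h2 : ‖J.adjoint‖ = ‖J‖ := by
      exact LinearIsometryEquiv.norm_map (ContinuousLinearMap.adjoint) J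
    calc ‖g‖ ≤ ‖J.adjoint‖ * ‖φ‖ := J.adjoint.le_opNorm φ
      _ ≤ 1 * ‖φ‖ := by rw [h2]; exact mul_le_mul_of_nonneg_right h1 (norm_nonneg _)
      _ = ‖φ‖ := one_mul _
  -- the function whose Fourier transform we take
  let Gn : ℝ → ℂ := A.indicator fun E => conj (g E) * ((ρ E).toReal : ℂ)
  have hGm : Measurable Gn := by
    refine Measurable.indicator ?_ hA
    exact (RCLike.continuous_conj.measurable.comp hgm.measurable).mul
      (Complex.measurable_ofReal.comp hρm.ennreal_toReal)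
  have hGe : ∀ E, ρ E ≠ ∞ → ‖Gn E‖ₑ = A.indicator (fun E => ‖g E‖ₑ * ρ E) E := by
    intro E hE
    by_cases hEA : E ∈ A
    · simp only [Gn, Set.indicator_of_mem hEA, enorm_mul]
      congr 1
      · simp [← ofReal_norm]
      · rw [← ofReal_norm, Complex.norm_real, Real.norm_of_nonneg ENNReal.toReal_nonneg,
          ENNReal.ofReal_toReal hE]
    · simp only [Gn, Set.indicator_of_notMem hEA, enorm_zero]
  have hgi : Integrable (g : ℝ → ℂ) μ := (Lp.memLp g).integrable (by norm_num)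
  have hGi : Integrable Gn := by
    refine ⟨hGm.aestronglyMeasurable, ?_⟩
    have h1 : ∫⁻ E, ‖Gn E‖ₑ ≤ ∫⁻ E, ρ E * ‖g E‖ₑ := by
      refine lintegral_mono_ae ?_
      filter_upwards [hρt] with E hE
      rw [hGe E hE.ne]
      refine (Set.indicator_le_self _ _ E).trans ?_
      rw [mul_comm]
    have h2 : ∫⁻ E, ρ E * ‖g E‖ₑ = ∫⁻ E, ‖g E‖ₑ ∂μ := (hden _ hgm.measurable.enorm).symm
    exact lt_of_le_of_lt (h1.trans h2.le) hgi.2
  have hG2 : ∫⁻ E, ‖Gn E‖ₑ ^ 2 ≤ n * ENNReal.ofReal (‖φ‖ ^ 2) := by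
    have h1 : ∫⁻ E, ‖Gn E‖ₑ ^ 2 ≤ ∫⁻ E, n * (ρ E * ‖g E‖ₑ ^ 2) := by
      refine lintegral_mono_ae ?_
      filter_upwards [hρt] with E hE
      rw [hGe E hE.ne]
      by_cases hEA : E ∈ A
      · rw [Set.indicator_of_mem hEA]
        calc (‖g E‖ₑ * ρ E) ^ 2 = ρ E * (ρ E * ‖g E‖ₑ ^ 2) := by ring
          _ ≤ n * (ρ E * ‖g E‖ₑ ^ 2) := by gcongr; exact hAn E hEA
      · rw [Set.indicator_of_notMem hEA]
        simp
    have h2 : ∫⁻ E, n * (ρ E * ‖g E‖ₑ ^ 2) = n * ∫⁻ E, ‖g E‖ₑ ^ 2 ∂μ := by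
      rw [hden _ (hgm.measurable.enorm.pow_const 2)]
      exact lintegral_const_mul _ (hρm.mul (hgm.measurable.enorm.pow_const 2))
    have h3 : ∫⁻ E, ‖g E‖ₑ ^ 2 ∂μ = ‖g‖ₑ ^ 2 := by
      rw [Lp.enorm_def, eLpNorm_eq_lintegral_rpow_enorm_toReal (by norm_num) (by norm_num)]
      simp only [ENNReal.toReal_ofNat, one_div]
      rw [← ENNReal.rpow_natCast (_ ^ _) 2, ← ENNReal.rpow_mul]
      norm_num
    refine h1.trans ?_
    rw [h2, h3]
    gcongr
    rw [ENNReal.ofReal_pow (norm_nonneg _), ← ofReal_norm]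
    gcongr
  have hGL : MemLp Gn 2 := by
    refine ⟨hGm.aestronglyMeasurable, ?_⟩
    rw [eLpNorm_lt_top_iff_lintegral_rpow_enorm_lt_top (by norm_num) (by norm_num)]
    have h1 : ∫⁻ E, ‖Gn E‖ₑ ^ (2 : ℝ≥0∞).toReal = ∫⁻ E, ‖Gn E‖ₑ ^ 2 := by
      simp
    rw [h1]
    refine lt_of_le_of_lt hG2 ?_
    exact ENNReal.mul_lt_top (ENNReal.natCast_lt_top n) ENNReal.ofReal_lt_top
  -- the matrix element is a Fourier transform
  have hF : ∀ t : ℝ, ⟪φ, W.U t (J fA)⟫_ℂ = 𝓕 Gn (t * (2 * Real.pi)⁻¹) := by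
    intro t
    have h1 : ⟪φ, W.U t (J fA)⟫_ℂ = ⟪(J.adjoint (W.U (-t) φ) : Lp ℂ 2 μ), fA⟫_ℂ := by
      rw [ContinuousLinearMap.adjoint_inner_left, NN.inner_adj, neg_neg]
    rw [h1, L2.inner_def]
    have h2 : ∫ E, ⟪(J.adjoint (W.U (-t) φ) : Lp ℂ 2 μ) E, fA E⟫_ℂ ∂μ =
        ∫ E, A.indicator (fun E => ee t E * conj (g E)) E ∂μ := by
      refine integral_congr_ae ?_
      filter_upwards [adj_eq W ψ φ μ J hJ t,
        indicatorConstLp_coeFn (p := 2) (hs := hA) (hμs := measure_ne_top μ A) (c := (1 : ℂ))]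
        with E hE1 hE2
      rw [hE1, hfA, hE2, RCLike.inner_apply, map_mul, ee_conj, neg_neg]
      by_cases hEA : E ∈ A
      · rw [Set.indicator_of_mem hEA, Set.indicator_of_mem hEA, one_mul]
      · rw [Set.indicator_of_notMem hEA, Set.indicator_of_notMem hEA, zero_mul]
    rw [h2, hdenI, Real.fourier_real_eq_integral_exp_smul]
    refine integral_congr_ae (Eventually.of_forall fun E => ?_)
    simp only [Gn]
    by_cases hEA : E ∈ A
    · rw [Set.indicator_of_mem hEA, Set.indicator_of_mem hEA, Complex.real_smul, smul_eq_mul]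
      have h3 : Complex.exp (((-2 * Real.pi * E * (t * (2 * Real.pi)⁻¹) : ℝ) : ℂ) * Complex.I) =
          ee t E := by
        rw [ee]
        congr 1
        have h4 : -2 * Real.pi * E * (t * (2 * Real.pi)⁻¹) = -(t * E) := by
          have := Real.pi_ne_zero
          field_simp
        rw [h4]
        push_cast
        ring
      rw [h3]
      ring
    · rw [Set.indicator_of_notMem hEA, Set.indicator_of_notMem hEA, smul_zero, smul_zero]
  have hpi : 0 < (2 * Real.pi)⁻¹ := by positivity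
  have hmeas : Measurable fun ξ : ℝ => ‖𝓕 Gn ξ‖ₑ ^ 2 := by
    have hc : Continuous (𝓕 Gn) :=
      VectorFourier.fourierIntegral_continuous Real.continuous_fourierChar
        (innerSL ℝ).continuous₂ hGi
    exact hc.measurable.enorm.pow_const 2
  calc ∫⁻ t : ℝ, ‖⟪φ, W.U t (J fA)⟫_ℂ‖ₑ ^ 2
      = ∫⁻ t : ℝ, ‖𝓕 Gn (t * (2 * Real.pi)⁻¹)‖ₑ ^ 2 := by simp only [hF]
    _ = ENNReal.ofReal (2 * Real.pi) * ∫⁻ ξ : ℝ, ‖𝓕 Gn ξ‖ₑ ^ 2 := by
        rw [lintegral_scale (fun ξ => ‖𝓕 Gn ξ‖ₑ ^ 2) hmeas _ hpi, inv_inv]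
    _ = ENNReal.ofReal (2 * Real.pi) * ∫⁻ E : ℝ, ‖Gn E‖ₑ ^ 2 := by
        rw [Pool.Agent.Helper76.NormalHP.plancherel_lintegral Gn hGi hGL]
    _ ≤ ENNReal.ofReal (2 * Real.pi) * (n * ENNReal.ofReal (‖φ‖ ^ 2)) := by gcongr
    _ = ENNReal.ofReal (2 * Real.pi * n * ‖φ‖ ^ 2) := by
        rw [← ENNReal.ofReal_natCast, ← ENNReal.ofReal_mul (by positivity),
          ← ENNReal.ofReal_mul (by positivity)]
        congr 1
        ring

end SPEC

theorem t_SPEC : St_SPEC := by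
  intro ι W ψ ⟨μ, hfin, hac, hμ⟩
  have hG : ∀ s t, ⟪SPEC.xx μ s, SPEC.xx μ t⟫_ℂ = ⟪W.U s ψ, W.U t ψ⟫_ℂ := by
    intro s t
    rw [SPEC.gram, NN.inner_adj, ← W.add', hμ, neg_add_eq_sub]
    rfl
  obtain ⟨J, hJ, hJn⟩ := SPEC.iso (SPEC.xx μ) (fun t => W.U t ψ) hG (SPEC.dense μ)
  set ρ := μ.rnDeriv volume with hρ
  have hρm : Measurable ρ := Measure.measurable_rnDeriv μ volume
  let A : ℕ → Set ℝ := fun n => {E | ρ E ≤ n}
  have hA : ∀ n, MeasurableSet (A n) := fun n => measurableSet_le hρm measurable_const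
  let F : ℕ → Lp ℂ 2 μ := fun n => indicatorConstLp 2 (hA n) (measure_ne_top μ (A n)) (1 : ℂ)
  have hmem : ∀ n, J (F n) ∈ {ψ | ∃ C : ℝ, Minf W C ψ} := fun n =>
    ⟨_, SPEC.minf W ψ μ hac J hJ hJn (A n) (hA n) n fun E hE => hE⟩
  have hdist : ∀ n, ‖F n - SPEC.xx μ 0‖ = (μ.real (A n)ᶜ) ^ (1 / (2 : ℝ)) := by
    intro n
    have h1 : ‖F n - SPEC.xx μ 0‖ =
        ‖indicatorConstLp 2 (hA n).compl (measure_ne_top μ (A n)ᶜ) (1 : ℂ)‖ := by
      refine (norm_neg _).symm.trans ?_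
      congr 1
      apply Lp.ext
      filter_upwards [Lp.coeFn_neg (F n - SPEC.xx μ 0), Lp.coeFn_sub (F n) (SPEC.xx μ 0),
        SPEC.xx_ae μ 0,
        indicatorConstLp_coeFn (p := 2) (hs := hA n) (hμs := measure_ne_top μ (A n)) (c := (1 : ℂ)),
        indicatorConstLp_coeFn (p := 2) (hs := (hA n).compl)
          (hμs := measure_ne_top μ (A n)ᶜ) (c := (1 : ℂ))] with E h1 h2 h3 h4 h5
      rw [h1, Pi.neg_apply, h2, Pi.sub_apply, h3, h5]
      simp only [F]
      rw [h4]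
      have h6 : SPEC.ee 0 E = 1 := by simp [SPEC.ee]
      rw [h6]
      by_cases hE : E ∈ A n
      · rw [Set.indicator_of_mem hE, Set.indicator_of_notMem (by simpa using hE)]
        simp
      · rw [Set.indicator_of_notMem hE, Set.indicator_of_mem (by simpa using hE)]
        simp
    rw [h1, norm_indicatorConstLp (by norm_num) (by norm_num), norm_one, one_mul]
    simp
  have hlim : Tendsto (fun n => μ.real (A n)ᶜ) atTop (𝓝 0) := by
    have hmono : Monotone A := by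
      intro m n hmn E hE
      exact le_trans (show ρ E ≤ m from hE) (by exact_mod_cast hmn)
    have h1 : Tendsto (fun n => μ (A n)ᶜ) atTop (𝓝 (μ (⋂ n, (A n)ᶜ))) := by
      refine tendsto_measure_iInter_atTop (fun n => (hA n).compl.nullMeasurableSet) ?_
        ⟨0, measure_ne_top μ _⟩
      intro m n hmn
      exact Set.compl_subset_compl.2 (hmono hmn)
    have h2 : μ (⋂ n, (A n)ᶜ) = 0 := by
      apply hac
      have h3 := Measure.rnDeriv_lt_top μ (volume : Measure ℝ)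
      rw [ae_iff] at h3
      refine measure_mono_null ?_ h3
      intro E hE
      rw [Set.mem_iInter] at hE
      intro hlt
      obtain ⟨n, hn⟩ := ENNReal.exists_nat_gt hlt.ne
      exact hE n hn.le
    rw [h2] at h1
    have h3 := (ENNReal.tendsto_toReal ENNReal.zero_ne_top).comp h1
    rw [ENNReal.toReal_zero] at h3
    exact h3
  have hF : Tendsto F atTop (𝓝 (SPEC.xx μ 0)) := by
    rw [tendsto_iff_norm_sub_tendsto_zero]
    simp only [hdist]
    have h1 : Tendsto (fun x : ℝ => x ^ (1 / (2 : ℝ))) (𝓝 0) (𝓝 0) := by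
      have h2 : ContinuousAt (fun x : ℝ => x ^ (1 / (2 : ℝ))) 0 :=
        Real.continuousAt_rpow_const _ _ (Or.inr (by norm_num))
      have h3 : ((0 : ℝ) ^ (1 / (2 : ℝ))) = 0 := Real.zero_rpow (by norm_num)
      have h4 := h2.tendsto
      rwa [h3] at h4
    exact h1.comp hlim
  have hJF : Tendsto (fun n => J (F n)) atTop (𝓝 ψ) := by
    have h1 := (J.continuous.tendsto (SPEC.xx μ 0)).comp hF
    rw [hJ, W.zero'] at h1
    exact h1
  exact mem_closure_of_tendsto hJF (Eventually.of_forall hmem)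

end Pool.Agent.H5R2.NBA
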