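import Pool.Agent.H5R2.NBA.Defs
import Pool.Agent.H5R2.NB.NN
import Pool.Agent.H5R2.NB.BP

/-! Task W3: the wave operators intertwine the averaged observables. -/

set_option autoImplicit false

open MeasureTheory Filter Topology
open scoped BigOperators ENNReal NNReal InnerProductSpace ComplexConjugate

namespace Pool.Agent.H5R2.NBA

open Pool.Agent.H5R2.NB

namespace W3

theorem cesaro {D : ℝ → ℂ} (hc : Continuous D) (M : ℝ) (hM : ∀ s, ‖D s‖ ≤ M)
    (hD : Tendsto D atTop (𝓝 0)) {Nk : ℕ → ℕ} (hN : Tendsto Nk atTop atTop) :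
    Tendsto (fun k => ((Nk k : ℂ)⁻¹) * ∫ s in (0 : ℝ)..(Nk k : ℝ), D s) atTop (𝓝 0) := by
  have h1 : ∀ k, ((Nk k : ℂ)⁻¹) * ∫ s in (0 : ℝ)..(Nk k : ℝ), D s =
      if Nk k = 0 then 0 else ∫ u in (0 : ℝ)..1, D ((Nk k : ℝ) * u) := by
    intro k
    split_ifs with h
    · rw [h]; simp
    · rw [intervalIntegral.integral_comp_mul_left (fun s => D s) (by exact_mod_cast h), mul_zero,
        mul_one, Complex.real_smul]
      push_cast
      rfl
  have h2 : Tendsto (fun k => ∫ u in (0 : ℝ)..1, D ((Nk k : ℝ) * u)) atTop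
      (𝓝 (∫ _u in (0 : ℝ)..1, (0 : ℂ))) := by
    refine intervalIntegral.tendsto_integral_filter_of_dominated_convergence (fun _ => M) ?_ ?_
      ?_ ?_
    · exact Eventually.of_forall fun k =>
        (hc.comp (continuous_const.mul continuous_id)).aestronglyMeasurable
    · exact Eventually.of_forall fun k => Eventually.of_forall fun u _ => hM _
    · exact intervalIntegrable_const
    · refine Eventually.of_forall fun u hu => ?_
      rw [Set.uIoc_of_le zero_le_one] at hu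
      refine hD.comp ?_
      exact (tendsto_natCast_atTop_atTop.comp hN).atTop_mul_const hu.1
  rw [intervalIntegral.integral_zero] at h2
  refine h2.congr' ?_
  filter_upwards [hN.eventually (eventually_gt_atTop 0)] with k hk
  rw [h1 k, if_neg (by omega)]

variable {X : Type} [NormedAddCommGroup X] [InnerProductSpace ℂ X]

/-- matrix element of the velocity at time `s` -/
noncomputable def m (W : UG X) (v : X →L[ℂ] X) (x y : X) (s : ℝ) : ℂ :=
  ⟪W.U s x, v (W.U s y)⟫_ℂ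

theorem m_cont (W : UG X) (v : X →L[ℂ] X) (x y : X) : Continuous (m W v x y) :=
  (W.cont' x).inner (v.continuous.comp (W.cont' y))

theorem m_norm (W : UG X) (v : X →L[ℂ] X) (x y : X) (s : ℝ) :
    ‖m W v x y s‖ ≤ ‖x‖ * (‖v‖ * ‖y‖) := by
  unfold m
  refine (norm_inner_le_norm _ _).trans ?_
  rw [W.norm']
  gcongr
  refine (v.le_opNorm _).trans ?_
  rw [W.norm']

theorem inner_av [CompleteSpace X] (W : UG X) (v : X →L[ℂ] X) (x y : X) (σ : ℝ → ℝ)
    (hσ : Continuous σ) (N : ℕ) :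
    ⟪x, ((N : ℂ)⁻¹) • ∫ s in (0 : ℝ)..(N : ℝ), W.U (-σ s) (v (W.U (σ s) y))⟫_ℂ =
      ((N : ℂ)⁻¹) * ∫ s in (0 : ℝ)..(N : ℝ), m W v x y (σ s) := by
  rw [inner_smul_right]
  congr 1
  have hc : Continuous fun s => W.U (-σ s) (v (W.U (σ s) y)) :=
    (BP.g_cont W v y).comp hσ
  have h1 := (innerSL ℂ x).intervalIntegral_comp_comm (hc.intervalIntegrable (μ := volume) 0 N)
  simp only [innerSL_apply_apply] at h1
  rw [← h1]
  refine intervalIntegral.integral_congr fun s _ => ?_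
  simp only [m]
  rw [NN.inner_adj]

theorem m_diff (W W' : UG X) (v : X →L[ℂ] X) (x y x' y' : X) (s : ℝ) :
    ‖m W' v x' y' s - m W v x y s‖ ≤ ‖W'.U (-s) (W.U s x) - x'‖ * (‖v‖ * ‖y'‖) +
      ‖x‖ * (‖v‖ * ‖W'.U (-s) (W.U s y) - y'‖) := by
  have e : ∀ z z' : X, ‖W'.U s z' - W.U s z‖ = ‖W'.U (-s) (W.U s z) - z'‖ := by
    intro z z'
    have h1 : W'.U s z' - W.U s z = - W'.U s (W'.U (-s) (W.U s z) - z') := by
      rw [map_sub, ← W'.add', add_neg_cancel, W'.zero']; abel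
    rw [h1, norm_neg, W'.norm']
  have h2 : m W' v x' y' s - m W v x y s = ⟪W'.U s x' - W.U s x, v (W'.U s y')⟫_ℂ +
      ⟪W.U s x, v (W'.U s y' - W.U s y)⟫_ℂ := by
    unfold m
    rw [inner_sub_left, map_sub, inner_sub_right]; ring
  rw [h2]
  refine (norm_add_le _ _).trans (add_le_add ?_ ?_)
  · refine (norm_inner_le_norm _ _).trans ?_
    rw [e]
    gcongr
    refine (v.le_opNorm _).trans ?_
    rw [W'.norm']
  · refine (norm_inner_le_norm _ _).trans ?_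
    rw [W.norm']
    gcongr
    refine (v.le_opNorm _).trans ?_
    rw [e]

theorem core [CompleteSpace X] (W W' : UG X) (v : X →L[ℂ] X) (Nk : ℕ → ℕ)
    (hN : Tendsto Nk atTop atTop) (l : Filter ℝ) (σ : ℝ → ℝ) (hσ : Continuous σ)
    (hl : Tendsto σ atTop l) (φ φp ψ ψp b b' : X)
    (hφ : Tendsto (fun t : ℝ => W'.U (-t) (W.U t φ)) l (𝓝 φp))
    (hψ : Tendsto (fun t : ℝ => W'.U (-t) (W.U t ψ)) l (𝓝 ψp))
    (hb : Tendsto (fun k => ((Nk k : ℂ)⁻¹) •
      ∫ s in (0 : ℝ)..(Nk k : ℝ), W.U (-σ s) (v (W.U (σ s) ψ))) atTop (𝓝 b))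
    (hb' : Tendsto (fun k => ((Nk k : ℂ)⁻¹) •
      ∫ s in (0 : ℝ)..(Nk k : ℝ), W'.U (-σ s) (v (W'.U (σ s) ψp))) atTop (𝓝 b')) :
    ⟪φp, b'⟫_ℂ = ⟪φ, b⟫_ℂ := by
  have hD : Tendsto (fun s => m W' v φp ψp (σ s) - m W v φ ψ (σ s)) atTop (𝓝 0) := by
    have h1 := (tendsto_iff_norm_sub_tendsto_zero.1 hφ).comp hl
    have h2 := (tendsto_iff_norm_sub_tendsto_zero.1 hψ).comp hl
    refine squeeze_zero_norm (fun s => m_diff W W' v φ ψ φp ψp (σ s)) ?_
    have h3 := (h1.mul_const (‖v‖ * ‖ψp‖)).add ((h2.const_mul ‖v‖).const_mul ‖φ‖)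
    simpa using h3
  have h4 := cesaro (D := fun s => m W' v φp ψp (σ s) - m W v φ ψ (σ s))
    (((m_cont W' v φp ψp).comp hσ).sub ((m_cont W v φ ψ).comp hσ))
    (‖φp‖ * (‖v‖ * ‖ψp‖) + ‖φ‖ * (‖v‖ * ‖ψ‖))
    (fun s => (norm_sub_le _ _).trans (add_le_add (m_norm _ _ _ _ _) (m_norm _ _ _ _ _))) hD hN
  have h5 : ∀ k, ((Nk k : ℂ)⁻¹) * ∫ s in (0 : ℝ)..(Nk k : ℝ),
      (m W' v φp ψp (σ s) - m W v φ ψ (σ s)) =
      ⟪φp, ((Nk k : ℂ)⁻¹) •
        ∫ s in (0 : ℝ)..(Nk k : ℝ), W'.U (-σ s) (v (W'.U (σ s) ψp))⟫_ℂ -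
      ⟪φ, ((Nk k : ℂ)⁻¹) •
        ∫ s in (0 : ℝ)..(Nk k : ℝ), W.U (-σ s) (v (W.U (σ s) ψ))⟫_ℂ := by
    intro k
    rw [inner_av W' v φp ψp σ hσ, inner_av W v φ ψ σ hσ, ← mul_sub,
      intervalIntegral.integral_sub]
    · exact ((m_cont W' v φp ψp).comp hσ).intervalIntegrable _ _
    · exact ((m_cont W v φ ψ).comp hσ).intervalIntegrable _ _
  simp only [h5] at h4
  have h6 := (Filter.Tendsto.inner (𝕜 := ℂ) (tendsto_const_nhds (x := φp)) hb').sub
    (Filter.Tendsto.inner (𝕜 := ℂ) (tendsto_const_nhds (x := φ)) hb)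
  exact sub_eq_zero.1 (tendsto_nhds_unique h6 h4)

end W3

theorem t_W3 : St_W3 := by
  intro ι W W' v Nk hN B B' hB hB' l hl φ φp ψ ψp hφ hψ
  rcases hl with rfl | rfl
  · exact W3.core W W' v Nk hN atTop id continuous_id tendsto_id φ φp ψ ψp (B ψ) (B' ψp) hφ hψ
      (hB ψ).1 (hB' ψp).1
  · refine W3.core W W' v Nk hN atBot (fun s => -s) continuous_neg tendsto_neg_atTop_atBot φ φp
      ψ ψp (B ψ) (B' ψp) hφ hψ ?_ ?_
    · simpa only [neg_neg, avM] using (hB ψ).2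
    · simpa only [neg_neg, avM] using (hB' ψp).2

end Pool.Agent.H5R2.NBA
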