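import Pool.Agent.H5R2.NBA.Defs
import Pool.Agent.H5R2.NB.NN

/-! # W4: the difference of the two wave operators, in the weak sense -/

set_option autoImplicit false

open MeasureTheory Filter Topology
open scoped BigOperators ENNReal NNReal InnerProductSpace ComplexConjugate

namespace Pool.Agent.H5R2.NBA

open Pool.Agent.H5R2.NB

namespace W4

variable {X : Type} [NormedAddCommGroup X] [InnerProductSpace ℂ X] [CompleteSpace X]

theorem duh (U : ℝ → UG X) (e : X) (hF : Fam U e) (κ κ' t : ℝ) (ψ : X) :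
    (U κ').U (-t) ((U κ).U t ψ) = ψ + (Complex.I * ((κ' - κ : ℝ) : ℂ)) •
      ∫ s in (0 : ℝ)..t, ⟪e, (U κ).U s ψ⟫_ℂ • (U κ').U (-s) e := by
  have h := hF κ' κ t ψ
  rw [h, map_sub, map_smul]
  have h1 : (U κ').U (-t) ((U κ').U t ψ) = ψ := by
    rw [← (U κ').add', neg_add_cancel, (U κ').zero']
  have h2 : (U κ').U (-t) (∫ s in (0 : ℝ)..t, ⟪e, (U κ).U s ψ⟫_ℂ • (U κ').U (t - s) e)
      = ∫ s in (0 : ℝ)..t, ⟪e, (U κ).U s ψ⟫_ℂ • (U κ').U (-s) e := by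
    have hc : Continuous fun s : ℝ => ⟪e, (U κ).U s ψ⟫_ℂ • (U κ').U (t - s) e := by
      refine Continuous.smul ?_ ?_
      · exact continuous_const.inner ((U κ).cont' ψ)
      · exact ((U κ').cont' e).comp (continuous_const.sub continuous_id)
    rw [← ContinuousLinearMap.intervalIntegral_comp_comm _ (hc.intervalIntegrable 0 t)]
    refine intervalIntegral.integral_congr fun s _ => ?_
    simp only [map_smul]
    rw [← (U κ').add']
    congr 3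
    ring
  rw [h1, h2]
  have h3 : Complex.I * ((κ - κ' : ℝ) : ℂ) = -(Complex.I * ((κ' - κ : ℝ) : ℂ)) := by
    push_cast; ring
  rw [h3, neg_smul, sub_neg_eq_add]

theorem duh_inner (U : ℝ → UG X) (e : X) (hF : Fam U e) (κ κ' t : ℝ) (ψ η : X) :
    ⟪η, (U κ').U (-t) ((U κ).U t ψ)⟫_ℂ = ⟪η, ψ⟫_ℂ + (Complex.I * ((κ' - κ : ℝ) : ℂ)) *
      ∫ s in (0 : ℝ)..t, ⟪e, (U κ).U s ψ⟫_ℂ * ⟪η, (U κ').U (-s) e⟫_ℂ := by
  rw [duh U e hF, inner_add_right, inner_smul_right]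
  congr 2
  have hc : Continuous fun s : ℝ => ⟪e, (U κ).U s ψ⟫_ℂ • (U κ').U (-s) e := by
    refine Continuous.smul ?_ ?_
    · exact continuous_const.inner ((U κ).cont' ψ)
    · exact ((U κ').cont' e).comp continuous_neg
  have := ContinuousLinearMap.intervalIntegral_comp_comm (innerSL ℂ η) (hc.intervalIntegrable (μ := volume) 0 t)
  simp only [innerSL_apply_apply] at this
  rw [← this]
  refine intervalIntegral.integral_congr fun s _ => ?_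
  simp only [inner_smul_right]

theorem memLp_of {f : ℝ → ℂ} (hf : Continuous f) {K : ℝ}
    (h : ∫⁻ t : ℝ, ‖f t‖ₑ ^ 2 ≤ ENNReal.ofReal K) : MemLp f 2 volume := by
  refine ⟨hf.aestronglyMeasurable, ?_⟩
  rw [eLpNorm_lt_top_iff_lintegral_rpow_enorm_lt_top (by norm_num) (by norm_num)]
  have e : ∀ t : ℝ, ‖f t‖ₑ ^ (2 : ℝ≥0∞).toReal = ‖f t‖ₑ ^ 2 := by
    intro t
    rw [ENNReal.toReal_ofNat]
    exact ENNReal.rpow_natCast _ 2
  simp_rw [e]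
  exact lt_of_le_of_lt h ENNReal.ofReal_lt_top

end W4

theorem t_W4 : St_W4 := by
  intro ι U e hF κ κ' C C' ψ ψp ψm η hψ hη hp hm
  obtain ⟨f, hf⟩ : ∃ f : ℝ → ℂ, f = fun s => ⟪e, (U κ).U s ψ⟫_ℂ * ⟪η, (U κ').U (-s) e⟫_ℂ :=
    ⟨_, rfl⟩
  have c1 : Continuous fun s : ℝ => ⟪e, (U κ).U s ψ⟫_ℂ :=
    continuous_const.inner ((U κ).cont' ψ)
  have c2 : Continuous fun s : ℝ => ⟪η, (U κ').U (-s) e⟫_ℂ :=
    continuous_const.inner (((U κ').cont' e).comp continuous_neg)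
  have m1 : MemLp (fun s : ℝ => ⟪e, (U κ).U s ψ⟫_ℂ) 2 volume := W4.memLp_of c1 (hψ e)
  have m2 : MemLp (fun s : ℝ => ⟪η, (U κ').U (-s) e⟫_ℂ) 2 volume := by
    refine W4.memLp_of c2 (K := C' * ‖e‖ ^ 2) ?_
    refine le_trans (le_of_eq ?_) (hη e)
    refine lintegral_congr fun s => ?_
    have : ⟪η, (U κ').U (-s) e⟫_ℂ = conj ⟪e, (U κ').U s η⟫_ℂ := by
      rw [inner_conj_symm, NN.inner_adj]
    rw [this]
    congr 1
    rw [← ofReal_norm, ← ofReal_norm, RCLike.norm_conj]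
  have hint : Integrable f volume := by
    rw [hf]
    exact m1.integrable_mul m2
  have h1 : ⟪η, ψp⟫_ℂ = ⟪η, ψ⟫_ℂ + (Complex.I * ((κ' - κ : ℝ) : ℂ)) *
      ∫ s in Set.Ioi (0 : ℝ), f s := by
    have t1 : Tendsto (fun t : ℝ => ⟪η, (U κ').U (-t) ((U κ).U t ψ)⟫_ℂ) atTop (𝓝 ⟪η, ψp⟫_ℂ) :=
      tendsto_const_nhds.inner hp
    have t2 := intervalIntegral_tendsto_integral_Ioi (0 : ℝ) hint.integrableOn tendsto_id
    have t3 : Tendsto (fun t : ℝ => ⟪η, (U κ').U (-t) ((U κ).U t ψ)⟫_ℂ) atTop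
        (𝓝 (⟪η, ψ⟫_ℂ + (Complex.I * ((κ' - κ : ℝ) : ℂ)) * ∫ s in Set.Ioi (0 : ℝ), f s)) := by
      simp_rw [W4.duh_inner U e hF]
      rw [hf] at t2 ⊢
      exact tendsto_const_nhds.add (t2.const_mul _)
    exact tendsto_nhds_unique t1 t3
  have h2 : ⟪η, ψm⟫_ℂ = ⟪η, ψ⟫_ℂ - (Complex.I * ((κ' - κ : ℝ) : ℂ)) *
      ∫ s in Set.Iic (0 : ℝ), f s := by
    have t1 : Tendsto (fun t : ℝ => ⟪η, (U κ').U (-t) ((U κ).U t ψ)⟫_ℂ) atBot (𝓝 ⟪η, ψm⟫_ℂ) :=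
      tendsto_const_nhds.inner hm
    have t2 := intervalIntegral_tendsto_integral_Iic (0 : ℝ) hint.integrableOn tendsto_id
    have t3 : Tendsto (fun t : ℝ => ⟪η, (U κ').U (-t) ((U κ).U t ψ)⟫_ℂ) atBot
        (𝓝 (⟪η, ψ⟫_ℂ - (Complex.I * ((κ' - κ : ℝ) : ℂ)) * ∫ s in Set.Iic (0 : ℝ), f s)) := by
      simp_rw [W4.duh_inner U e hF]
      have e1 : ∀ t : ℝ, ∫ s in (0 : ℝ)..t, ⟪e, (U κ).U s ψ⟫_ℂ * ⟪η, (U κ').U (-s) e⟫_ℂ
          = - ∫ s in t..(0 : ℝ), f s := by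
        intro t
        rw [intervalIntegral.integral_symm, hf]
      simp_rw [e1]
      have := (t2.const_mul (Complex.I * ((κ' - κ : ℝ) : ℂ))).neg
      have h3 := tendsto_const_nhds (x := ⟪η, ψ⟫_ℂ) (f := (atBot : Filter ℝ)) |>.add this
      refine (h3.congr fun t => ?_).trans (le_of_eq ?_)
      · simp only [id, mul_neg]
      · congr 1
    exact tendsto_nhds_unique t1 t3
  rw [inner_sub_right, h1, h2]
  have h3 : ∫ s : ℝ, f s = (∫ s in Set.Iic (0 : ℝ), f s) + ∫ s in Set.Ioi (0 : ℝ), f s := by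
    rw [← integral_add_compl (measurableSet_Iic (a := (0 : ℝ))) hint, Set.compl_Iic]
  have h4 : ∫ s : ℝ, ⟪e, (U κ).U s ψ⟫_ℂ * ⟪η, (U κ').U (-s) e⟫_ℂ = ∫ s : ℝ, f s := by rw [hf]
  rw [h4, h3]
  ring

end Pool.Agent.H5R2.NBA
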