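import Pool.Agent.H5R2.NBA.Defs
import Pool.Agent.H5R2.NB.NN

set_option autoImplicit false

open MeasureTheory Filter Topology
open scoped BigOperators ENNReal NNReal InnerProductSpace ComplexConjugate

namespace Pool.Agent.H5R2.NBA

open Pool.Agent.H5R2.NB

namespace W5

/-- product of two square integrable functions -/
theorem int_mul {μ : Measure ℝ} {f h : ℝ → ℂ} (hf : Measurable f) (hh : Measurable h)
    (h1 : ∫⁻ r, ‖f r‖ₑ ^ 2 ∂μ < ∞) (h2 : ∫⁻ r, ‖h r‖ₑ ^ 2 ∂μ < ∞) :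
    Integrable (fun r => f r * h r) μ := by
  refine ⟨(hf.mul hh).aestronglyMeasurable, ?_⟩
  have h3 : ∀ r, ‖f r * h r‖ₑ ≤ ‖f r‖ₑ ^ 2 + ‖h r‖ₑ ^ 2 := by
    intro r
    rw [enorm_mul]
    rcases le_total ‖f r‖ₑ ‖h r‖ₑ with hle | hle
    · calc ‖f r‖ₑ * ‖h r‖ₑ ≤ ‖h r‖ₑ * ‖h r‖ₑ := by gcongr
        _ = ‖h r‖ₑ ^ 2 := by ring
        _ ≤ _ := le_add_self
    · calc ‖f r‖ₑ * ‖h r‖ₑ ≤ ‖f r‖ₑ * ‖f r‖ₑ := by gcongr
        _ = ‖f r‖ₑ ^ 2 := by ring
        _ ≤ _ := le_self_add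
  refine lt_of_le_of_lt (lintegral_mono h3) ?_
  rw [lintegral_add_left (hf.enorm.pow_const 2)]
  exact ENNReal.add_lt_top.2 ⟨h1, h2⟩

/-- Cauchy-Schwarz -/
theorem cs {μ : Measure ℝ} {f h : ℝ → ℂ} (hf : Measurable f) (hh : Measurable h) :
    ∫⁻ r, ‖f r‖ₑ * ‖h r‖ₑ ∂μ ≤
      (∫⁻ r, ‖f r‖ₑ ^ 2 ∂μ) ^ (1 / 2 : ℝ) * (∫⁻ r, ‖h r‖ₑ ^ 2 ∂μ) ^ (1 / 2 : ℝ) := by
  have h := ENNReal.lintegral_mul_le_Lp_mul_Lq μ
    (show Real.HolderConjugate 2 2 from Real.HolderConjugate.two_two)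
    hf.enorm.aemeasurable hh.enorm.aemeasurable
  simpa using h

/-- weak convergence -/
theorem weak {f : ℕ → ℝ → ℂ} {g h : ℝ → ℂ} {M : ℝ} {K : ℝ≥0∞} (hf : ∀ n, Measurable (f n))
    (hh : Measurable h) (hM : ∀ n r, ‖f n r‖ ≤ M) (hK : K < ∞)
    (hfK : ∀ n, ∫⁻ r, ‖f n r‖ₑ ^ 2 ≤ K) (h2 : ∫⁻ r, ‖h r‖ₑ ^ 2 < ∞)
    (hl : ∀ r, Tendsto (fun n => f n r) atTop (𝓝 (g r))) :
    Tendsto (fun n => ∫ r, f n r * h r) atTop (𝓝 (∫ r, g r * h r)) := by
  have hg : Measurable g := measurable_of_tendsto_metrizable hf (tendsto_pi_nhds.2 hl)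
  have hgK : ∫⁻ r, ‖g r‖ₑ ^ 2 ≤ K := by
    have h3 : ∀ r, ‖g r‖ₑ ^ 2 = liminf (fun n => ‖f n r‖ₑ ^ 2) atTop := by
      intro r
      refine (Tendsto.liminf_eq ?_).symm
      exact ((ENNReal.continuous_pow 2).tendsto _).comp ((continuous_enorm.tendsto _).comp (hl r))
    calc ∫⁻ r, ‖g r‖ₑ ^ 2 = ∫⁻ r, liminf (fun n => ‖f n r‖ₑ ^ 2) atTop := by simp_rw [h3]
      _ ≤ liminf (fun n => ∫⁻ r, ‖f n r‖ₑ ^ 2) atTop :=
          lintegral_liminf_le fun n => (hf n).enorm.pow_const 2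
      _ ≤ liminf (fun _ : ℕ => K) atTop :=
          liminf_le_liminf (Eventually.of_forall hfK)
      _ = K := by simp
  have hgM : ∀ r, ‖g r‖ ≤ M := fun r =>
    le_of_tendsto ((continuous_norm.tendsto _).comp (hl r)) (Eventually.of_forall fun n => hM n r)
  refine tendsto_integral_of_L1 _ (hg.mul hh).aestronglyMeasurable
    (Eventually.of_forall fun n => int_mul (hf n) hh ((hfK n).trans_lt hK) h2) ?_
  -- tails
  have htail : Tendsto (fun R : ℕ => ∫⁻ r in {r : ℝ | (R : ℝ) < |r|}, ‖h r‖ₑ ^ 2) atTop (𝓝 0) := by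
    have hms : ∀ R : ℕ, MeasurableSet {r : ℝ | (R : ℝ) < |r|} := fun R =>
      measurableSet_lt measurable_const measurable_abs
    have h4 : ∀ R : ℕ, ∫⁻ r in {r : ℝ | (R : ℝ) < |r|}, ‖h r‖ₑ ^ 2 =
        ∫⁻ r, {r : ℝ | (R : ℝ) < |r|}.indicator (fun r => ‖h r‖ₑ ^ 2) r := fun R =>
      (lintegral_indicator (hms R) _).symm
    simp_rw [h4]
    rw [show (0 : ℝ≥0∞) = ∫⁻ _ : ℝ, 0 by simp]
    refine tendsto_lintegral_of_dominated_convergence (fun r => ‖h r‖ₑ ^ 2)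
      (fun R => (hh.enorm.pow_const 2).indicator (hms R)) ?_ h2.ne ?_
    · intro R
      exact Eventually.of_forall fun r => Set.indicator_le_self _ _ _
    · refine Eventually.of_forall fun r => ?_
      refine tendsto_const_nhds.congr' ?_
      obtain ⟨n, hn⟩ := exists_nat_ge |r|
      filter_upwards [eventually_ge_atTop n] with m hm
      rw [Set.indicator_of_notMem]
      intro h5
      have h6 : (m : ℝ) < |r| := h5
      have h7 : (n : ℝ) ≤ m := by exact_mod_cast hm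
      linarith
  have htail2 : Tendsto (fun R : ℕ => 2 * (K ^ (1 / 2 : ℝ) *
      (∫⁻ r in {r : ℝ | (R : ℝ) < |r|}, ‖h r‖ₑ ^ 2) ^ (1 / 2 : ℝ))) atTop (𝓝 0) := by
    have h5 := (ENNReal.continuous_rpow_const (y := (1 / 2 : ℝ))).tendsto 0 |>.comp htail
    have h6 : ((0 : ℝ≥0∞) ^ (1 / 2 : ℝ)) = 0 := ENNReal.zero_rpow_of_pos (by norm_num)
    rw [h6] at h5
    have h7 := ENNReal.Tendsto.const_mul (a := K ^ (1 / 2 : ℝ)) h5
      (Or.inr (ENNReal.rpow_ne_top_of_nonneg (by norm_num) hK.ne))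
    have h8 := ENNReal.Tendsto.const_mul (a := 2) h7 (Or.inr (by simp))
    simpa using h8
  rw [ENNReal.tendsto_nhds_zero]
  intro ε hε
  have hε2 : 0 < ε / 2 := ENNReal.half_pos hε.ne'
  obtain ⟨R, hR⟩ := ((ENNReal.tendsto_nhds_zero.1 htail2) (ε / 2) hε2).exists
  have hms : MeasurableSet {r : ℝ | (R : ℝ) < |r|} :=
    measurableSet_lt measurable_const measurable_abs
  have hcomp : {r : ℝ | (R : ℝ) < |r|}ᶜ = Set.Icc (-(R : ℝ)) R := by
    ext r
    simp only [Set.mem_compl_iff, Set.mem_ofPred_eq, not_lt, Set.mem_Icc, abs_le]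
  have hmain : Tendsto (fun n => ∫⁻ r in Set.Icc (-(R : ℝ)) R, ‖f n r * h r - g r * h r‖ₑ) atTop
      (𝓝 0) := by
    have hhint : ∫⁻ r in Set.Icc (-(R : ℝ)) R, ENNReal.ofReal (2 * M) * ‖h r‖ₑ ≠ ∞ := by
      rw [lintegral_const_mul _ hh.enorm]
      refine ENNReal.mul_ne_top ENNReal.ofReal_ne_top ?_
      have h9 := cs (μ := volume.restrict (Set.Icc (-(R : ℝ)) R)) (f := fun _ => (1 : ℂ))
        measurable_const hh
      simp only [enorm_one, one_mul, one_pow] at h9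
      refine ne_top_of_le_ne_top ?_ h9
      refine ENNReal.mul_ne_top (ENNReal.rpow_ne_top_of_nonneg (by norm_num) ?_)
        (ENNReal.rpow_ne_top_of_nonneg (by norm_num) ?_)
      · simp
      · exact ((setLIntegral_le_lintegral _ _).trans_lt h2).ne
    rw [show (0 : ℝ≥0∞) = ∫⁻ _ : ℝ in Set.Icc (-(R : ℝ)) R, 0 by simp]
    refine tendsto_lintegral_of_dominated_convergence
      (fun r => ENNReal.ofReal (2 * M) * ‖h r‖ₑ) ?_ ?_ hhint ?_
    · intro n
      exact (((hf n).mul hh).sub (hg.mul hh)).enorm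
    · intro n
      refine Eventually.of_forall fun r => ?_
      show ‖f n r * h r - g r * h r‖ₑ ≤ ENNReal.ofReal (2 * M) * ‖h r‖ₑ
      rw [← sub_mul, enorm_mul]
      gcongr
      rw [← ofReal_norm]
      refine ENNReal.ofReal_le_ofReal ?_
      calc ‖f n r - g r‖ ≤ ‖f n r‖ + ‖g r‖ := norm_sub_le _ _
        _ ≤ M + M := add_le_add (hM n r) (hgM r)
        _ = 2 * M := by ring
    · refine Eventually.of_forall fun r => ?_
      have h10 : Tendsto (fun n => f n r * h r - g r * h r) atTop (𝓝 0) := by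
        have := ((hl r).mul_const (h r)).sub_const (g r * h r)
        simpa using this
      have h11 := (continuous_enorm.tendsto _).comp h10
      rw [enorm_zero] at h11
      exact h11
  filter_upwards [(ENNReal.tendsto_nhds_zero.1 hmain) (ε / 2) hε2] with n hn
  rw [← lintegral_add_compl _ hms, hcomp]
  refine (add_le_add ?_ hn).trans_eq (ENNReal.add_halves ε)
  refine le_trans ?_ hR
  calc ∫⁻ r in {r : ℝ | (R : ℝ) < |r|}, ‖f n r * h r - g r * h r‖ₑ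
      ≤ ∫⁻ r in {r : ℝ | (R : ℝ) < |r|}, (‖f n r‖ₑ * ‖h r‖ₑ + ‖g r‖ₑ * ‖h r‖ₑ) := by
        refine lintegral_mono fun r => ?_
        rw [← enorm_mul, ← enorm_mul]
        exact enorm_sub_le
    _ = (∫⁻ r in {r : ℝ | (R : ℝ) < |r|}, ‖f n r‖ₑ * ‖h r‖ₑ) +
        ∫⁻ r in {r : ℝ | (R : ℝ) < |r|}, ‖g r‖ₑ * ‖h r‖ₑ :=
        lintegral_add_left ((hf n).enorm.mul hh.enorm) _
    _ ≤ K ^ (1 / 2 : ℝ) * (∫⁻ r in {r : ℝ | (R : ℝ) < |r|}, ‖h r‖ₑ ^ 2) ^ (1 / 2 : ℝ) +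
        K ^ (1 / 2 : ℝ) * (∫⁻ r in {r : ℝ | (R : ℝ) < |r|}, ‖h r‖ₑ ^ 2) ^ (1 / 2 : ℝ) := by
        refine add_le_add ?_ ?_
        · refine (cs (hf n) hh).trans ?_
          gcongr
          exact (setLIntegral_le_lintegral _ _).trans (hfK n)
        · refine (cs hg hh).trans ?_
          gcongr
          exact (setLIntegral_le_lintegral _ _).trans hgK
    _ = _ := by ring

/-- Duhamel for the wave operator -/
theorem star {X : Type} [NormedAddCommGroup X] [InnerProductSpace ℂ X] [CompleteSpace X]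
    {U : ℝ → UG X} {e : X} (hF : Fam U e) (κ κ' T : ℝ) (x : X) :
    ⟪e, (U κ').U (-T) ((U κ).U T x)⟫_ℂ = ⟪e, x⟫_ℂ + Complex.I * ((κ' - κ : ℝ) : ℂ) *
      ∫ s in (0 : ℝ)..T, ⟪e, (U κ).U s x⟫_ℂ * ⟪e, (U κ').U (-s) e⟫_ℂ := by
  have h := hF κ' κ T x
  have h0 : ∀ y, (U κ').U (-T) ((U κ').U T y) = y := by
    intro y
    rw [← (U κ').add', neg_add_cancel, (U κ').zero']
  set L : X →L[ℂ] ℂ := (innerSL ℂ e).comp ((U κ').U (-T)) with hL
  have hLa : ∀ y, L y = ⟪e, (U κ').U (-T) y⟫_ℂ := fun y => rfl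
  have hc : Continuous fun s : ℝ => ⟪e, (U κ).U s x⟫_ℂ • (U κ').U (T - s) e := by
    have h1 := (U κ).cont' x
    have h2 := ((U κ').cont' e).comp (continuous_const.sub continuous_id : Continuous fun s : ℝ => T - s)
    have h3 : Continuous fun s : ℝ => ⟪e, (U κ).U s x⟫_ℂ := Continuous.inner (𝕜 := ℂ) continuous_const h1
    exact h3.smul h2
  have hint := L.intervalIntegral_comp_comm (hc.intervalIntegrable (μ := volume) 0 T)
  rw [← hLa, h, map_sub, map_smul, hLa ((U κ').U T x), h0, ← hint]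
  have h3 : ∀ s : ℝ, L (⟪e, (U κ).U s x⟫_ℂ • (U κ').U (T - s) e) =
      ⟪e, (U κ).U s x⟫_ℂ * ⟪e, (U κ').U (-s) e⟫_ℂ := by
    intro s
    rw [map_smul, smul_eq_mul, hLa, ← (U κ').add']
    congr 4
    ring
  simp_rw [h3]
  rw [smul_eq_mul]
  push_cast
  ring

/-- Fubini -/
theorem fub {g k h : ℝ → ℂ} (hg : Continuous g) (hk : Continuous k) (hh : Measurable h)
    {B : ℝ} (hB : ∀ s, ‖k s‖ ≤ B) (h1 : ∫⁻ r, ‖g r‖ₑ ^ 2 < ∞) (h2 : ∫⁻ r, ‖h r‖ₑ ^ 2 < ∞)
    (h0 : ∀ s : ℝ, ∫ r : ℝ, g (s + r) * h r = 0) {T : ℝ} (hT : 0 ≤ T) (c : ℂ) :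
    ∫ r : ℝ, (g r + c * ∫ s in (0 : ℝ)..T, g (s + r) * k s) * h r = 0 := by
  have htr : ∀ s : ℝ, ∫⁻ r, ‖g (s + r)‖ₑ ^ 2 = ∫⁻ r, ‖g r‖ₑ ^ 2 := fun s =>
    lintegral_add_left_eq_self (fun r => ‖g r‖ₑ ^ 2) s
  have hFm : Measurable (Function.uncurry fun (r s : ℝ) => g (s + r) * k s * h r) := by
    have m1 : Measurable fun p : ℝ × ℝ => g (p.2 + p.1) :=
      (hg.comp (continuous_snd.add continuous_fst)).measurable
    have m2 : Measurable fun p : ℝ × ℝ => k p.2 := (hk.comp continuous_snd).measurable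
    have m3 : Measurable fun p : ℝ × ℝ => h p.1 := hh.comp measurable_fst
    exact (m1.mul m2).mul m3
  have hFi : Integrable (Function.uncurry fun (r s : ℝ) => g (s + r) * k s * h r)
      ((volume : Measure ℝ).prod ((volume : Measure ℝ).restrict (Set.Ioc 0 T))) := by
    refine ⟨hFm.aestronglyMeasurable, ?_⟩
    show ∫⁻ p, ‖Function.uncurry (fun (r s : ℝ) => g (s + r) * k s * h r) p‖ₑ
      ∂((volume : Measure ℝ).prod ((volume : Measure ℝ).restrict (Set.Ioc 0 T))) < ∞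
    rw [lintegral_prod_symm _ hFm.enorm.aemeasurable]
    have h3 : ∀ s : ℝ, ∫⁻ r, ‖Function.uncurry (fun (r s : ℝ) => g (s + r) * k s * h r) (r, s)‖ₑ ≤
        ENNReal.ofReal B * ((∫⁻ r, ‖g r‖ₑ ^ 2) ^ (1 / 2 : ℝ) *
          (∫⁻ r, ‖h r‖ₑ ^ 2) ^ (1 / 2 : ℝ)) := by
      intro s
      have hgs : Measurable fun r => g (s + r) :=
        (hg.comp (continuous_const.add continuous_id)).measurable
      calc ∫⁻ r, ‖Function.uncurry (fun (r s : ℝ) => g (s + r) * k s * h r) (r, s)‖ₑ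
          ≤ ∫⁻ r, ENNReal.ofReal B * (‖g (s + r)‖ₑ * ‖h r‖ₑ) := by
            refine lintegral_mono fun r => ?_
            show ‖g (s + r) * k s * h r‖ₑ ≤ _
            rw [enorm_mul, enorm_mul]
            have h4 : ‖k s‖ₑ ≤ ENNReal.ofReal B := by
              rw [← ofReal_norm]
              exact ENNReal.ofReal_le_ofReal (hB s)
            calc ‖g (s + r)‖ₑ * ‖k s‖ₑ * ‖h r‖ₑ ≤ ‖g (s + r)‖ₑ * ENNReal.ofReal B * ‖h r‖ₑ := by
                  gcongr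
              _ = _ := by ring
        _ = ENNReal.ofReal B * ∫⁻ r, ‖g (s + r)‖ₑ * ‖h r‖ₑ :=
            lintegral_const_mul _ (hgs.enorm.mul hh.enorm)
        _ ≤ _ := by
            gcongr
            refine (cs hgs hh).trans ?_
            rw [htr s]
    refine (lintegral_mono h3).trans_lt ?_
    rw [lintegral_const]
    refine ENNReal.mul_lt_top (ENNReal.mul_lt_top ENNReal.ofReal_lt_top (ENNReal.mul_lt_top ?_ ?_)) ?_
    · exact ENNReal.rpow_lt_top_of_nonneg (by norm_num) h1.ne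
    · exact ENNReal.rpow_lt_top_of_nonneg (by norm_num) h2.ne
    · simp
  have hsw := integral_integral_swap (f := fun (r s : ℝ) => g (s + r) * k s * h r) hFi
  have hin : ∀ s : ℝ, ∫ r : ℝ, g (s + r) * k s * h r = 0 := by
    intro s
    have : ∀ r : ℝ, g (s + r) * k s * h r = k s * (g (s + r) * h r) := fun r => by ring
    simp_rw [this]
    rw [integral_const_mul, h0 s, mul_zero]
  simp_rw [hin] at hsw
  rw [integral_zero] at hsw
  have hgh : Integrable (fun r => g r * h r) := int_mul hg.measurable hh h1 h2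
  have hgh0 : ∫ r, g r * h r = 0 := by
    have := h0 0
    simpa using this
  have hin2 : Integrable (fun r => ∫ s in Set.Ioc 0 T, g (s + r) * k s * h r) :=
    hFi.integral_prod_left
  have hpt : ∀ r, (g r + c * ∫ s in (0 : ℝ)..T, g (s + r) * k s) * h r =
      g r * h r + c * ∫ s in Set.Ioc 0 T, g (s + r) * k s * h r := by
    intro r
    rw [intervalIntegral.integral_of_le hT, integral_mul_const]
    ring
  simp_rw [hpt]
  rw [integral_add hgh (hin2.const_mul c), hgh0, integral_const_mul, hsw, mul_zero, add_zero]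

end W5

theorem t_W5 : St_W5 := by
  intro ι U e hF κ κ' C ψ ψp hC hlim h hh h2 h0
  set g : ℝ → ℂ := fun r => ⟪e, (U κ).U r ψ⟫_ℂ with hg
  set k : ℝ → ℂ := fun s => ⟪e, (U κ').U (-s) e⟫_ℂ with hk
  have hgc : Continuous g := continuous_const.inner ((U κ).cont' ψ)
  have hkc : Continuous k := continuous_const.inner (((U κ').cont' e).comp continuous_neg)
  have hkB : ∀ s, ‖k s‖ ≤ ‖e‖ * ‖e‖ := by
    intro s
    refine (norm_inner_le_norm _ _).trans ?_
    rw [(U κ').norm']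
  have hg2 : ∫⁻ r, ‖g r‖ₑ ^ 2 < ∞ := (hC e).trans_lt ENNReal.ofReal_lt_top
  set f : ℕ → ℝ → ℂ := fun n r => ⟪e, (U κ').U (-(n : ℝ)) ((U κ).U n ((U κ).U r ψ))⟫_ℂ with hf
  have hfe : ∀ n r, f n r = g r + (Complex.I * ((κ' - κ : ℝ) : ℂ)) *
      ∫ s in (0 : ℝ)..(n : ℝ), g (s + r) * k s := by
    intro n r
    simp only [hf, hg, hk]
    rw [W5.star hF]
    congr 2
    refine intervalIntegral.integral_congr fun s _ => ?_
    show ⟪e, (U κ).U s ((U κ).U r ψ)⟫_ℂ * ⟪e, (U κ').U (-s) e⟫_ℂ = _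
    rw [← (U κ).add']
  have hzero : ∀ n, ∫ r, f n r * h r = 0 := by
    intro n
    simp_rw [hfe n]
    refine W5.fub hgc hkc hh hkB hg2 h2 ?_ (Nat.cast_nonneg n) _
    intro s
    have := h0 s
    simp_rw [add_comm _ s] at this
    exact this
  have hfm : ∀ n, Measurable (f n) := by
    intro n
    have : Continuous (f n) := by
      refine continuous_const.inner ?_
      exact ((U κ').U _).continuous.comp (((U κ).U _).continuous.comp ((U κ).cont' ψ))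
    exact this.measurable
  have hw := W5.weak (f := f) (g := fun r => ⟪e, (U κ').U r ψp⟫_ℂ) (h := h) (M := ‖e‖ * ‖ψ‖)
    (K := ENNReal.ofReal (C * ‖e‖ ^ 2)) hfm hh ?_ ENNReal.ofReal_lt_top ?_ h2 ?_
  · simp_rw [hzero] at hw
    exact (tendsto_nhds_unique hw tendsto_const_nhds)
  · intro n r
    refine (norm_inner_le_norm _ _).trans ?_
    rw [(U κ').norm', (U κ).norm', (U κ).norm']
  · intro n
    have h3 : ∀ r, f n r = ⟪(U κ).U (-(n : ℝ)) ((U κ').U n e), (U κ).U r ψ⟫_ℂ := by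
      intro r
      rw [NN.inner_adj, neg_neg, NN.inner_adj]
    simp_rw [h3]
    refine (hC _).trans ?_
    rw [(U κ).norm', (U κ').norm']
  · intro r
    have h4 : ∀ n : ℕ, (U κ').U (-(n : ℝ)) ((U κ).U n ((U κ).U r ψ)) =
        (U κ').U r ((U κ').U (-((n : ℝ) + r)) ((U κ).U ((n : ℝ) + r) ψ)) := by
      intro n
      rw [← (U κ).add', ← (U κ').add']
      congr 2
      ring
    have h5 : Tendsto (fun n : ℕ => (n : ℝ) + r) atTop atTop :=
      tendsto_atTop_add_const_right _ _ tendsto_natCast_atTop_atTop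
    have h6 := (((U κ').U r).continuous.tendsto _).comp (hlim.comp h5)
    have h7 : Tendsto (fun n : ℕ => (U κ').U (-(n : ℝ)) ((U κ).U n ((U κ).U r ψ))) atTop
        (𝓝 ((U κ').U r ψp)) := by
      refine h6.congr fun n => ?_
      rw [h4 n]
      rfl
    exact tendsto_const_nhds.inner h7

end Pool.Agent.H5R2.NBA
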