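import Pool.Agent.H5R2.NBA.Defs
import Pool.Agent.H5R2.NB.NN
import Pool.Agent.H5R2.NB.BP

set_option autoImplicit false

open MeasureTheory Filter Topology
open scoped BigOperators ENNReal NNReal InnerProductSpace ComplexConjugate

namespace Pool.Agent.H5R2.NBA

open Pool.Agent.H5R2.NB

namespace W6

variable {ι : Type}

theorem cont_avi (W : UG (L2 ι)) (v : L2 ι →L[ℂ] L2 ι) (x : L2 ι) :
    Continuous fun s : ℝ => W.U (-s) (v (W.U s x)) := by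
  rw [continuous_iff_continuousAt]
  intro s
  have h1 : Continuous fun s : ℝ => v (W.U s x) := v.continuous.comp (W.cont' x)
  have h2 : Continuous fun r : ℝ => W.U (-r) (v (W.U s x)) :=
    (W.cont' (v (W.U s x))).comp continuous_neg
  rw [ContinuousAt, tendsto_iff_norm_sub_tendsto_zero]
  have h3 : Tendsto (fun r : ℝ => ‖v (W.U r x) - v (W.U s x)‖ +
      ‖W.U (-r) (v (W.U s x)) - W.U (-s) (v (W.U s x))‖) (𝓝 s) (𝓝 0) := by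
    have a := (tendsto_iff_norm_sub_tendsto_zero.1 (h1.tendsto s)).add
      (tendsto_iff_norm_sub_tendsto_zero.1 (h2.tendsto s))
    simpa using a
  refine squeeze_zero (fun r => norm_nonneg _) (fun r => ?_) h3
  have h4 : W.U (-r) (v (W.U r x)) - W.U (-s) (v (W.U s x)) =
      W.U (-r) (v (W.U r x) - v (W.U s x)) +
        (W.U (-r) (v (W.U s x)) - W.U (-s) (v (W.U s x))) := by
    rw [map_sub]; abel
  rw [h4]
  refine (norm_add_le _ _).trans ?_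
  rw [W.norm']

theorem avP_symm (W : UG (L2 ι)) (v : L2 ι →L[ℂ] L2 ι)
    (hv : ∀ x y, ⟪v x, y⟫_ℂ = ⟪x, v y⟫_ℂ) (N : ℕ) (x y : L2 ι) :
    ⟪avP W v N x, y⟫_ℂ = ⟪x, avP W v N y⟫_ℂ := by
  have h1 : ∀ s : ℝ, ⟪W.U (-s) (v (W.U s x)), y⟫_ℂ = ⟪x, W.U (-s) (v (W.U s y))⟫_ℂ := by
    intro s
    rw [NN.inner_adj, neg_neg, hv, NN.inner_adj]
  unfold avP
  rw [inner_smul_left, inner_smul_right]
  have hc : conj ((N : ℂ)⁻¹) = (N : ℂ)⁻¹ := by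
    rw [map_inv₀, Complex.conj_natCast]
  rw [hc]
  congr 1
  have hi1 : IntervalIntegrable (fun s : ℝ => W.U (-s) (v (W.U s x))) volume 0 (N : ℝ) :=
    (cont_avi W v x).intervalIntegrable _ _
  have hi2 : IntervalIntegrable (fun s : ℝ => W.U (-s) (v (W.U s y))) volume 0 (N : ℝ) :=
    (cont_avi W v y).intervalIntegrable _ _
  have e2 : ⟪x, ∫ s in (0 : ℝ)..(N : ℝ), W.U (-s) (v (W.U s y))⟫_ℂ =
      ∫ s in (0 : ℝ)..(N : ℝ), ⟪x, W.U (-s) (v (W.U s y))⟫_ℂ := by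
    have a := (innerSL ℂ x).intervalIntegral_comp_comm hi2
    simpa using a.symm
  have e1 : ⟪y, ∫ s in (0 : ℝ)..(N : ℝ), W.U (-s) (v (W.U s x))⟫_ℂ =
      ∫ s in (0 : ℝ)..(N : ℝ), ⟪y, W.U (-s) (v (W.U s x))⟫_ℂ := by
    have a := (innerSL ℂ y).intervalIntegral_comp_comm hi1
    simpa using a.symm
  have e0 : ⟪∫ s in (0 : ℝ)..(N : ℝ), W.U (-s) (v (W.U s x)), y⟫_ℂ =
      conj (∫ s in (0 : ℝ)..(N : ℝ), ⟪y, W.U (-s) (v (W.U s x))⟫_ℂ) := by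
    rw [← e1]
    exact (inner_conj_symm _ _).symm
  refine e0.trans ?_
  refine Eq.trans ?_ e2.symm
  rw [intervalIntegral.integral_of_le (Nat.cast_nonneg N),
    intervalIntegral.integral_of_le (Nat.cast_nonneg N), ← integral_conj]
  refine integral_congr_ae (Eventually.of_forall fun s => ?_)
  show conj ⟪y, W.U (-s) (v (W.U s x))⟫_ℂ = ⟪x, W.U (-s) (v (W.U s y))⟫_ℂ
  rw [inner_conj_symm, h1]

theorem B_symm (W : UG (L2 ι)) (v : L2 ι →L[ℂ] L2 ι)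
    (hv : ∀ x y, ⟪v x, y⟫_ℂ = ⟪x, v y⟫_ℂ) (Nk : ℕ → ℕ) (B : L2 ι →L[ℂ] L2 ι)
    (hB : Good W v Nk B) (x y : L2 ι) : ⟪B x, y⟫_ℂ = ⟪x, B y⟫_ℂ := by
  have h1 : Tendsto (fun k => ⟪avP W v (Nk k) x, y⟫_ℂ) atTop (𝓝 ⟪B x, y⟫_ℂ) :=
    (hB x).1.inner tendsto_const_nhds
  have h2 : Tendsto (fun k => ⟪x, avP W v (Nk k) y⟫_ℂ) atTop (𝓝 ⟪x, B y⟫_ℂ) :=
    tendsto_const_nhds.inner (hB y).1
  refine tendsto_nhds_unique h1 (h2.congr fun k => ?_)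
  rw [avP_symm W v hv]

theorem minf_mono {W : UG (L2 ι)} {C C' : ℝ} {ψ : L2 ι} (h : Minf W C ψ) (hC : C ≤ C') :
    Minf W C' ψ := fun φ => (h φ).trans (ENNReal.ofReal_le_ofReal
      (mul_le_mul_of_nonneg_right hC (by positivity)))

theorem minf_shift {W : UG (L2 ι)} {C : ℝ} {ψ : L2 ι} (h : Minf W C ψ) (s : ℝ) :
    Minf W C (W.U s ψ) := by
  intro φ
  have h1 : (∫⁻ t : ℝ, ‖⟪φ, W.U t (W.U s ψ)⟫_ℂ‖ₑ ^ 2) = ∫⁻ t : ℝ, ‖⟪φ, W.U t ψ⟫_ℂ‖ₑ ^ 2 := by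
    rw [← lintegral_add_right_eq_self (μ := volume) (fun t : ℝ => ‖⟪φ, W.U t ψ⟫_ℂ‖ₑ ^ 2) s]
    refine lintegral_congr fun t => ?_
    rw [W.add']
  rw [h1]
  exact h φ

end W6

open W6 in
theorem t_W6 (hWP : St_WP) (hWI : St_WI) (hW3 : St_W3) (hW4 : St_W4) (hW5 : St_W5) : St_W6 := by
  intro ι U e hF κ κ' hκ v hv Nk hNk B B' hB hB' C φ hφ hort
  -- basic facts
  have hsym := B_symm (U κ') v hv Nk B' hB'
  obtain ⟨hBn, hBc⟩ := t_BP ι (U κ') v Nk hNk B' hB'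
  set C₁ : ℝ := max C 0 with hC₁
  have hC₁0 : 0 ≤ C₁ := le_max_right _ _
  have hφ₁ : Minf (U κ') C₁ φ := minf_mono hφ (le_max_left _ _)
  -- eta
  set η : L2 ι := B' φ with hη
  have hηM : Minf (U κ') (C₁ * ‖v‖ ^ 2) η := by
    intro φ₁
    have h1 : (∫⁻ t : ℝ, ‖⟪φ₁, (U κ').U t η⟫_ℂ‖ₑ ^ 2) =
        ∫⁻ t : ℝ, ‖⟪B' φ₁, (U κ').U t φ⟫_ℂ‖ₑ ^ 2 := by
      refine lintegral_congr fun t => ?_
      rw [hη, ← hBc, hsym]
    rw [h1]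
    refine (hφ₁ (B' φ₁)).trans (ENNReal.ofReal_le_ofReal ?_)
    have h2 := hBn φ₁
    have h3 : ‖B' φ₁‖ ^ 2 ≤ (‖v‖ * ‖φ₁‖) ^ 2 := pow_le_pow_left₀ (norm_nonneg _) h2 2
    calc C₁ * ‖B' φ₁‖ ^ 2 ≤ C₁ * (‖v‖ * ‖φ₁‖) ^ 2 := mul_le_mul_of_nonneg_left h3 hC₁0
      _ = C₁ * ‖v‖ ^ 2 * ‖φ₁‖ ^ 2 := by ring
  -- U_t φ = U'_t φ
  obtain ⟨hort2, hUU⟩ := t_NN ι U e hF κ' κ φ hort
  have hconst : (fun t : ℝ => (U κ').U (-t) ((U κ).U t φ)) = fun _ => φ := by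
    funext t
    rw [hUU t, ← (U κ').add', neg_add_cancel, (U κ').zero']
  have hφtop : Tendsto (fun t : ℝ => (U κ').U (-t) ((U κ).U t φ)) atTop (𝓝 φ) := by
    rw [hconst]; exact tendsto_const_nhds
  have hφbot : Tendsto (fun t : ℝ => (U κ').U (-t) ((U κ).U t φ)) atBot (𝓝 φ) := by
    rw [hconst]; exact tendsto_const_nhds
  -- key vanishing
  have key : ∀ (C0 : ℝ) (ψ0 : L2 ι), Minf (U κ) C0 ψ0 →
      ∫ s : ℝ, ⟪e, (U κ).U s ψ0⟫_ℂ * ⟪η, (U κ').U (-s) e⟫_ℂ = 0 := by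
    intro C0 ψ0 hψ0
    obtain ⟨⟨ψp, hp⟩, ⟨ψm, hm⟩⟩ := hWP ι U e hF κ κ' C0 ψ0 hψ0
    have a1 := hW3 ι (U κ) (U κ') v Nk hNk B B' hB hB' atTop (Or.inl rfl) φ φ ψ0 ψp hφtop hp
    have a2 := hW3 ι (U κ) (U κ') v Nk hNk B B' hB hB' atBot (Or.inr rfl) φ φ ψ0 ψm hφbot hm
    have a3 : ⟪η, ψp - ψm⟫_ℂ = 0 := by
      rw [inner_sub_right, hη, hsym, hsym, a1, a2, sub_self]
    have a4 := hW4 ι U e hF κ κ' C0 (C₁ * ‖v‖ ^ 2) ψ0 ψp ψm η hψ0 hηM hp hm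
    rw [a3] at a4
    have a5 : Complex.I * ((κ' - κ : ℝ) : ℂ) ≠ 0 := by
      refine mul_ne_zero Complex.I_ne_zero ?_
      rw [Ne, Complex.ofReal_eq_zero, sub_eq_zero]
      exact fun h => hκ h.symm
    exact (mul_eq_zero.1 a4.symm).resolve_left a5
  -- the function h
  have hconj : ∀ r : ℝ, ⟪η, (U κ').U (-r) e⟫_ℂ = conj ⟪e, (U κ').U r η⟫_ℂ := by
    intro r
    rw [inner_conj_symm, NN.inner_adj]
  have hcontg : Continuous fun r : ℝ => ⟪e, (U κ').U r η⟫_ℂ :=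
    continuous_const.inner ((U κ').cont' η)
  have hconth : Continuous fun r : ℝ => ⟪η, (U κ').U (-r) e⟫_ℂ :=
    continuous_const.inner (((U κ').cont' e).comp continuous_neg)
  have hfin : (∫⁻ r : ℝ, ‖⟪η, (U κ').U (-r) e⟫_ℂ‖ₑ ^ 2) < ∞ := by
    refine lt_of_le_of_lt ?_ (ENNReal.ofReal_lt_top (r := C₁ * ‖v‖ ^ 2 * ‖e‖ ^ 2))
    refine le_trans (le_of_eq ?_) (hηM e)
    refine lintegral_congr fun r => ?_
    rw [hconj, RCLike.enorm_conj]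
  -- the choice of ψ0
  obtain ⟨⟨ψ0, hψ0t⟩, -⟩ := hWP ι U e hF κ' κ (C₁ * ‖v‖ ^ 2) η hηM
  obtain ⟨-, -, hI3, hI4⟩ := hWI ι (U κ') (U κ) atTop (Or.inl rfl) η ψ0 hψ0t
  have hψ0M := hI3 _ hηM
  have hzero : ∫ r : ℝ, ⟪e, (U κ').U r η⟫_ℂ * ⟪η, (U κ').U (-r) e⟫_ℂ = 0 := by
    refine hW5 ι U e hF κ κ' _ ψ0 η hψ0M hI4 (fun r => ⟪η, (U κ').U (-r) e⟫_ℂ)
      hconth.measurable hfin ?_
    intro s
    have b := key _ ((U κ).U s ψ0) (minf_shift hψ0M s)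
    rw [← b]
    refine integral_congr_ae (Eventually.of_forall fun r => ?_)
    show ⟪e, (U κ).U (r + s) ψ0⟫_ℂ * _ = ⟪e, (U κ).U r ((U κ).U s ψ0)⟫_ℂ * _
    rw [(U κ).add']
  -- conclusion
  have hsq : ∀ r : ℝ, ⟪e, (U κ').U r η⟫_ℂ * ⟪η, (U κ').U (-r) e⟫_ℂ =
      ((‖⟪e, (U κ').U r η⟫_ℂ‖ ^ 2 : ℝ) : ℂ) := by
    intro r
    rw [hconj, Complex.mul_conj, Complex.normSq_eq_norm_sq]
  have hreal : ∫ r : ℝ, ‖⟪e, (U κ').U r η⟫_ℂ‖ ^ 2 = 0 := by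
    have c1 : ((∫ r : ℝ, ‖⟪e, (U κ').U r η⟫_ℂ‖ ^ 2 : ℝ) : ℂ) = 0 := by
      rw [← integral_complex_ofReal, ← hzero]
      exact integral_congr_ae (Eventually.of_forall fun r => (hsq r).symm)
    exact_mod_cast c1
  have hcont2 : Continuous fun r : ℝ => ‖⟪e, (U κ').U r η⟫_ℂ‖ ^ 2 := (hcontg.norm).pow 2
  have hint : Integrable (fun r : ℝ => ‖⟪e, (U κ').U r η⟫_ℂ‖ ^ 2) := by
    refine ⟨hcont2.aestronglyMeasurable, ?_⟩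
    refine lt_of_le_of_lt (le_of_eq ?_) hfin
    refine lintegral_congr fun r => ?_
    rw [hconj, RCLike.enorm_conj, enorm_pow, enorm_norm]
  have hae := (integral_eq_zero_iff_of_nonneg (fun r => by positivity) hint).1 hreal
  have hall : (fun r : ℝ => ‖⟪e, (U κ').U r η⟫_ℂ‖ ^ 2) = fun _ => (0 : ℝ) :=
    (Continuous.ae_eq_iff_eq volume hcont2 continuous_const).1 hae
  intro t
  have d1 := congrFun hall (-t)
  have d2 : ⟪e, (U κ').U (-t) η⟫_ℂ = 0 := by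
    have := pow_eq_zero_iff (two_ne_zero) |>.1 d1
    exact norm_eq_zero.1 this
  have d3 := hconj (-t)
  rw [neg_neg, d2, map_zero] at d3
  exact d3

end Pool.Agent.H5R2.NBA
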