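import Pool.Agent.H5R2.NBA.Defs
import Pool.Agent.H5R2.NB.NN

/-! Task WI: general properties of the wave operators. -/

set_option autoImplicit false

open MeasureTheory Filter Topology
open scoped BigOperators ENNReal NNReal InnerProductSpace ComplexConjugate

namespace Pool.Agent.H5R2.NBA

open Pool.Agent.H5R2.NB

theorem WI.seq_of_l {l : Filter ℝ} (hl : l = atTop ∨ l = atBot) :
    ∃ a : ℕ → ℝ, Tendsto a atTop l := by
  rcases hl with rfl | rfl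
  · exact ⟨fun n => (n : ℝ), tendsto_natCast_atTop_atTop⟩
  · exact ⟨fun n => -(n : ℝ), tendsto_neg_atTop_atBot.comp tendsto_natCast_atTop_atTop⟩

theorem WI.neBot_of_l {l : Filter ℝ} (hl : l = atTop ∨ l = atBot) : l.NeBot := by
  rcases hl with rfl | rfl <;> infer_instance

theorem WI.shift_of_l {l : Filter ℝ} (hl : l = atTop ∨ l = atBot) (τ : ℝ) :
    Tendsto (fun t : ℝ => t + τ) l l := by
  rcases hl with rfl | rfl
  · exact tendsto_atTop_add_const_right _ _ tendsto_id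
  · exact tendsto_atBot_add_const_right _ _ tendsto_id

theorem t_WI : St_WI := by
  intro ι W W' l hl ψ ψp hψ
  haveI := WI.neBot_of_l hl
  have h1 : ‖ψp‖ = ‖ψ‖ := by
    have h := hψ.norm
    simp only [UG.norm'] at h
    exact (tendsto_nhds_unique h tendsto_const_nhds)
  have h2 : ∀ τ : ℝ, Tendsto (fun t : ℝ => W'.U (-t) (W.U t (W.U τ ψ))) l
      (𝓝 (W'.U τ ψp)) := by
    intro τ
    have h3 : Tendsto (fun t : ℝ => W'.U τ (W'.U (-(t + τ)) (W.U (t + τ) ψ))) l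
        (𝓝 (W'.U τ ψp)) :=
      ((W'.U τ).continuous.tendsto _).comp (hψ.comp (WI.shift_of_l hl τ))
    refine h3.congr fun t => ?_
    rw [← W'.add', ← W.add']
    congr 2
    ring
  refine ⟨h1, h2, fun C hC φ => ?_, ?_⟩
  · obtain ⟨a, ha⟩ := WI.seq_of_l hl
    have h4 : ∀ τ : ℝ, Tendsto (fun n => ‖⟪φ, W'.U (-(a n)) (W.U (a n) (W.U τ ψ))⟫_ℂ‖ₑ ^ 2) atTop
        (𝓝 (‖⟪φ, W'.U τ ψp⟫_ℂ‖ₑ ^ 2)) := by
      intro τ
      have h5 : Tendsto (fun n => ⟪φ, W'.U (-(a n)) (W.U (a n) (W.U τ ψ))⟫_ℂ) atTop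
          (𝓝 ⟪φ, W'.U τ ψp⟫_ℂ) := tendsto_const_nhds.inner ((h2 τ).comp ha)
      exact (ENNReal.continuous_pow 2).continuousAt.tendsto.comp h5.enorm
    have h6 : ∀ n, ∫⁻ τ : ℝ, ‖⟪φ, W'.U (-(a n)) (W.U (a n) (W.U τ ψ))⟫_ℂ‖ₑ ^ 2 ≤
        ENNReal.ofReal (C * ‖φ‖ ^ 2) := by
      intro n
      have h7 : ∀ τ : ℝ, ⟪φ, W'.U (-(a n)) (W.U (a n) (W.U τ ψ))⟫_ℂ =
          ⟪W.U (-(a n)) (W'.U (a n) φ), W.U τ ψ⟫_ℂ := by
        intro τ
        rw [NN.inner_adj, neg_neg, NN.inner_adj]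
      simp only [h7]
      have h8 := hC (W.U (-(a n)) (W'.U (a n) φ))
      rwa [W.norm', W'.norm'] at h8
    have h9 : ∫⁻ τ : ℝ, ‖⟪φ, W'.U τ ψp⟫_ℂ‖ₑ ^ 2 =
        ∫⁻ τ : ℝ, liminf (fun n => ‖⟪φ, W'.U (-(a n)) (W.U (a n) (W.U τ ψ))⟫_ℂ‖ₑ ^ 2) atTop := by
      refine lintegral_congr fun τ => ?_
      exact (h4 τ).liminf_eq.symm
    rw [h9]
    refine (lintegral_liminf_le ?_).trans ?_
    · intro n
      have h10 : Continuous fun τ : ℝ => ⟪φ, W'.U (-(a n)) (W.U (a n) (W.U τ ψ))⟫_ℂ :=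
        continuous_const.inner
          ((W'.U _).continuous.comp ((W.U _).continuous.comp (W.cont' ψ)))
      exact ((ENNReal.continuous_pow 2).comp h10.enorm).measurable
    · refine (liminf_le_liminf (Eventually.of_forall h6)).trans ?_
      rw [liminf_const]
  · rw [tendsto_iff_norm_sub_tendsto_zero]
    have h11 : Tendsto (fun t : ℝ => ‖W'.U (-t) (W.U t ψ) - ψp‖) l (𝓝 0) :=
      tendsto_iff_norm_sub_tendsto_zero.1 hψ
    refine h11.congr fun t => ?_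
    have e1 : W.U (-t) (W'.U t ψp) - ψ = W.U (-t) (W'.U t (ψp - W'.U (-t) (W.U t ψ))) := by
      rw [map_sub, map_sub, ← W'.add', add_neg_cancel, W'.zero', ← W.add' (-t) t,
        neg_add_cancel, W.zero']
    rw [e1, W.norm', W'.norm', norm_sub_rev]

end Pool.Agent.H5R2.NBA
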