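import Pool.Agent.H5R2.NBA.Defs
import Pool.Agent.H5R2.NB.NN

/-! # Task WP: existence of the wave operators of a rank one perturbation -/

set_option autoImplicit false

open MeasureTheory Filter Topology
open scoped BigOperators ENNReal NNReal InnerProductSpace ComplexConjugate

namespace Pool.Agent.H5R2.NBA

open Pool.Agent.H5R2.NB

namespace WP

variable {ι : Type}

theorem minf_integrable {W : UG (L2 ι)} {C : ℝ} {ψ : L2 ι} (h : Minf W C ψ) (φ : L2 ι) :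
    Integrable (fun t : ℝ => ‖⟪φ, W.U t ψ⟫_ℂ‖ ^ 2) ∧
      ∫ t : ℝ, ‖⟪φ, W.U t ψ⟫_ℂ‖ ^ 2 ≤ |C| * ‖φ‖ ^ 2 := by
  have hc : Continuous fun t : ℝ => ‖⟪φ, W.U t ψ⟫_ℂ‖ ^ 2 :=
    ((continuous_const.inner (W.cont' ψ)).norm).pow 2
  have e1 : ∀ t : ℝ, ‖(‖⟪φ, W.U t ψ⟫_ℂ‖ ^ 2 : ℝ)‖ₑ = ‖⟪φ, W.U t ψ⟫_ℂ‖ₑ ^ 2 := by
    intro t
    rw [enorm_pow, enorm_norm]
  have e2 : ∀ t : ℝ, ENNReal.ofReal (‖⟪φ, W.U t ψ⟫_ℂ‖ ^ 2) = ‖⟪φ, W.U t ψ⟫_ℂ‖ₑ ^ 2 := by
    intro t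
    rw [← e1 t, Real.enorm_of_nonneg (by positivity)]
  constructor
  · refine ⟨hc.aestronglyMeasurable, ?_⟩
    rw [hasFiniteIntegral_iff_enorm]
    simp only [e1]
    exact (h φ).trans_lt ENNReal.ofReal_lt_top
  · rw [integral_eq_lintegral_of_nonneg_ae (Eventually.of_forall fun t => by positivity)
      hc.aestronglyMeasurable]
    simp only [e2]
    have h2 : ∫⁻ t : ℝ, ‖⟪φ, W.U t ψ⟫_ℂ‖ₑ ^ 2 ≤ ENNReal.ofReal (|C| * ‖φ‖ ^ 2) := by
      refine (h φ).trans (ENNReal.ofReal_le_ofReal ?_)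
      gcongr
      exact le_abs_self C
    exact ENNReal.toReal_le_of_le_ofReal (by positivity) h2

theorem cU (W : UG (L2 ι)) (x : L2 ι) {f : ℝ → ℝ} (hf : Continuous f) :
    Continuous fun s => W.U (f s) x := (W.cont' x).comp hf

theorem cgU (W W' : UG (L2 ι)) (x e : L2 ι) {f g : ℝ → ℝ} (hf : Continuous f)
    (hg : Continuous g) : Continuous fun s => ⟪e, W.U (f s) x⟫_ℂ • W'.U (g s) e := by
  have h1 := cU W x hf
  have h2 := cU W' e hg
  fun_prop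

theorem tail {f : ℝ → ℝ} (hf : Integrable f) {ε : ℝ} (hε : 0 < ε) :
    ∃ T : ℝ, ∀ a b : ℝ, T ≤ a → T ≤ b → |∫ x in a..b, f x| ≤ ε := by
  have h := intervalIntegral_tendsto_integral_Ioi 0 hf.integrableOn tendsto_id
  rw [Metric.tendsto_atTop] at h
  obtain ⟨T, hT⟩ := h (ε / 2) (by positivity)
  refine ⟨T, fun a b ha hb => ?_⟩
  have h1 := hT a ha
  have h2 := hT b hb
  rw [← intervalIntegral.integral_interval_sub_left (a := 0) hf.intervalIntegrable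
    hf.intervalIntegrable]
  simp only [id] at h1 h2
  rw [Real.dist_eq] at h1 h2
  rw [abs_le]
  rw [abs_lt] at h1 h2
  constructor <;> linarith [h1.1, h1.2, h2.1, h2.2]

theorem weak {W : UG (L2 ι)} {C : ℝ} {ψ : L2 ι} (h : Minf W C ψ) (φ : L2 ι) :
    Tendsto (fun t : ℝ => ⟪φ, W.U t ψ⟫_ℂ) atTop (𝓝 0) := by
  rw [Metric.tendsto_atTop]
  intro ε hε
  -- uniform continuity
  have hc : Tendsto (fun η : ℝ => ‖φ‖ * ‖W.U η ψ - ψ‖) (𝓝 0) (𝓝 0) := by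
    have h1 : Continuous fun η : ℝ => ‖φ‖ * ‖W.U η ψ - ψ‖ :=
      continuous_const.mul ((W.cont' ψ).sub continuous_const).norm
    exact h1.tendsto' _ _ (by simp [W.zero'])
  rw [Metric.tendsto_nhds_nhds] at hc
  obtain ⟨η, hη, hηε⟩ := hc (ε / 2) (by positivity)
  have hint := (minf_integrable h φ).1
  obtain ⟨T, hT⟩ := tail hint (ε := η / 2 * (ε / 2) ^ 2 / 2) (by positivity)
  refine ⟨T, fun a ha => ?_⟩
  by_contra hcon
  push Not at hcon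
  rw [dist_zero_right] at hcon
  have h3 : ∀ r ∈ Set.Icc a (a + η / 2), (ε / 2) ^ 2 ≤ ‖⟪φ, W.U r ψ⟫_ℂ‖ ^ 2 := by
    intro r hr
    have h4 : ‖⟪φ, W.U r ψ⟫_ℂ - ⟪φ, W.U a ψ⟫_ℂ‖ ≤ ε / 2 := by
      have e1 : ⟪φ, W.U r ψ⟫_ℂ - ⟪φ, W.U a ψ⟫_ℂ = ⟪φ, W.U a (W.U (r - a) ψ - ψ)⟫_ℂ := by
        rw [map_sub, inner_sub_right, ← W.add']
        congr 3
        ring_nf
      rw [e1]
      refine (norm_inner_le_norm _ _).trans ?_
      rw [W.norm']
      have h5 := hηε (x := r - a) (by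
        rw [dist_zero_right, Real.norm_eq_abs, abs_of_nonneg (by linarith [hr.1])]
        linarith [hr.2])
      rw [dist_zero_right, Real.norm_eq_abs] at h5
      exact (le_abs_self _).trans h5.le
    have h6 : ε / 2 ≤ ‖⟪φ, W.U r ψ⟫_ℂ‖ := by
      have h7 := norm_sub_norm_le (⟪φ, W.U a ψ⟫_ℂ) (⟪φ, W.U r ψ⟫_ℂ)
      rw [norm_sub_rev] at h7
      linarith
    gcongr
  have h8 : η / 2 * (ε / 2) ^ 2 ≤ ∫ r in a..(a + η / 2), ‖⟪φ, W.U r ψ⟫_ℂ‖ ^ 2 := by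
    have h9 := intervalIntegral.integral_mono_on (a := a) (b := a + η / 2)
      (f := fun _ => (ε / 2) ^ 2) (g := fun r => ‖⟪φ, W.U r ψ⟫_ℂ‖ ^ 2) (μ := volume)
      (by linarith) intervalIntegrable_const hint.intervalIntegrable h3
    rw [intervalIntegral.integral_const, smul_eq_mul] at h9
    linarith
  have h10 := hT a (a + η / 2) ha (by linarith)
  have h11 := (le_abs_self _).trans h10
  have h12 : 0 < η / 2 * (ε / 2) ^ 2 := by positivity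
  linarith

/-- `(U'_τ - U_τ) U_a ψ → 0` -/
theorem diff_tendsto {U : ℝ → UG (L2 ι)} {e : L2 ι} (hF : Fam U e) {κ κ' C : ℝ} {ψ : L2 ι}
    (h : Minf (U κ) C ψ) (τ : ℝ) :
    Tendsto (fun a : ℝ => (U κ').U τ ((U κ).U a ψ) - (U κ).U τ ((U κ).U a ψ)) atTop (𝓝 0) := by
  have e1 : ∀ a : ℝ, (U κ').U τ ((U κ).U a ψ) - (U κ).U τ ((U κ).U a ψ) =
      -((Complex.I * ((κ' - κ : ℝ) : ℂ)) •
      ∫ s in (0 : ℝ)..τ, ⟪e, (U κ').U s ((U κ).U a ψ)⟫_ℂ • (U κ).U (τ - s) e) := by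
    intro a
    rw [hF κ κ' τ ((U κ).U a ψ)]
    abel
  simp only [e1]
  suffices hs : Tendsto (fun a : ℝ => ∫ s in (0 : ℝ)..τ,
      ⟪e, (U κ').U s ((U κ).U a ψ)⟫_ℂ • (U κ).U (τ - s) e) atTop (𝓝 0) by
    have h1 := (hs.const_smul (Complex.I * ((κ' - κ : ℝ) : ℂ))).neg
    rwa [smul_zero, neg_zero] at h1
  have e2 : (0 : L2 ι) = ∫ s in (0 : ℝ)..τ, (0 : L2 ι) := by simp
  rw [e2]
  refine intervalIntegral.tendsto_integral_filter_of_dominated_convergence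
    (fun _ => ‖e‖ * ‖ψ‖ * ‖e‖) ?_ ?_ ?_ ?_
  · refine Eventually.of_forall fun a => ?_
    have h1 : Continuous fun s : ℝ => ⟪e, (U κ').U s ((U κ).U a ψ)⟫_ℂ • (U κ).U (τ - s) e :=
      cgU (U κ') (U κ) _ e continuous_id (by fun_prop)
    exact h1.aestronglyMeasurable
  · refine Eventually.of_forall fun a => Eventually.of_forall fun s _ => ?_
    rw [norm_smul, (U κ).norm']
    gcongr
    refine (norm_inner_le_norm _ _).trans ?_
    rw [(U κ').norm', (U κ).norm']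
  · exact intervalIntegrable_const
  · refine Eventually.of_forall fun s _ => ?_
    have h2 : Tendsto (fun a : ℝ => ⟪(U κ').U (-s) e, (U κ).U a ψ⟫_ℂ) atTop (𝓝 0) := weak h _
    have h3 : ∀ a : ℝ, ⟪e, (U κ').U s ((U κ).U a ψ)⟫_ℂ = ⟪(U κ').U (-s) e, (U κ).U a ψ⟫_ℂ := by
      intro a
      rw [NN.inner_adj, neg_neg]
    simp only [h3]
    rw [← zero_smul ℂ ((U κ).U (τ - s) e)]
    exact h2.smul_const _

/-- formula (*) -/
theorem star_formula {U : ℝ → UG (L2 ι)} {e : L2 ι} (hF : Fam U e) (κ κ' : ℝ) (ψ : L2 ι) (t : ℝ) :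
    (U κ').U (-t) ((U κ).U t ψ) = ψ + (Complex.I * ((κ' - κ : ℝ) : ℂ)) •
      ∫ s in (0 : ℝ)..t, ⟪e, (U κ).U s ψ⟫_ℂ • (U κ').U (-s) e := by
  rw [hF κ' κ t ψ, map_sub, ← (U κ').add', neg_add_cancel, (U κ').zero', map_smul,
    ← ContinuousLinearMap.intervalIntegral_comp_comm, sub_eq_add_neg, ← neg_smul]
  · congr 2
    · push_cast
      ring
    · refine intervalIntegral.integral_congr fun s _ => ?_
      rw [map_smul, ← (U κ').add']
      congr 3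
      ring
  · exact (cgU (U κ) (U κ') ψ e continuous_id (by fun_prop)).intervalIntegrable _ _

theorem hasDeriv {U : ℝ → UG (L2 ι)} {e : L2 ι} (hF : Fam U e) (κ κ' : ℝ) (ψ : L2 ι) (t : ℝ) :
    HasDerivAt (fun t : ℝ => (U κ').U (-t) ((U κ).U t ψ))
      ((Complex.I * ((κ' - κ : ℝ) : ℂ)) • (⟪e, (U κ).U t ψ⟫_ℂ • (U κ').U (-t) e)) t := by
  have h1 : (fun t : ℝ => (U κ').U (-t) ((U κ).U t ψ)) = fun t =>
      ψ + (Complex.I * ((κ' - κ : ℝ) : ℂ)) •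
      ∫ s in (0 : ℝ)..t, ⟪e, (U κ).U s ψ⟫_ℂ • (U κ').U (-s) e := by
    funext t
    exact star_formula hF κ κ' ψ t
  rw [h1]
  have hc : Continuous fun s : ℝ => ⟪e, (U κ).U s ψ⟫_ℂ • (U κ').U (-s) e :=
    cgU (U κ) (U κ') ψ e continuous_id (by fun_prop)
  have h2 := intervalIntegral.integral_hasDerivAt_right (a := 0) (b := t)
    (hc.intervalIntegrable _ _) hc.aestronglyMeasurable.stronglyMeasurableAtFilter hc.continuousAt
  exact (h2.const_smul (Complex.I * ((κ' - κ : ℝ) : ℂ))).const_add ψ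

theorem amgm (x y l : ℝ) (hl : 0 < l) : x * y ≤ l / 2 * x ^ 2 + 1 / (2 * l) * y ^ 2 := by
  have h : 0 ≤ (l * x - y) ^ 2 / (2 * l) := by positivity
  have e : (l * x - y) ^ 2 / (2 * l) = l / 2 * x ^ 2 + 1 / (2 * l) * y ^ 2 - x * y := by
    field_simp
    ring
  linarith

/-- integral estimate by AM-GM -/
theorem int_prod_le {f g : ℝ → ℝ} (hf : Continuous f) (hg : Continuous g) {l F G A : ℝ}
    (hl : 0 < l) (hA : 0 ≤ A) (h1 : ∫ a in (0 : ℝ)..A, f a ^ 2 ≤ F)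
    (h2 : ∫ a in (0 : ℝ)..A, g a ^ 2 ≤ G) :
    ∫ a in (0 : ℝ)..A, f a * g a ≤ l / 2 * F + 1 / (2 * l) * G := by
  have h3 : ∫ a in (0 : ℝ)..A, f a * g a ≤
      ∫ a in (0 : ℝ)..A, (l / 2 * f a ^ 2 + 1 / (2 * l) * g a ^ 2) := by
    refine intervalIntegral.integral_mono_on hA ?_ ?_ fun a _ => amgm _ _ _ hl
    · exact (hf.mul hg).intervalIntegrable _ _
    · exact ((continuous_const.mul (hf.pow 2)).add
        (continuous_const.mul (hg.pow 2))).intervalIntegrable _ _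
  rw [intervalIntegral.integral_add, intervalIntegral.integral_const_mul,
    intervalIntegral.integral_const_mul] at h3
  · refine h3.trans ?_
    gcongr
  · exact (continuous_const.mul (hf.pow 2)).intervalIntegrable _ _
  · exact (continuous_const.mul (hg.pow 2)).intervalIntegrable _ _

theorem minf_interval {W : UG (L2 ι)} {C : ℝ} {ψ : L2 ι} (h : Minf W C ψ) (φ : L2 ι) (s A : ℝ)
    (hA : 0 ≤ A) : ∫ a in (0 : ℝ)..A, ‖⟪φ, W.U (s + a) ψ⟫_ℂ‖ ^ 2 ≤ |C| * ‖φ‖ ^ 2 := by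
  obtain ⟨h1, h2⟩ := minf_integrable h φ
  refine le_trans ?_ h2
  rw [intervalIntegral.integral_comp_add_left (fun a => ‖⟪φ, W.U a ψ⟫_ℂ‖ ^ 2) s,
    intervalIntegral.integral_of_le (by linarith)]
  exact setIntegral_le_integral h1 (Eventually.of_forall fun t => by positivity)

/-- The basic estimate. -/
theorem basic {U : ℝ → UG (L2 ι)} {e : L2 ι} (hF : Fam U e) {κ κ' C : ℝ} {ψ : L2 ι}
    (h : Minf (U κ) C ψ) {ε : ℝ} (hε : 0 < ε) : ∃ T : ℝ, ∀ t s : ℝ, T ≤ t → T ≤ s →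
      ‖((‖ψ‖ ^ 2 : ℝ) : ℂ) - ⟪(U κ').U (-t) ((U κ).U t ψ), (U κ').U (-s) ((U κ).U s ψ)⟫_ℂ‖ ≤
        ε := by
  set M : ℝ := |κ' - κ| with hM
  set E : ℝ := |C| * ‖e‖ ^ 2 with hE
  have hM0 : 0 ≤ M := abs_nonneg _
  have hE0 : 0 ≤ E := by positivity
  set l : ℝ := 4 * M * E / ε + 1 with hl
  have hl0 : 0 < l := by positivity
  have hl1 : M * (1 / (2 * l) * E) ≤ ε / 8 := by
    have h1 : 4 * M * E / ε ≤ l := by linarith
    rw [div_le_iff₀ hε] at h1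
    have h2 : M * (1 / (2 * l) * E) = (M * E) / (2 * l) := by ring
    rw [h2, div_le_iff₀ (by positivity)]
    linarith
  set F : ℝ := ε / (4 * (M * l + 1)) with hFd
  have hF0 : 0 < F := by positivity
  have hF1 : M * (l / 2 * F) ≤ ε / 8 := by
    have h1 : F * (4 * (M * l + 1)) = ε := by
      rw [hFd]
      field_simp
    have h2 : 0 < F := hF0
    have h3 : M * (l / 2 * F) = M * l * F / 2 := by ring
    rw [h3]
    nlinarith
  obtain ⟨T, hT⟩ := tail (minf_integrable h e).1 hF0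
  refine ⟨T, fun t s ht hs => ?_⟩
  set g : ℝ → ℂ := fun r => ⟪e, (U κ).U r ψ⟫_ℂ with hg
  have hgc : Continuous g := continuous_const.inner ((U κ).cont' ψ)
  set w : ℝ → L2 ι := fun t => (U κ').U (-t) ((U κ).U t ψ) with hw
  have hder : ∀ a : ℝ, HasDerivAt (fun a : ℝ => ⟪w (t + a), w (s + a)⟫_ℂ)
      (⟪w (t + a), (Complex.I * ((κ' - κ : ℝ) : ℂ)) • (g (s + a) • (U κ').U (-(s + a)) e)⟫_ℂ +
        ⟪(Complex.I * ((κ' - κ : ℝ) : ℂ)) • (g (t + a) • (U κ').U (-(t + a)) e), w (s + a)⟫_ℂ)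
        a := by
    intro a
    exact HasDerivAt.inner ℂ ((hasDeriv hF κ κ' ψ (t + a)).comp_const_add t a)
      ((hasDeriv hF κ κ' ψ (s + a)).comp_const_add s a)
  have hn1 : ∀ a : ℝ, ‖⟪w (t + a), (U κ').U (-(s + a)) e⟫_ℂ‖ =
      ‖⟪(U κ').U (t - s) e, (U κ).U (t + a) ψ⟫_ℂ‖ := by
    intro a
    simp only [hw]
    rw [NN.inner_adj, neg_neg, ← (U κ').add', norm_inner_symm]
    congr 4
    ring
  have hn2 : ∀ a : ℝ, ‖⟪(U κ').U (-(t + a)) e, w (s + a)⟫_ℂ‖ =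
      ‖⟪(U κ').U (s - t) e, (U κ).U (s + a) ψ⟫_ℂ‖ := by
    intro a
    simp only [hw]
    rw [norm_inner_symm, NN.inner_adj, neg_neg, ← (U κ').add', norm_inner_symm]
    congr 4
    ring
  have hδ : ‖(Complex.I * ((κ' - κ : ℝ) : ℂ))‖ = M := by
    rw [norm_mul, Complex.norm_I, one_mul, Complex.norm_real, Real.norm_eq_abs]
  -- bound of the derivative
  have hb : ∀ a : ℝ, ‖⟪w (t + a), (Complex.I * ((κ' - κ : ℝ) : ℂ)) •
      (g (s + a) • (U κ').U (-(s + a)) e)⟫_ℂ +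
      ⟪(Complex.I * ((κ' - κ : ℝ) : ℂ)) • (g (t + a) • (U κ').U (-(t + a)) e), w (s + a)⟫_ℂ‖ ≤
      M * (‖g (s + a)‖ * ‖⟪(U κ').U (t - s) e, (U κ).U (t + a) ψ⟫_ℂ‖) +
      M * (‖g (t + a)‖ * ‖⟪(U κ').U (s - t) e, (U κ).U (s + a) ψ⟫_ℂ‖) := by
    intro a
    refine (norm_add_le _ _).trans (le_of_eq ?_)
    rw [inner_smul_right, inner_smul_right, inner_smul_left, inner_smul_left]
    simp only [norm_mul, RCLike.norm_conj, hn1, hn2]
    rw [norm_mul] at hδ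
    rw [hδ]
  have hwc : Continuous w := by
    have h1 : w = fun t => ψ + (Complex.I * ((κ' - κ : ℝ) : ℂ)) •
      ∫ s in (0 : ℝ)..t, ⟪e, (U κ).U s ψ⟫_ℂ • (U κ').U (-s) e := by
      funext t
      exact star_formula hF κ κ' ψ t
    rw [h1]
    have h2 : Continuous fun t : ℝ => ∫ s in (0 : ℝ)..t, ⟪e, (U κ).U s ψ⟫_ℂ • (U κ').U (-s) e :=
      intervalIntegral.continuous_primitive (fun a b =>
        (cgU (U κ) (U κ') ψ e continuous_id (by fun_prop)).intervalIntegrable _ _) 0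
    fun_prop
  have hdc : Continuous fun a : ℝ => ⟪w (t + a), (Complex.I * ((κ' - κ : ℝ) : ℂ)) •
      (g (s + a) • (U κ').U (-(s + a)) e)⟫_ℂ +
      ⟪(Complex.I * ((κ' - κ : ℝ) : ℂ)) • (g (t + a) • (U κ').U (-(t + a)) e), w (s + a)⟫_ℂ := by
    have h1 : Continuous fun a : ℝ => (U κ').U (-(s + a)) e := cU _ _ (by fun_prop)
    have h2 : Continuous fun a : ℝ => (U κ').U (-(t + a)) e := cU _ _ (by fun_prop)
    fun_prop
  -- the limit of the correlation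
  have hlim : Tendsto (fun A : ℝ => ((‖ψ‖ ^ 2 : ℝ) : ℂ) - ⟪w (t + A), w (s + A)⟫_ℂ) atTop
      (𝓝 0) := by
    have h1 := (diff_tendsto hF h (t - s) (κ' := κ')).comp
      (tendsto_atTop_add_const_left atTop s tendsto_id)
    have h2 := (h1.norm).const_mul ‖ψ‖
    rw [norm_zero, mul_zero] at h2
    refine squeeze_zero_norm (fun A => ?_) h2
    have e1 : ⟪w (t + A), w (s + A)⟫_ℂ =
        ⟪(U κ).U (t + A) ψ, (U κ').U (t - s) ((U κ).U (s + A) ψ)⟫_ℂ := by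
      simp only [hw]
      rw [NN.inner_adj, neg_neg, ← (U κ').add']
      congr 3
      ring
    have e2 : ((‖ψ‖ ^ 2 : ℝ) : ℂ) =
        ⟪(U κ).U (t + A) ψ, (U κ).U (t - s) ((U κ).U (s + A) ψ)⟫_ℂ := by
      rw [← (U κ).add', show t - s + (s + A) = t + A by ring, inner_self_eq_norm_sq_to_K,
        (U κ).norm']
      push_cast
      rfl
    rw [e1, e2, ← inner_sub_right, ← neg_sub, inner_neg_right, norm_neg]
    refine (norm_inner_le_norm _ _).trans ?_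
    rw [(U κ).norm']
    rfl
  obtain ⟨A, hA0, hA⟩ : ∃ A : ℝ, 0 ≤ A ∧
      ‖((‖ψ‖ ^ 2 : ℝ) : ℂ) - ⟪w (t + A), w (s + A)⟫_ℂ‖ ≤ ε / 2 := by
    rw [Metric.tendsto_atTop] at hlim
    obtain ⟨A, hA⟩ := hlim (ε / 2) (by positivity)
    refine ⟨max A 0, le_max_right _ _, ?_⟩
    have := hA (max A 0) (le_max_left _ _)
    rw [dist_zero_right] at this
    exact this.le
  have hftc := intervalIntegral.integral_eq_sub_of_hasDerivAt (a := 0) (b := A)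
    (fun a _ => hder a) (hdc.intervalIntegrable _ _)
  have hgi : ∀ r : ℝ, T ≤ r → ∫ a in (0 : ℝ)..A, ‖g (r + a)‖ ^ 2 ≤ F := by
    intro r hr
    rw [intervalIntegral.integral_comp_add_left (fun a => ‖g a‖ ^ 2) r]
    exact (le_abs_self _).trans (hT _ _ (by linarith) (by linarith))
  have hUE : ∀ r q : ℝ, ∫ a in (0 : ℝ)..A, ‖⟪(U κ').U q e, (U κ).U (r + a) ψ⟫_ℂ‖ ^ 2 ≤ E := by
    intro r q
    have := minf_interval h ((U κ').U q e) r A hA0
    rwa [(U κ').norm'] at this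
  have hc1 : ∀ r q : ℝ, Continuous fun a : ℝ => ‖⟪(U κ').U q e, (U κ).U (r + a) ψ⟫_ℂ‖ := by
    intro r q
    have h1 : Continuous fun a : ℝ => (U κ).U (r + a) ψ := cU _ _ (by fun_prop)
    fun_prop
  have hc2 : ∀ r : ℝ, Continuous fun a : ℝ => ‖g (r + a)‖ := by
    intro r
    fun_prop
  have hint : ‖∫ a in (0 : ℝ)..A, (⟪w (t + a), (Complex.I * ((κ' - κ : ℝ) : ℂ)) •
      (g (s + a) • (U κ').U (-(s + a)) e)⟫_ℂ +
      ⟪(Complex.I * ((κ' - κ : ℝ) : ℂ)) • (g (t + a) • (U κ').U (-(t + a)) e),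
        w (s + a)⟫_ℂ)‖ ≤ ε / 2 := by
    have h1 := intervalIntegral.norm_integral_le_of_norm_le hA0
      (Eventually.of_forall fun a _ => hb a) (μ := volume) (by
        refine Continuous.intervalIntegrable ?_ _ _
        exact (continuous_const.mul ((hc2 s).mul (hc1 t (t - s)))).add
          (continuous_const.mul ((hc2 t).mul (hc1 s (s - t)))))
    refine h1.trans ?_
    rw [intervalIntegral.integral_add, intervalIntegral.integral_const_mul,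
      intervalIntegral.integral_const_mul]
    · have h2 := int_prod_le (hc2 s) (hc1 t (t - s)) hl0 hA0 (hgi s hs) (hUE t (t - s))
      have h3 := int_prod_le (hc2 t) (hc1 s (s - t)) hl0 hA0 (hgi t ht) (hUE s (s - t))
      have h4 := mul_le_mul_of_nonneg_left h2 hM0
      have h5 := mul_le_mul_of_nonneg_left h3 hM0
      rw [mul_add] at h4 h5
      linarith
    · exact (continuous_const.mul ((hc2 s).mul (hc1 t (t - s)))).intervalIntegrable _ _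
    · exact (continuous_const.mul ((hc2 t).mul (hc1 s (s - t)))).intervalIntegrable _ _
  rw [hftc] at hint
  simp only [add_zero] at hint
  change ‖((‖ψ‖ ^ 2 : ℝ) : ℂ) - ⟪w t, w s⟫_ℂ‖ ≤ ε
  calc ‖((‖ψ‖ ^ 2 : ℝ) : ℂ) - ⟪w t, w s⟫_ℂ‖
      = ‖(((‖ψ‖ ^ 2 : ℝ) : ℂ) - ⟪w (t + A), w (s + A)⟫_ℂ) +
          (⟪w (t + A), w (s + A)⟫_ℂ - ⟪w t, w s⟫_ℂ)‖ := by
        congr 1
        ring
    _ ≤ ε / 2 + ε / 2 := (norm_add_le _ _).trans (add_le_add hA hint)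
    _ = ε := by ring

theorem limTop {U : ℝ → UG (L2 ι)} {e : L2 ι} (hF : Fam U e) {κ κ' C : ℝ} {ψ : L2 ι}
    (h : Minf (U κ) C ψ) :
    ∃ ψp, Tendsto (fun t : ℝ => (U κ').U (-t) ((U κ).U t ψ)) atTop (𝓝 ψp) := by
  apply cauchy_map_iff_exists_tendsto.1
  rw [Metric.cauchy_iff]
  refine ⟨inferInstance, fun ε hε => ?_⟩
  obtain ⟨T, hT⟩ := basic hF (κ' := κ') h (ε := ε ^ 2 / 4) (by positivity)
  refine ⟨(fun t : ℝ => (U κ').U (-t) ((U κ).U t ψ)) '' Set.Ici T,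
    image_mem_map (Ici_mem_atTop T), ?_⟩
  rintro _ ⟨t, ht, rfl⟩ _ ⟨s, hs, rfl⟩
  have h1 := hT t s ht hs
  rw [dist_eq_norm]
  set x := (U κ').U (-t) ((U κ).U t ψ) with hx
  set y := (U κ').U (-s) ((U κ).U s ψ) with hy
  have hnx : ‖x‖ = ‖ψ‖ := by rw [hx, (U κ').norm', (U κ).norm']
  have hny : ‖y‖ = ‖ψ‖ := by rw [hy, (U κ').norm', (U κ).norm']
  have h2 : ‖x - y‖ ^ 2 = 2 * (((‖ψ‖ ^ 2 : ℝ) : ℂ) - ⟪x, y⟫_ℂ).re := by
    rw [@norm_sub_sq ℂ, hnx, hny, Complex.sub_re, Complex.ofReal_re]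
    simp only [RCLike.re_to_complex]
    ring
  have h3 : (((‖ψ‖ ^ 2 : ℝ) : ℂ) - ⟪x, y⟫_ℂ).re ≤ ε ^ 2 / 4 := (Complex.re_le_norm _).trans h1
  refine lt_of_pow_lt_pow_left₀ 2 hε.le ?_
  have h4 : 0 < ε ^ 2 := by positivity
  linarith

/-- time reversal -/
def rev {X : Type} [NormedAddCommGroup X] [InnerProductSpace ℂ X] (U : ℝ → UG X) (κ : ℝ) :
    UG X where
  U t := (U (-κ)).U (-t)
  zero' x := by rw [neg_zero, (U (-κ)).zero']
  add' s t x := by rw [neg_add, (U (-κ)).add']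
  norm' t x := (U (-κ)).norm' _ _
  cont' x := ((U (-κ)).cont' x).comp continuous_neg

theorem rev_apply {X : Type} [NormedAddCommGroup X] [InnerProductSpace ℂ X] (U : ℝ → UG X)
    (κ t : ℝ) (x : X) : (rev U κ).U t x = (U (-κ)).U (-t) x := rfl

theorem rev_fam {X : Type} [NormedAddCommGroup X] [InnerProductSpace ℂ X] {U : ℝ → UG X} {e : X}
    (hF : Fam U e) : Fam (rev U) e := by
  intro κ κ' t x
  rw [rev_apply, hF (-κ) (-κ') (-t) x, rev_apply]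
  have h1 : ∫ s in (0 : ℝ)..(-t), ⟪e, (U (-κ')).U s x⟫_ℂ • (U (-κ)).U (-t - s) e =
      -∫ s in (0 : ℝ)..t, ⟪e, (rev U κ').U s x⟫_ℂ • (rev U κ).U (t - s) e := by
    have h2 := intervalIntegral.integral_comp_neg (a := 0) (b := t)
      (fun s => ⟪e, (U (-κ')).U s x⟫_ℂ • (U (-κ)).U (-t - s) e)
    rw [neg_zero] at h2
    rw [intervalIntegral.integral_symm, ← h2]
    congr 1
    refine intervalIntegral.integral_congr fun s _ => ?_
    rw [rev_apply, rev_apply]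
    congr 3
    ring
  rw [h1, smul_neg, ← neg_smul]
  congr 3
  push_cast
  ring

theorem rev_minf {U : ℝ → UG (L2 ι)} {κ C : ℝ} {ψ : L2 ι} (h : Minf (U κ) C ψ) :
    Minf (rev U (-κ)) C ψ := by
  intro φ
  refine le_trans (le_of_eq ?_) (h φ)
  have h1 : ∀ t, (rev U (-κ)).U t ψ = (U κ).U (-t) ψ := by
    intro t
    rw [rev_apply, neg_neg]
  simp only [h1]
  have h2 := (Measure.measurePreserving_neg (volume : Measure ℝ)).lintegral_comp_emb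
    (MeasurableEquiv.neg ℝ).measurableEmbedding (fun t => ‖⟪φ, (U κ).U t ψ⟫_ℂ‖ₑ ^ 2)
  exact h2

end WP

theorem t_WP : St_WP := by
  intro ι U e hF κ κ' C ψ h
  refine ⟨WP.limTop hF h, ?_⟩
  obtain ⟨ψm, hm⟩ := WP.limTop (WP.rev_fam hF) (κ' := -κ') (WP.rev_minf h)
  refine ⟨ψm, ?_⟩
  have h1 := hm.comp tendsto_neg_atBot_atTop
  refine h1.congr fun t => ?_
  simp only [Function.comp_apply, WP.rev_apply, neg_neg]

end Pool.Agent.H5R2.NBA
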