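import Pool.Agent.H5R2.NBA.Defs
import Pool.Agent.H5R2.NB.ALL

/-! # ZACO: the averaged velocity vanishes at the origin on the absolutely continuous subspace -/

set_option autoImplicit false

open MeasureTheory Filter Topology
open scoped BigOperators ENNReal NNReal InnerProductSpace ComplexConjugate

namespace Pool.Agent.H5R2.NBA

open Pool.Agent.H5R2.NB

theorem t_ZACO (hAB : St_AB) (hKK : St_KK) : St_ZACO := by
  intro d c ev hev ν _ hν j v hv Nk hNk hG
  have hmp := (t_RES d ν).1
  have h1 : ∀ᵐ p ∂((PP d ν).prod ν), ∃ B : L2 (Site d) →L[ℂ] L2 (Site d),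
      Good (ev (Function.update p.1 0 p.2)) v Nk B := hmp.quasiMeasurePreserving.ae hG
  have h2 := Measure.ae_ae_of_ae_prod h1
  filter_upwards [h2] with V hV B hB ψ hψ
  have h3 : ∃ k, k ≠ V 0 ∧ ∃ B : L2 (Site d) →L[ℂ] L2 (Site d),
      Good (ev (Function.update V 0 k)) v Nk B := by
    by_contra h
    have h4 : ∀ᵐ k ∂ν, k = V 0 := by
      filter_upwards [hV] with k hk
      by_contra hne
      exact h ⟨k, hne, hk⟩
    have h5 : ν {V 0} = 1 := by
      rw [← prob_compl_eq_zero_iff (measurableSet_singleton _)]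
      exact h4
    exact hν _ h5
  obtain ⟨k, hk, B', hB'⟩ := h3
  have hfam := t_FAM ALL.a_UN d c ev hev V
  have hup : Function.update V 0 (V 0) = V := Function.update_eq_self 0 V
  obtain ⟨K, hK1, hK2, hK3, hK4, hK5, hK6⟩ := hKK d c V (ev V) (hev V) j v hv Nk hNk B hB
  refine hAB (Site d) (fun κ => ev (Function.update V 0 κ)) (dl 0) hfam k (V 0) hk v
    (fun x y => ?_) Nk hNk B' B hB' ?_ K hK1 hK2 hK3 ?_ hK5 hK6 ψ ?_
  · exact (STAT.vel_symm t_OPS c j v hv x y)
  · simpa only [hup] using hB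
  · simpa only [hup] using hK4
  · simpa only [hup] using hψ

end Pool.Agent.H5R2.NBA
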