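import Pool.Agent.H5R2.NB.FIN
import Pool.Agent.H5R2.NBA.AB
import Pool.Agent.H5R2.NBA.FIN
import Pool.Agent.H5R2.NBA.FINA
import Pool.Agent.H5R2.NBA.KK
import Pool.Agent.H5R2.NBA.LIM2
import Pool.Agent.H5R2.NBA.PR
import Pool.Agent.H5R2.NBA.QN
import Pool.Agent.H5R2.NBA.SPEC
import Pool.Agent.H5R2.NBA.W3
import Pool.Agent.H5R2.NBA.W4
import Pool.Agent.H5R2.NBA.W5
import Pool.Agent.H5R2.NBA.W6
import Pool.Agent.H5R2.NBA.WI
import Pool.Agent.H5R2.NBA.WP
import Pool.Agent.H5R2.NBA.ZAC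
import Pool.Agent.H5R2.NBA.ZACO

/-! # Assembly: absolutely continuous states have zero asymptotic velocity -/

set_option autoImplicit false

open MeasureTheory Filter Topology
open scoped BigOperators ENNReal NNReal InnerProductSpace ComplexConjugate

namespace Pool.Agent.H5R2.NBA.ALL

open Pool.Agent.H5R2.NB Pool.Agent.H5R2.NBA

theorem a_W6 : St_W6 := t_W6 t_WP t_WI t_W3 t_W4 t_W5
theorem a_AB : St_AB := t_AB a_W6 t_PR t_QN
theorem a_ZACO : St_ZACO := t_ZACO a_AB t_KK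
theorem a_ZAC : St_ZAC := t_ZAC a_ZACO
theorem a_FINA : St_FINA := t_FINA a_ZAC t_LIM2
theorem a_FIN : St_FIN := t_FIN a_FINA
theorem a_SPEC : St_SPEC := t_SPEC

end Pool.Agent.H5R2.NBA.ALL
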