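import Pool.Agent.H5R2.NB.Defs

/-! # Absolutely continuous states of the Anderson model have zero asymptotic velocity
(arbitrary iid laws, e.g. Bernoulli): definitions and statements of the tasks -/

set_option autoImplicit false

open MeasureTheory Filter Topology
open scoped BigOperators ENNReal NNReal InnerProductSpace ComplexConjugate

namespace Pool.Agent.H5R2.NBA

open Pool.Agent.H5R2.NB

/-- `ψ` has a bounded spectral density: `∫ |⟨φ, U_t ψ⟩|² dt ≤ C ‖φ‖²` for all `φ` -/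
def Minf {ι : Type} (W : UG (L2 ι)) (C : ℝ) (ψ : L2 ι) : Prop :=
  ∀ φ : L2 ι, ∫⁻ t : ℝ, ‖⟪φ, W.U t ψ⟫_ℂ‖ₑ ^ 2 ≤ ENNReal.ofReal (C * ‖φ‖ ^ 2)

/-- the absolutely continuous subspace (closure of the vectors of bounded spectral density) -/
def HAC {ι : Type} (W : UG (L2 ι)) : Set (L2 ι) := closure {ψ | ∃ C : ℝ, Minf W C ψ}

/-- the spectral measure of `ψ` is absolutely continuous -/
def ACvec {ι : Type} (W : UG (L2 ι)) (ψ : L2 ι) : Prop :=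
  ∃ μ : Measure ℝ, IsFiniteMeasure μ ∧ μ ≪ volume ∧
    ∀ t : ℝ, ⟪ψ, W.U t ψ⟫_ℂ = ∫ E : ℝ, Complex.exp (-(Complex.I * t * E)) ∂μ

/-! ### Part I: abstract -/

/-- WP: existence of the wave operators of a rank one perturbation on `Minf` -/
def St_WP : Prop :=
  ∀ (ι : Type) (U : ℝ → UG (L2 ι)) (e : L2 ι), Fam U e → ∀ (κ κ' C : ℝ) (ψ : L2 ι),
    Minf (U κ) C ψ →
      (∃ ψp, Tendsto (fun t : ℝ => (U κ').U (-t) ((U κ).U t ψ)) atTop (𝓝 ψp)) ∧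
      ∃ ψm, Tendsto (fun t : ℝ => (U κ').U (-t) ((U κ).U t ψ)) atBot (𝓝 ψm)

/-- WI: general properties of the wave operators -/
def St_WI : Prop :=
  ∀ (ι : Type) (W W' : UG (L2 ι)) (l : Filter ℝ), (l = atTop ∨ l = atBot) → ∀ (ψ ψp : L2 ι),
    Tendsto (fun t : ℝ => W'.U (-t) (W.U t ψ)) l (𝓝 ψp) →
      ‖ψp‖ = ‖ψ‖ ∧
      (∀ τ : ℝ, Tendsto (fun t : ℝ => W'.U (-t) (W.U t (W.U τ ψ))) l (𝓝 (W'.U τ ψp))) ∧
      (∀ C : ℝ, Minf W C ψ → Minf W' C ψp) ∧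
      Tendsto (fun t : ℝ => W.U (-t) (W'.U t ψp)) l (𝓝 ψ)

/-- W3: the wave operators intertwine the averaged observables -/
def St_W3 : Prop :=
  ∀ (ι : Type) (W W' : UG (L2 ι)) (v : L2 ι →L[ℂ] L2 ι) (Nk : ℕ → ℕ), Tendsto Nk atTop atTop →
    ∀ B B' : L2 ι →L[ℂ] L2 ι, Good W v Nk B → Good W' v Nk B' →
    ∀ (l : Filter ℝ), (l = atTop ∨ l = atBot) → ∀ φ φp ψ ψp : L2 ι,
      Tendsto (fun t : ℝ => W'.U (-t) (W.U t φ)) l (𝓝 φp) →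
      Tendsto (fun t : ℝ => W'.U (-t) (W.U t ψ)) l (𝓝 ψp) →
        ⟪φp, B' ψp⟫_ℂ = ⟪φ, B ψ⟫_ℂ

/-- W4: the difference of the two wave operators, in the weak sense -/
def St_W4 : Prop :=
  ∀ (ι : Type) (U : ℝ → UG (L2 ι)) (e : L2 ι), Fam U e →
    ∀ (κ κ' C C' : ℝ) (ψ ψp ψm η : L2 ι), Minf (U κ) C ψ → Minf (U κ') C' η →
      Tendsto (fun t : ℝ => (U κ').U (-t) ((U κ).U t ψ)) atTop (𝓝 ψp) →
      Tendsto (fun t : ℝ => (U κ').U (-t) ((U κ).U t ψ)) atBot (𝓝 ψm) →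
        ⟪η, ψp - ψm⟫_ℂ = Complex.I * ((κ' - κ : ℝ) : ℂ) *
          ∫ s : ℝ, ⟪e, (U κ).U s ψ⟫_ℂ * ⟪η, (U κ').U (-s) e⟫_ℂ

/-- W5: orthogonality to all translates is preserved by the wave operator -/
def St_W5 : Prop :=
  ∀ (ι : Type) (U : ℝ → UG (L2 ι)) (e : L2 ι), Fam U e →
    ∀ (κ κ' C : ℝ) (ψ ψp : L2 ι), Minf (U κ) C ψ →
      Tendsto (fun t : ℝ => (U κ').U (-t) ((U κ).U t ψ)) atTop (𝓝 ψp) →
    ∀ h : ℝ → ℂ, Measurable h → ∫⁻ r, ‖h r‖ₑ ^ 2 < ∞ →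
      (∀ s : ℝ, ∫ r : ℝ, ⟪e, (U κ).U (r + s) ψ⟫_ℂ * h r = 0) →
        ∫ r : ℝ, ⟪e, (U κ').U r ψp⟫_ℂ * h r = 0

/-- W6: on the absolutely continuous part, the averaged observable maps the orthogonal complement
of the cyclic space of `e` into itself -/
def St_W6 : Prop :=
  ∀ (ι : Type) (U : ℝ → UG (L2 ι)) (e : L2 ι), Fam U e → ∀ κ κ' : ℝ, κ ≠ κ' →
    ∀ (v : L2 ι →L[ℂ] L2 ι), (∀ x y, ⟪v x, y⟫_ℂ = ⟪x, v y⟫_ℂ) →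
    ∀ (Nk : ℕ → ℕ), Tendsto Nk atTop atTop →
    ∀ B B' : L2 ι →L[ℂ] L2 ι, Good (U κ) v Nk B → Good (U κ') v Nk B' →
    ∀ (C : ℝ) (φ : L2 ι), Minf (U κ') C φ → (∀ t, ⟪φ, (U κ').U t e⟫_ℂ = 0) →
      ∀ t, ⟪B' φ, (U κ').U t e⟫_ℂ = 0

/-- PR: the orthogonal projection onto the absolutely continuous subspace -/
def St_PR : Prop :=
  ∀ (ι : Type) (W : UG (L2 ι)), ∃ P : L2 ι →L[ℂ] L2 ι,
    (∀ x, P x ∈ HAC W) ∧ (∀ x ∈ HAC W, P x = x) ∧ (∀ x y, ⟪P x, y⟫_ℂ = ⟪x, P y⟫_ℂ) ∧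
    (∀ t x, P (W.U t x) = W.U t (P x)) ∧
    (∀ B : L2 ι →L[ℂ] L2 ι, (∀ x y, ⟪B x, y⟫_ℂ = ⟪x, B y⟫_ℂ) → (∀ t x, B (W.U t x) = W.U t (B x)) →
      ∀ x, P (B x) = B (P x)) ∧
    ∀ K : L2 ι → L2 ι, (∀ x y, ⟪K x, K y⟫_ℂ = ⟪y, x⟫_ℂ) → (∀ x y, K (x + y) = K x + K y) →
      (∀ x, K (K x) = x) → (∀ t x, K (W.U t x) = W.U (-t) (K x)) → ∀ x, P (K x) = K (P x)

/-- QN: vectors of bounded spectral density orthogonal to the cyclic space of `e` are dense among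
the vectors of the absolutely continuous subspace orthogonal to the cyclic space of `e` -/
def St_QN : Prop :=
  ∀ (ι : Type) (W : UG (L2 ι)) (e φ : L2 ι), φ ∈ HAC W → (∀ t, ⟪φ, W.U t e⟫_ℂ = 0) →
    ∀ ε : ℝ, 0 < ε → ∃ (C : ℝ) (φ' : L2 ι), Minf W C φ' ∧ (∀ t, ⟪φ', W.U t e⟫_ℂ = 0) ∧
      ‖φ - φ'‖ ≤ ε

/-- AB: abstract form of the conclusion. `K` is an antiunitary involution (complex conjugation,
time reversal) -/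
def St_AB : Prop :=
  ∀ (ι : Type) (U : ℝ → UG (L2 ι)) (e : L2 ι), Fam U e → ∀ κ κ' : ℝ, κ ≠ κ' →
    ∀ (v : L2 ι →L[ℂ] L2 ι), (∀ x y, ⟪v x, y⟫_ℂ = ⟪x, v y⟫_ℂ) →
    ∀ (Nk : ℕ → ℕ), Tendsto Nk atTop atTop →
    ∀ B B' : L2 ι →L[ℂ] L2 ι, Good (U κ) v Nk B → Good (U κ') v Nk B' →
    ∀ K : L2 ι → L2 ι, (∀ x y, ⟪K x, K y⟫_ℂ = ⟪y, x⟫_ℂ) → (∀ x y, K (x + y) = K x + K y) →
      (∀ x, K (K x) = x) → (∀ t x, K ((U κ').U t x) = (U κ').U (-t) (K x)) →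
      (∀ x, K (B' x) = - B' (K x)) → K e = e →
      ∀ ψ ∈ HAC (U κ'), ⟪e, B' ψ⟫_ℂ = 0

/-- SPEC: vectors with absolutely continuous spectral measure lie in `HAC` -/
def St_SPEC : Prop :=
  ∀ (ι : Type) (W : UG (L2 ι)) (ψ : L2 ι), ACvec W ψ → ψ ∈ HAC W

/-! ### Part II: the lattice -/

/-- KK: complex conjugation on `ℓ²(ℤ^d)` -/
def St_KK : Prop :=
  ∀ (d : ℕ) (c : ℝ) (V : Site d → ℝ) (W : UG (L2 (Site d))), IsGrp c V W →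
    ∀ (j : Fin d) (v : L2 (Site d) →L[ℂ] L2 (Site d)), IsVel c j v →
    ∀ (Nk : ℕ → ℕ), Tendsto Nk atTop atTop → ∀ B : L2 (Site d) →L[ℂ] L2 (Site d),
      Good W v Nk B →
    ∃ K : L2 (Site d) → L2 (Site d), (∀ x y, ⟪K x, K y⟫_ℂ = ⟪y, x⟫_ℂ) ∧
      (∀ x y, K (x + y) = K x + K y) ∧ (∀ x, K (K x) = x) ∧
      (∀ t x, K (W.U t x) = W.U (-t) (K x)) ∧ (∀ x, K (B x) = - B (K x)) ∧
      K (dl 0) = dl 0

/-- ZACO: the same at the origin only -/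
def St_ZACO : Prop :=
  ∀ (d : ℕ) (c : ℝ) (ev : (Site d → ℝ) → UG (L2 (Site d))), (∀ V, IsGrp c V (ev V)) →
    ∀ (ν : Measure ℝ) [IsProbabilityMeasure ν], (∀ κ : ℝ, ν {κ} ≠ 1) →
    ∀ (j : Fin d) (v : L2 (Site d) →L[ℂ] L2 (Site d)), IsVel c j v →
    ∀ (Nk : ℕ → ℕ), Tendsto Nk atTop atTop →
      (∀ᵐ V ∂(PP d ν), ∃ B : L2 (Site d) →L[ℂ] L2 (Site d), Good (ev V) v Nk B) →
      ∀ᵐ V ∂(PP d ν), ∀ B : L2 (Site d) →L[ℂ] L2 (Site d), Good (ev V) v Nk B →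
        ∀ ψ ∈ HAC (ev V), ⟪(dl 0 : L2 (Site d)), B ψ⟫_ℂ = 0

/-- ZAC: almost surely the averaged velocity vanishes on the absolutely continuous subspace;
`ν` is any law which is not a point mass -/
def St_ZAC : Prop :=
  ∀ (d : ℕ) (c : ℝ) (ev : (Site d → ℝ) → UG (L2 (Site d))), (∀ V, IsGrp c V (ev V)) →
    ∀ (ν : Measure ℝ) [IsProbabilityMeasure ν], (∀ κ : ℝ, ν {κ} ≠ 1) →
    ∀ (j : Fin d) (v : L2 (Site d) →L[ℂ] L2 (Site d)), IsVel c j v →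
    ∀ (Nk : ℕ → ℕ), Tendsto Nk atTop atTop →
      (∀ᵐ V ∂(PP d ν), ∃ B : L2 (Site d) →L[ℂ] L2 (Site d), Good (ev V) v Nk B) →
      ∀ᵐ V ∂(PP d ν), ∀ B : L2 (Site d) →L[ℂ] L2 (Site d), Good (ev V) v Nk B →
        ∀ ψ ∈ HAC (ev V), B ψ = 0

/-- LIM2: every sequence of times has a subsequence along which the averages converge strongly,
almost surely -/
def St_LIM2 : Prop :=
  ∀ (d : ℕ) (c : ℝ) (ev : (Site d → ℝ) → UG (L2 (Site d))), (∀ V, IsGrp c V (ev V)) →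
    ∀ (ν : Measure ℝ) [IsProbabilityMeasure ν] (j : Fin d)
      (v : L2 (Site d) →L[ℂ] L2 (Site d)), IsVel c j v →
    ∀ M : ℕ → ℕ, Tendsto M atTop atTop →
      ∃ a : ℕ → ℕ, StrictMono a ∧
        ∀ᵐ V ∂(PP d ν), ∃ B : L2 (Site d) →L[ℂ] L2 (Site d), Good (ev V) v (M ∘ a) B

/-- FINA: FIN for integer times -/
def St_FINA : Prop :=
  ∀ (d : ℕ) (c : ℝ) (ev : (Site d → ℝ) → UG (L2 (Site d))), (∀ V, IsGrp c V (ev V)) →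
    ∀ (ν : Measure ℝ) [IsProbabilityMeasure ν], (∀ κ : ℝ, ν {κ} ≠ 1) →
    ∀ (j : Fin d) (v : L2 (Site d) →L[ℂ] L2 (Site d)), IsVel c j v →
    ∀ (ψ : (Site d → ℝ) → L2 (Site d)) (M : ℝ), AEStronglyMeasurable ψ (PP d ν) →
      (∀ V, ‖ψ V‖ ≤ M) → (∀ᵐ V ∂(PP d ν), ψ V ∈ HAC (ev V)) →
      Tendsto (fun N : ℕ => ∫⁻ V, ‖avP (ev V) v N (ψ V)‖ₑ ^ 2 ∂(PP d ν)) atTop (𝓝 0)

/-- FIN: for every measurable choice of a vector in the absolutely continuous subspace the averaged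
velocity tends to zero in mean square -/
def St_FIN : Prop :=
  ∀ (d : ℕ) (c : ℝ) (ev : (Site d → ℝ) → UG (L2 (Site d))), (∀ V, IsGrp c V (ev V)) →
    ∀ (ν : Measure ℝ) [IsProbabilityMeasure ν], (∀ κ : ℝ, ν {κ} ≠ 1) →
    ∀ (j : Fin d) (v : L2 (Site d) →L[ℂ] L2 (Site d)), IsVel c j v →
    ∀ (ψ : (Site d → ℝ) → L2 (Site d)) (M : ℝ), AEStronglyMeasurable ψ (PP d ν) →
      (∀ V, ‖ψ V‖ ≤ M) → (∀ᵐ V ∂(PP d ν), ψ V ∈ HAC (ev V)) →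
      Tendsto (fun T : ℝ => ∫⁻ V, ‖((T : ℂ)⁻¹) • ∫ s in (0 : ℝ)..T,
        (ev V).U (-s) (v ((ev V).U s (ψ V)))‖ₑ ^ 2 ∂(PP d ν)) atTop (𝓝 0)

end Pool.Agent.H5R2.NBA
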