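import Pool.Agent.H5R2.NBA.Defs
import Pool.Agent.H5R2.NB.ALL

/-! # ZAC: the averaged velocity vanishes on the absolutely continuous subspace -/

set_option autoImplicit false

open MeasureTheory Filter Topology
open scoped BigOperators ENNReal NNReal InnerProductSpace ComplexConjugate

namespace Pool.Agent.H5R2.NBA

open Pool.Agent.H5R2.NB

namespace ZAC

variable {d : ℕ} {c : ℝ} {j : Fin d} {v : L2 (Site d) →L[ℂ] L2 (Site d)}
  {ev : (Site d → ℝ) → UG (L2 (Site d))} {z : Site d} {S T : L2 (Site d) →L[ℂ] L2 (Site d)}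

theorem inv1 (hS : IsShift z S) (hT : IsShift (-z) T) (ψ : L2 (Site d)) : S (T ψ) = ψ := by
  ext x
  rw [hS, hT, add_neg_cancel_right]

theorem inv2 (hS : IsShift z S) (hT : IsShift (-z) T) (ψ : L2 (Site d)) : T (S ψ) = ψ := by
  ext x
  rw [hT, hS, neg_add_cancel_right]

theorem normT (hS : IsShift z S) (hT : IsShift (-z) T) (ψ : L2 (Site d)) : ‖T ψ‖ = ‖ψ‖ := by
  have h1 : ⟪T ψ, T ψ⟫_ℂ = ⟪ψ, ψ⟫_ℂ := by
    rw [← STAT.shift_inner z S T hS hT, inv1 hS hT]
  rw [inner_self_eq_norm_sq_to_K, inner_self_eq_norm_sq_to_K] at h1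
  have h2 : ‖T ψ‖ ^ 2 = ‖ψ‖ ^ 2 := by exact_mod_cast h1
  exact (sq_eq_sq₀ (norm_nonneg _) (norm_nonneg _)).1 h2

theorem avP_conj (hev : ∀ V, IsGrp c V (ev V)) (hv : IsVel c j v) (hS : IsShift z S)
    (hT : IsShift (-z) T) (V : Site d → ℝ) (N : ℕ) (x : L2 (Site d)) :
    avP (ev fun y => V (y + z)) v N x = S (avP (ev V) v N (T x)) := by
  unfold avP
  have e := ContinuousLinearMap.intervalIntegral_comp_comm S
    ((LIMB.cont_P (ev V) v (T x)).intervalIntegrable (μ := volume) (0 : ℝ) (N : ℝ))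
  rw [map_smul]
  congr 1
  refine Eq.trans ?_ e
  refine intervalIntegral.integral_congr fun s _ => ?_
  have hC := ALL.a_COV d c ev hev z S hS V
  show (ev fun y => V (y + z)).U (-s) (v ((ev fun y => V (y + z)).U s x)) =
    S ((ev V).U (-s) (v ((ev V).U s (T x))))
  rw [← hC, ← LIMB.vel_shift hv hS, ← hC, inv1 hS hT]

theorem avM_conj (hev : ∀ V, IsGrp c V (ev V)) (hv : IsVel c j v) (hS : IsShift z S)
    (hT : IsShift (-z) T) (V : Site d → ℝ) (N : ℕ) (x : L2 (Site d)) :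
    avM (ev fun y => V (y + z)) v N x = S (avM (ev V) v N (T x)) := by
  unfold avM
  have e := ContinuousLinearMap.intervalIntegral_comp_comm S
    ((LIMB.cont_M (ev V) v (T x)).intervalIntegrable (μ := volume) (0 : ℝ) (N : ℝ))
  rw [map_smul]
  congr 1
  refine Eq.trans ?_ e
  refine intervalIntegral.integral_congr fun s _ => ?_
  have hC := ALL.a_COV d c ev hev z S hS V
  show (ev fun y => V (y + z)).U s (v ((ev fun y => V (y + z)).U (-s) x)) =
    S ((ev V).U s (v ((ev V).U (-s) (T x))))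
  rw [← hC, ← LIMB.vel_shift hv hS, ← hC, inv1 hS hT]

theorem good_conj (hev : ∀ V, IsGrp c V (ev V)) (hv : IsVel c j v) (hS : IsShift z S)
    (hT : IsShift (-z) T) (V : Site d → ℝ) (Nk : ℕ → ℕ) (B : L2 (Site d) →L[ℂ] L2 (Site d))
    (hB : Good (ev V) v Nk B) :
    Good (ev fun y => V (y + z)) v Nk ((S.comp B).comp T) := by
  intro x
  obtain ⟨h1, h2⟩ := hB (T x)
  constructor
  · refine ((S.continuous.tendsto _).comp h1).congr fun k => ?_
    rw [avP_conj hev hv hS hT]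
    rfl
  · refine ((S.continuous.tendsto _).comp h2).congr fun k => ?_
    rw [avM_conj hev hv hS hT]
    rfl

theorem minf_conj (hev : ∀ V, IsGrp c V (ev V)) (hS : IsShift z S)
    (hT : IsShift (-z) T) (V : Site d → ℝ) (C : ℝ) (ψ : L2 (Site d)) (h : Minf (ev V) C ψ) :
    Minf (ev fun y => V (y + z)) C (S ψ) := by
  intro φ
  have h1 := h (T φ)
  rw [normT hS hT] at h1
  refine le_trans (le_of_eq ?_) h1
  refine lintegral_congr fun t => ?_
  have hT' : IsShift (-(-z)) S := by rw [neg_neg]; exact hS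
  rw [ALL.a_COV d c ev hev z S hS V, STAT.shift_inner (-z) T S hT hT']

theorem hac_conj (hev : ∀ V, IsGrp c V (ev V)) (hS : IsShift z S)
    (hT : IsShift (-z) T) (V : Site d → ℝ) (ψ : L2 (Site d)) (h : ψ ∈ HAC (ev V)) :
    S ψ ∈ HAC (ev fun y => V (y + z)) := by
  refine map_mem_closure S.continuous h ?_
  rintro x ⟨C, hC⟩
  exact ⟨C, minf_conj hev hS hT V C x hC⟩

end ZAC

open ZAC in
theorem t_ZAC (h1 : St_ZACO) : St_ZAC := by
  intro d c ev hev ν _ hν j v hv Nk hNk hG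
  have h2 := h1 d c ev hev ν hν j v hv Nk hNk hG
  have h3 : ∀ᵐ V ∂(PP d ν), ∀ z : Site d, ∀ B : L2 (Site d) →L[ℂ] L2 (Site d),
      Good (ev fun y => V (y + z)) v Nk B →
        ∀ ψ ∈ HAC (ev fun y => V (y + z)), ⟪(dl 0 : L2 (Site d)), B ψ⟫_ℂ = 0 := by
    rw [ae_all_iff]
    intro z
    exact ((t_RES d ν).2 z).quasiMeasurePreserving.ae h2
  filter_upwards [h3] with V hV B hB ψ hψ
  ext z
  obtain ⟨S, hS⟩ := (t_OPS d).1 z
  obtain ⟨T, hT⟩ := (t_OPS d).1 (-z)
  have h4 := hV z _ (good_conj hev hv hS hT V Nk B hB) (S ψ) (hac_conj hev hS hT V ψ hψ)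
  have h5 : ((S.comp B).comp T) (S ψ) = S (B ψ) := by
    show S (B (T (S ψ))) = _
    rw [inv2 hS hT]
  rw [h5] at h4
  unfold dl at h4
  rw [lp.inner_single_left, hS, zero_add] at h4
  simpa using h4

end Pool.Agent.H5R2.NBA
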